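import Pool.Agent.SQD.StA

/-!
# SQD, module AME: groups with the condition of Folner
-/

set_option autoImplicit false

open MeasureTheory

namespace SQD

namespace AME

open Classical in
theorem count {G : Subgroup SL} {E : Set V} {K : Finset SL} (hK : ∀ κ ∈ K, κ ∈ G)
    {f : Fin 2 → V → V} (h1 : ∀ i, ∀ x ∈ E, f i x ∈ E ∧ ∃ κ ∈ K, f i x = act κ x)
    (h2 : ∀ i j, ∀ x ∈ E, ∀ y ∈ E, f i x = f j y → i = j ∧ x = y) {F H : Finset G}
    (hH : ∀ k : G, (k : SL) ∈ K → ∀ g ∈ F, k * g ∈ H) (y : V) :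
    2 * (F.filter fun g : G => act (g : SL) y ∈ E).card ≤
      (H.filter fun h : G => act (h : SL) y ∈ E).card := by
  have h3 : ∀ (i : Fin 2) (x : V), ∃ κ : G, x ∈ E → ((κ : SL) ∈ K ∧ f i x = act (κ : SL) x) := by
    intro i x
    by_cases hx : x ∈ E
    · obtain ⟨κ, hκ, he⟩ := (h1 i x hx).2
      exact ⟨⟨κ, hK κ hκ⟩, fun _ => ⟨hκ, he⟩⟩
    · exact ⟨1, fun h => absurd h hx⟩
  choose κ hκ using h3
  have hcard : ((F.filter fun g : G => act (g : SL) y ∈ E) ×ˢ
      (Finset.univ : Finset (Fin 2))).card =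
      2 * (F.filter fun g : G => act (g : SL) y ∈ E).card := by
    rw [Finset.card_product, Finset.card_univ, Fintype.card_fin, mul_comm]
  rw [← hcard]
  have hval : ∀ (g : G) (i : Fin 2), act (g : SL) y ∈ E →
      act ((κ i (act (g : SL) y) * g : G) : SL) y = f i (act (g : SL) y) := by
    intro g i hg
    rw [(hκ i _ hg).2, Subgroup.coe_mul, act_mul]
  refine Finset.card_le_card_of_injOn
    (fun q : G × Fin 2 => κ q.2 (act (q.1 : SL) y) * q.1) ?_ ?_
  · rintro ⟨g, i⟩ hq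
    rw [Finset.mem_coe, Finset.mem_product, Finset.mem_filter] at hq
    obtain ⟨⟨hgF, hgE⟩, -⟩ := hq
    rw [Finset.mem_coe, Finset.mem_filter]
    refine ⟨hH _ (hκ i _ hgE).1 g hgF, ?_⟩
    show act ((κ i (act (g : SL) y) * g : G) : SL) y ∈ E
    rw [hval g i hgE]
    exact (h1 i _ hgE).1
  · rintro ⟨g, i⟩ hq ⟨g', i'⟩ hq' he
    rw [Finset.mem_coe, Finset.mem_product, Finset.mem_filter] at hq hq'
    obtain ⟨⟨-, hgE⟩, -⟩ := hq
    obtain ⟨⟨-, hgE'⟩, -⟩ := hq'
    have he' : κ i (act (g : SL) y) * g = κ i' (act (g' : SL) y) * g' := he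
    have h4 : f i (act (g : SL) y) = f i' (act (g' : SL) y) := by
      rw [← hval g i hgE, ← hval g' i' hgE', he']
    obtain ⟨h5, h6⟩ := h2 i i' _ hgE _ hgE' h4
    subst h5
    rw [h6] at he'
    have h7 := mul_left_cancel he'
    rw [h7]

open Classical in
/-- The number of elements of `F` which move `y` into `E`, as a sum of indicators. -/
theorem sum_ind {G : Subgroup SL} (E : Set V) (F : Finset G) (y : V) :
    ∑ g ∈ F, (act (g : SL) ⁻¹' E).indicator (fun _ => (1 : ENNReal)) y =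
      ((F.filter fun g : G => act (g : SL) y ∈ E).card : ENNReal) := by
  rw [Finset.card_filter, Nat.cast_sum]
  refine Finset.sum_congr rfl fun g _ => ?_
  by_cases h : act (g : SL) y ∈ E
  · rw [Set.indicator_of_mem (show y ∈ act (g : SL) ⁻¹' E from h), if_pos h, Nat.cast_one]
  · rw [Set.indicator_of_notMem (show y ∉ act (g : SL) ⁻¹' E from h), if_neg h, Nat.cast_zero]

/-- The integral of the sum. -/
theorem lint (hM : S_MPR) {G : Subgroup SL} {E : Set V} (hE : NullMeasurableSet E volume)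
    (F : Finset G) :
    ∫⁻ y, ∑ g ∈ F, (act (g : SL) ⁻¹' E).indicator (fun _ => (1 : ENNReal)) y =
      (F.card : ENNReal) * volume E := by
  have hn : ∀ g : G, NullMeasurableSet (act (g : SL) ⁻¹' E) volume := fun g =>
    hE.preimage (hM.1 (g : SL)).quasiMeasurePreserving
  rw [lintegral_finsetSum' F fun g _ => (aemeasurable_const.indicator₀ (hn g))]
  rw [Finset.sum_congr rfl (g := fun _ => volume E) fun g _ => by
    rw [lintegral_indicator_const₀ (hn g), one_mul, (hM.1 (g : SL)).measure_preimage hE]]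
  rw [Finset.sum_const, nsmul_eq_mul]

end AME

/-- AME. Groups with the condition of Folner. -/
theorem t_AME : M_AME := by
  classical
  intro hM G hG E hE h0 hT K hK hPw
  obtain ⟨f, h1, h2⟩ := hPw
  set K' : Finset G := K.attach.image fun κ : {x : SL // x ∈ K} => (⟨κ.1, hK κ.1 κ.2⟩ : G)
    with hK'
  obtain ⟨F, H, hF, hFH, hc⟩ := hG K' 2
  have hFH' : ∀ k : G, (k : SL) ∈ K → ∀ g ∈ F, k * g ∈ H := by
    intro k hk g hg
    refine hFH k ?_ g hg
    rw [hK', Finset.mem_image]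
    exact ⟨⟨k.1, hk⟩, Finset.mem_attach _ _, rfl⟩
  have hle : ∫⁻ y, 2 * ∑ g ∈ F, (act (g : SL) ⁻¹' E).indicator (fun _ => (1 : ENNReal)) y ≤
      ∫⁻ y, ∑ h ∈ H, (act (h : SL) ⁻¹' E).indicator (fun _ => (1 : ENNReal)) y := by
    refine lintegral_mono fun y => ?_
    show 2 * ∑ g ∈ F, (act (g : SL) ⁻¹' E).indicator (fun _ => (1 : ENNReal)) y ≤
      ∑ h ∈ H, (act (h : SL) ⁻¹' E).indicator (fun _ => (1 : ENNReal)) y
    rw [AME.sum_ind, AME.sum_ind]
    exact_mod_cast AME.count hK h1 h2 hFH' y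
  rw [lintegral_const_mul' _ _ (by norm_num), AME.lint hM hE, AME.lint hM hE, ← mul_assoc] at hle
  have h3 : (2 * (F.card : ENNReal)) ≤ (H.card : ENNReal) := by
    exact (ENNReal.mul_le_mul_iff_left h0 hT).1 hle
  have h4 : 2 * F.card ≤ H.card := by exact_mod_cast h3
  have h5 : 0 < F.card := Finset.card_pos.2 hF
  omega

end SQD
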