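import Pool.Agent.SQD.StB

/-!
# SQD: extension of embeddings of countable domains to isomorphisms of algebraically closed fields
-/

set_option autoImplicit false

open Cardinal

namespace SQD

namespace AUT

theorem exists_equiv {R K L : Type} [CommRing R] [Field K] [Field L] [Algebra R K] [Algebra R L]
    [IsAlgClosed K] [IsAlgClosed L] {ι κ : Type} (v : ι → K) (w : κ → L) (e : ι ≃ κ)
    (hv : IsTranscendenceBasis R v) (hw : IsTranscendenceBasis R w) :
    ∃ σ : K ≃+* L, ∀ r, σ (algebraMap R K r) = algebraMap R L r := by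
  have := IsAlgClosed.isAlgClosure_of_transcendence_basis v hv
  have := IsAlgClosed.isAlgClosure_of_transcendence_basis w hw
  let f : Algebra.adjoin R (Set.range v) ≃ₐ[R] Algebra.adjoin R (Set.range w) :=
    (hv.1.aevalEquiv.symm.trans (MvPolynomial.renameEquiv R e)).trans hw.1.aevalEquiv
  refine ⟨IsAlgClosure.equivOfEquiv K L f.toRingEquiv, fun r => ?_⟩
  have h1 : algebraMap R K r = algebraMap (Algebra.adjoin R (Set.range v)) K
      (algebraMap R _ r) := rfl
  rw [h1, IsAlgClosure.equivOfEquiv_algebraMap]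
  have h2 : f.toRingEquiv (algebraMap R (Algebra.adjoin R (Set.range v)) r) =
      algebraMap R (Algebra.adjoin R (Set.range w)) r := f.commutes r
  rw [h2]
  rfl

end AUT

theorem t_AUT : S_AUT := by
  intro R L _ _ _ _ _ _ i j hi hj hL
  let : Algebra R ℂ := i.toAlgebra
  let : Algebra R L := j.toAlgebra
  have : FaithfulSMul R ℂ := (faithfulSMul_iff_algebraMap_injective R ℂ).2 hi
  have : FaithfulSMul R L := (faithfulSMul_iff_algebraMap_injective R L).2 hj
  obtain ⟨s, hs⟩ := exists_isTranscendenceBasis R ℂ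
  obtain ⟨t, ht⟩ := exists_isTranscendenceBasis R L
  have hC : #ℂ = 𝔠 := mk_complex
  have hR : #R ≤ ℵ₀ := mk_le_aleph0
  have h1 : #ℂ = #s := IsAlgClosed.cardinal_eq_cardinal_transcendence_basis_of_aleph0_lt' _ hs hR
    (by rw [hC]; exact aleph0_lt_continuum)
  have h2 : #L = #t := IsAlgClosed.cardinal_eq_cardinal_transcendence_basis_of_aleph0_lt' _ ht hR
    (by rw [hL]; exact aleph0_lt_continuum)
  have h3 : #s = #t := by rw [← h1, ← h2, hC, hL]
  obtain ⟨e⟩ := Cardinal.eq.1 h3
  exact AUT.exists_equiv _ _ e hs ht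

end SQD
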