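import Pool.Agent.SQD.StA

/-!
# SQD: the centralizer of a nonzero matrix of trace zero is commutative
-/

set_option autoImplicit false

namespace SQD

namespace CEN

/-- A matrix commuting with a nonzero matrix `Y` of trace zero is of the form `s 1 + t Y`. -/
lemma form (Y : M2) (hY : Y ≠ 0) (htr : Y.trace = 0) (g : M2) (hg : g * Y = Y * g) :
    ∃ s t : ℝ, g = s • (1 : M2) + t • Y := by
  have h11 : Y 1 1 = - Y 0 0 := by
    have := htr
    rw [Matrix.trace_fin_two] at this
    linarith
  have e00 := congrFun (congrFun hg 0) 0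
  have e01 := congrFun (congrFun hg 0) 1
  have e10 := congrFun (congrFun hg 1) 0
  simp only [Matrix.mul_apply, Fin.sum_univ_two] at e00 e01 e10
  rw [h11] at e01 e10
  have hr : g 0 1 * Y 1 0 = Y 0 1 * g 1 0 := by linarith
  have hq : Y 0 1 * (g 0 0 - g 1 1) = 2 * Y 0 0 * g 0 1 := by linarith
  have hc : Y 1 0 * (g 0 0 - g 1 1) = 2 * Y 0 0 * g 1 0 := by linarith
  have key : ∃ t : ℝ, g 0 0 - g 1 1 = t * (2 * Y 0 0) ∧ g 0 1 = t * Y 0 1 ∧ g 1 0 = t * Y 1 0 := by
    by_cases hp : Y 0 0 = 0
    · by_cases hq0 : Y 0 1 = 0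
      · have hr0 : Y 1 0 ≠ 0 := by
          intro h0
          apply hY
          ext i j
          fin_cases i <;> fin_cases j
          · simpa using hp
          · simpa using hq0
          · simpa using h0
          · simpa [hp] using h11
        refine ⟨g 1 0 / Y 1 0, ?_, ?_, ?_⟩
        · rw [hp] at hc ⊢
          have : Y 1 0 * (g 0 0 - g 1 1) = 0 := by linarith
          rcases mul_eq_zero.1 this with h | h
          · exact absurd h hr0
          · rw [h]; ring
        · rw [hq0] at hr ⊢
          have : g 0 1 * Y 1 0 = 0 := by linarith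
          rcases mul_eq_zero.1 this with h | h
          · rw [h]; ring
          · exact absurd h hr0
        · field_simp
      · refine ⟨g 0 1 / Y 0 1, ?_, ?_, ?_⟩
        · field_simp
          linarith
        · field_simp
        · field_simp
          linarith
    · refine ⟨(g 0 0 - g 1 1) / (2 * Y 0 0), ?_, ?_, ?_⟩
      · field_simp
      · field_simp
        linarith
      · field_simp
        linarith
  obtain ⟨t, h1, h2, h3⟩ := key
  refine ⟨g 0 0 - t * Y 0 0, t, ?_⟩
  ext i j
  fin_cases i <;> fin_cases j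
  · simp
  · simp [h2]
  · simp [h3]
  · simp only [Fin.mk_one, Fin.isValue, Matrix.add_apply, Matrix.smul_apply, Matrix.one_apply_eq,
      smul_eq_mul, mul_one, h11]
    linarith

end CEN

theorem t_CEN : S_CEN := by
  intro Y hY htr g h hg hh
  obtain ⟨s, t, rfl⟩ := CEN.form Y hY htr g hg
  obtain ⟨s', t', rfl⟩ := CEN.form Y hY htr h hh
  simp only [add_mul, mul_add, smul_mul_assoc, mul_smul_comm, one_mul, mul_one, smul_smul, smul_add]
  rw [mul_comm s' s, mul_comm s' t, mul_comm t' s, mul_comm t' t]
  abel

end SQD
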