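import Pool.Agent.SQD.StA

/-!
# SQD: the closure of a subgroup which is neither dense nor discrete (module CLS)
-/

set_option autoImplicit false

open MeasureTheory

namespace SQD

namespace CLS

/-- An element of `SL` as a unit of the ring of matrices. -/
def un (g : SL) : M2ˣ where
  val := (g : M2)
  inv := ((g⁻¹ : SL) : M2)
  val_inv := by
    rw [← Matrix.SpecialLinearGroup.coe_mul, mul_inv_cancel, Matrix.SpecialLinearGroup.coe_one]
  inv_val := by
    rw [← Matrix.SpecialLinearGroup.coe_mul, inv_mul_cancel, Matrix.SpecialLinearGroup.coe_one]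

lemma exp_conj (g : SL) (X : M2) (t : ℝ) :
    NormedSpace.exp (t • ((g : M2) * X * ((g⁻¹ : SL) : M2))) =
      (g : M2) * NormedSpace.exp (t • X) * ((g⁻¹ : SL) : M2) := by
  have h := Matrix.exp_units_conj (un g) (t • X)
  have h1 : ((un g : M2ˣ) : M2) = (g : M2) := rfl
  have h2 : (((un g)⁻¹ : M2ˣ) : M2) = ((g⁻¹ : SL) : M2) := rfl
  rw [h1, h2] at h
  rw [← h]
  congr 1
  rw [Matrix.mul_smul, Matrix.smul_mul]

lemma trace_conj (g : SL) (X : M2) :
    ((g : M2) * X * ((g⁻¹ : SL) : M2)).trace = X.trace := by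
  rw [Matrix.trace_mul_comm, ← Matrix.mul_assoc, ← Matrix.SpecialLinearGroup.coe_mul,
    inv_mul_cancel, Matrix.SpecialLinearGroup.coe_one, Matrix.one_mul]

end CLS

theorem t_CLS : M_CLS := by
  intro hOPS hGEN hLIN G hnd hndis
  have hle : G ≤ G.topologicalClosure := G.le_topologicalClosure
  have hnd' : ¬ Discr G.topologicalClosure := by
    rintro ⟨U, hU, h1, h2⟩
    exact hndis ⟨U, hU, h1, fun g hg hgU => h2 g (hle hg) hgU⟩
  obtain ⟨X, hX0, hXt, hX⟩ := hOPS G.topologicalClosure G.isClosed_topologicalClosure hnd'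
  rcases hLIN G X hX0 hXt with ⟨g, hg, hli⟩ | h
  · exfalso
    apply hnd
    have htop := hGEN G.topologicalClosure (fun i => (g i : M2) * X * ((g i)⁻¹ : SL)) hli
      (fun i => by rw [CLS.trace_conj, hXt]) (fun i t => by
        obtain ⟨h, hh, he⟩ := hX t
        refine ⟨g i * h * (g i)⁻¹, mul_mem (mul_mem (hle (hg i)) hh) (inv_mem (hle (hg i))), ?_⟩
        rw [CLS.exp_conj, Matrix.SpecialLinearGroup.coe_mul, Matrix.SpecialLinearGroup.coe_mul, he])
    rw [dense_iff_closure_eq, ← Subgroup.topologicalClosure_coe, htop, Subgroup.coe_top]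
  · exact h

end SQD
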