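import Pool.Agent.SQD.StA

/-!
# SQD, module CNT: a discrete subgroup is countable
-/

set_option autoImplicit false

namespace SQD

theorem t_CNT : S_CNT := by
  rintro G ⟨U, hU, h1, hG⟩
  have hm : SecondCountableTopology (Matrix (Fin 2) (Fin 2) ℝ) :=
    inferInstanceAs (SecondCountableTopology (Fin 2 → Fin 2 → ℝ))
  have hsc : SecondCountableTopology SL :=
    TopologicalSpace.Subtype.secondCountableTopology _
  have hopen : IsOpen ({1} : Set G) := by
    have h : ({1} : Set G) = (Subtype.val : G → SL) ⁻¹' U := by
      ext g
      constructor
      · intro hg
        rw [Set.mem_singleton_iff] at hg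
        subst hg
        exact h1
      · intro hg
        rw [Set.mem_singleton_iff]
        exact Subtype.ext (hG g.1 g.2 hg)
    rw [h]
    exact hU.preimage continuous_subtype_val
  have hd : DiscreteTopology G := discreteTopology_of_isOpen_singleton_one hopen
  have hs : SecondCountableTopology G := TopologicalSpace.Subtype.secondCountableTopology _
  exact TopologicalSpace.separableSpace_iff_countable.1 inferInstance

end SQD
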