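import Pool.Agent.SQD.StB

/-!
# SQD, module COV: covering compact sets by finitely many moves
-/

set_option autoImplicit false

open MeasureTheory

namespace SQD

namespace COV

/-- For `x ≠ 0` there is a matrix of determinant one with first column `x`. -/
lemma exists_col {x : V} (hx : x ≠ 0) : ∃ g : SL, act g ![1, 0] = x := by
  have hn : x 0 * x 0 + x 1 * x 1 ≠ 0 := by
    intro h
    apply hx
    have h0 : x 0 = 0 := by nlinarith [mul_self_nonneg (x 0), mul_self_nonneg (x 1)]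
    have h1 : x 1 = 0 := by nlinarith [mul_self_nonneg (x 0), mul_self_nonneg (x 1)]
    ext i
    fin_cases i
    · exact h0
    · exact h1
  have hdet : (!![x 0, -(x 1 / (x 0 * x 0 + x 1 * x 1)); x 1,
      x 0 / (x 0 * x 0 + x 1 * x 1)] : M2).det = 1 := by
    rw [Matrix.det_fin_two_of]
    have h1 : x 0 * (x 0 / (x 0 * x 0 + x 1 * x 1)) -
        -(x 1 / (x 0 * x 0 + x 1 * x 1)) * x 1 =
        (x 0 * x 0 + x 1 * x 1) / (x 0 * x 0 + x 1 * x 1) := by ring
    rw [h1, div_self hn]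
  let g : SL := ⟨_, hdet⟩
  have h00 : (g : M2) 0 0 = x 0 := rfl
  have h10 : (g : M2) 1 0 = x 1 := rfl
  refine ⟨g, ?_⟩
  have e0 : act g ![1, 0] 0 = x 0 := by
    rw [act_apply_zero, h00]
    simp
  have e1 : act g ![1, 0] 1 = x 1 := by
    rw [act_apply_one, h10]
    simp
  ext i
  fin_cases i
  · exact e0
  · exact e1

/-- The group acts transitively on the nonzero vectors. -/
lemma exists_act {x y : V} (hx : x ≠ 0) (hy : y ≠ 0) : ∃ g : SL, act g x = y := by
  obtain ⟨g, hg⟩ := exists_col hx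
  obtain ⟨h, hh⟩ := exists_col hy
  refine ⟨h * g⁻¹, ?_⟩
  rw [act_mul, ← hg, act_inv_act, hh]

lemma continuous_left (x : V) : Continuous fun g : SL => act g x :=
  continuous_act.comp (continuous_id.prodMk continuous_const)

lemma continuous_right (g : SL) : Continuous fun x : V => act g x :=
  continuous_act.comp (continuous_const.prodMk continuous_id)

lemma exists_mem {G : Subgroup SL} (hG : Dense (G : Set SL)) {D : Set V} (hD : IsOpen D)
    {x y : V} (hx : x ≠ 0) (hy : y ≠ 0) (hyD : y ∈ D) : ∃ g ∈ G, act g x ∈ D := by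
  obtain ⟨g₀, hg₀⟩ := exists_act hx hy
  have ho : IsOpen {g : SL | act g x ∈ D} := hD.preimage (continuous_left x)
  obtain ⟨g, h1, h2⟩ := hG.exists_mem_open ho ⟨g₀, by change act g₀ x ∈ D; rw [hg₀]; exact hyD⟩
  exact ⟨g, h1, h2⟩

lemma exists_ne {D : Set V} (hD : IsOpen D) (hne : D.Nonempty) : ∃ y ∈ D, y ≠ 0 := by
  obtain ⟨y, h1, h2⟩ := (dense_compl_singleton (0 : V)).inter_open_nonempty D hD hne
  exact ⟨y, h1, h2⟩

lemma cover {G : Subgroup SL} (hG : Dense (G : Set SL)) (C D : Set V) (hC : IsCompact C)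
    (h0 : (0 : V) ∉ C) (hD : IsOpen D) (hne : D.Nonempty) : ∃ T : Finset SL,
    (∀ g ∈ T, g ∈ G) ∧ ∀ x ∈ C, ∃ g ∈ T, act g x ∈ D := by
  obtain ⟨y, hyD, hy⟩ := exists_ne hD hne
  obtain ⟨t, ht⟩ := hC.elim_finite_subcover (fun g : G => {x : V | act (g : SL) x ∈ D})
    (fun g => hD.preimage (continuous_right (g : SL))) (by
      intro x hx
      have hx0 : x ≠ 0 := fun h => h0 (h ▸ hx)
      obtain ⟨g, hg, hgx⟩ := exists_mem hG hD hx0 hy hyD
      exact Set.mem_iUnion.mpr ⟨⟨g, hg⟩, hgx⟩)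
  refine ⟨t.map (Function.Embedding.subtype _), ?_, ?_⟩
  · intro g hg
    obtain ⟨g', -, rfl⟩ := Finset.mem_map.mp hg
    exact g'.2
  · intro x hx
    obtain ⟨g, hg, hgx⟩ := Set.mem_iUnion₂.mp (ht hx)
    exact ⟨g, Finset.mem_map.mpr ⟨g, hg, rfl⟩, hgx⟩

end COV

theorem t_COV : S_COV := by
  intro G hG
  refine ⟨fun C D hC h0 hD hne => COV.cover hG C D hC h0 hD hne, ?_⟩
  intro C R r hC hne hcone hR hr
  have hR1 : 0 < R + 1 := by linarith
  have hq : 0 < r / (R + 1) := div_pos hr hR1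
  obtain ⟨T, hT, hcov⟩ := COV.cover hG (Metric.sphere (0 : V) 1)
    (C ∩ Metric.ball (0 : V) (r / (R + 1))) (isCompact_sphere 0 1)
    (by simp) (hC.inter Metric.isOpen_ball) (by
      obtain ⟨c, hc⟩ := hne
      have hc1 : 0 < ‖c‖ + 1 := by positivity
      refine ⟨(r / (R + 1) / (‖c‖ + 1)) • c, hcone c hc _ (by positivity), ?_⟩
      rw [mem_ball_zero_iff, norm_smul, Real.norm_of_nonneg (by positivity), div_mul_eq_mul_div,
        div_lt_iff₀ hc1]
      nlinarith [norm_nonneg c])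
  refine ⟨T, hT, ?_⟩
  intro x hx hxR
  have hx0 : 0 < ‖x‖ := norm_pos_iff.mpr hx
  obtain ⟨g, hg, h1, h2⟩ := hcov (‖x‖⁻¹ • x) (by
    rw [mem_sphere_zero_iff_norm, norm_smul, norm_inv, norm_norm, inv_mul_cancel₀ hx0.ne'])
  have h3 : act g x = ‖x‖ • act g (‖x‖⁻¹ • x) := by
    rw [← act_smul, smul_smul, mul_inv_cancel₀ hx0.ne', one_smul]
  refine ⟨g, hg, ?_, ?_⟩
  · rw [h3]
    exact hcone _ h1 _ hx0
  · rw [mem_ball_zero_iff] at h2
    rw [h3, norm_smul, norm_norm]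
    calc ‖x‖ * ‖act g (‖x‖⁻¹ • x)‖ ≤ R * (r / (R + 1)) := by
          apply mul_le_mul hxR h2.le (norm_nonneg _) hR.le
      _ < r := by
          rw [mul_div_assoc', div_lt_iff₀ hR1]
          nlinarith

end SQD
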