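import Pool.Agent.SQD.StA

/-!
# SQD, module DIS: discrete groups
-/

set_option autoImplicit false

open MeasureTheory Filter Topology

namespace SQD

namespace DIS

/-- the number of `g` with `g p ∈ S` -/
noncomputable def cnt (G : Subgroup SL) (S : Set (V × V)) (p : V × V) : ENNReal :=
  ∑' g : G, S.indicator (fun _ => (1 : ENNReal)) (act2 g p)

lemma cnt_mono (G : Subgroup SL) {S S' : Set (V × V)} (h : S ⊆ S') (p : V × V) :
    cnt G S p ≤ cnt G S' p :=
  ENNReal.tsum_le_tsum fun _ => Set.indicator_le_indicator_of_subset h (fun _ => zero_le) _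

lemma measurable_act2 (g : SL) : Measurable (act2 g) := by
  have h : Continuous fun v : V => act g v := continuous_act.comp (Continuous.prodMk_right g)
  exact ((h.comp continuous_fst).prodMk (h.comp continuous_snd)).measurable

lemma cnt_measurable (G : Subgroup SL) [Countable G] {S : Set (V × V)} (h : MeasurableSet S) :
    Measurable (cnt G S) := by
  unfold cnt
  exact Measurable.ennreal_tsum fun g => (measurable_const.indicator h).comp (measurable_act2 g)

lemma isOpen_Yp : IsOpen Yp := by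
  have h : Continuous dt := by
    unfold dt
    fun_prop
  exact (isOpen_lt continuous_const h).inter (isOpen_lt h continuous_const)

lemma act2_mul (g h : SL) (p : V × V) : act2 (g * h) p = act2 g (act2 h p) := by
  unfold act2
  rw [act_mul, act_mul]

/-- the injection -/
lemma count {G : Subgroup SL} {E : Set V} {K : Finset SL} (hK : ∀ κ ∈ K, κ ∈ G)
    (f : Fin 2 → V → V) (kap : Fin 2 → V → SL) (hf : ∀ i, ∀ x ∈ E, f i x ∈ E)
    (hk : ∀ i, ∀ x ∈ E, kap i x ∈ K ∧ f i x = act (kap i x) x)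
    (hinj : ∀ i j, ∀ x ∈ E, ∀ y ∈ E, f i x = f j y → i = j ∧ x = y)
    (S0 S1 S2 : Set (V × V)) (hS0 : ∀ q ∈ S0, q.1 ∈ E)
    (h12 : ∀ q ∈ S0, q ∉ S2 → ∀ κ ∈ K, act κ q.1 ∈ E → act2 κ q ∈ S1) (p : V × V) :
    2 * cnt G S0 p ≤ cnt G S1 p + K.card * cnt G S2 p := by
  classical
  let A : Set (G × Fin 2) := {x | act2 x.1 p ∈ S0}
  let w : G ⊕ ({κ // κ ∈ K} × G) → ENNReal := Sum.elim
    (fun g => S1.indicator (fun _ => (1 : ENNReal)) (act2 g p))
    (fun x => S2.indicator (fun _ => (1 : ENNReal)) (act2 x.2 p))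
  have hmem : ∀ x : A, act x.1.1 p.1 ∈ E := fun x => hS0 _ x.2
  have hkK : ∀ x : A, kap x.1.2 (act x.1.1 p.1) ∈ K := fun x => (hk _ _ (hmem x)).1
  let φ : A → G ⊕ ({κ // κ ∈ K} × G) := fun x =>
    if act2 (kap x.1.2 (act x.1.1 p.1) * x.1.1) p ∈ S1 then
      Sum.inl (⟨kap x.1.2 (act x.1.1 p.1), hK _ (hkK x)⟩ * x.1.1)
    else Sum.inr (⟨kap x.1.2 (act x.1.1 p.1), hkK x⟩, x.1.1)
  have hφ : Function.Injective φ := by
    rintro x y hxy
    by_cases hx : act2 (kap x.1.2 (act x.1.1 p.1) * x.1.1) p ∈ S1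
    · by_cases hy : act2 (kap y.1.2 (act y.1.1 p.1) * y.1.1) p ∈ S1
      · simp only [φ, hx, hy, if_true] at hxy
        have h1 := congrArg (fun g : G => (g : SL)) (Sum.inl_injective hxy)
        simp only [Subgroup.coe_mul] at h1
        have h2 : f x.1.2 (act x.1.1 p.1) = f y.1.2 (act y.1.1 p.1) := by
          rw [(hk _ _ (hmem x)).2, (hk _ _ (hmem y)).2, ← act_mul, ← act_mul, h1]
        obtain ⟨h3, h4⟩ := hinj _ _ _ (hmem x) _ (hmem y) h2
        rw [h3, h4] at h1
        have h5 : x.1.1 = y.1.1 := Subtype.ext (mul_left_cancel h1)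
        exact Subtype.ext (Prod.ext h5 h3)
      · simp only [φ, hx, hy, if_true, if_false] at hxy
        exact absurd hxy (by simp)
    · by_cases hy : act2 (kap y.1.2 (act y.1.1 p.1) * y.1.1) p ∈ S1
      · simp only [φ, hx, hy, if_true, if_false] at hxy
        exact absurd hxy (by simp)
      · simp only [φ, hx, hy, if_false] at hxy
        have h1 := Sum.inr_injective hxy
        have h2 : x.1.1 = y.1.1 := congrArg Prod.snd h1
        have h3 : kap x.1.2 (act x.1.1 p.1) = kap y.1.2 (act y.1.1 p.1) :=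
          congrArg (fun z => (z.1 : SL)) h1
        have h4 : f x.1.2 (act x.1.1 p.1) = f y.1.2 (act y.1.1 p.1) := by
          rw [(hk _ _ (hmem x)).2, (hk _ _ (hmem y)).2, h3, h2]
        obtain ⟨h5, -⟩ := hinj _ _ _ (hmem x) _ (hmem y) h4
        exact Subtype.ext (Prod.ext h2 h5)
  have hw : ∀ x : A, w (φ x) = 1 := by
    intro x
    by_cases hx : act2 (kap x.1.2 (act x.1.1 p.1) * x.1.1) p ∈ S1
    · simp only [φ, hx, if_true, w, Sum.elim_inl]
      exact Set.indicator_of_mem (s := S1) hx _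
    · simp only [φ, hx, if_false, w, Sum.elim_inr]
      apply Set.indicator_of_mem
      by_contra h
      apply hx
      rw [act2_mul]
      refine h12 _ x.2 h _ (hkK x) ?_
      change act _ (act x.1.1 p.1) ∈ E
      rw [← (hk _ _ (hmem x)).2]
      exact hf _ _ (hmem x)
  have e1 : 2 * cnt G S0 p = ∑' x : A, w (φ x) := by
    simp_rw [hw]
    rw [tsum_subtype A fun _ => (1 : ENNReal), ENNReal.tsum_prod']
    unfold cnt
    rw [← ENNReal.tsum_mul_left]
    apply tsum_congr
    intro g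
    rw [tsum_fintype, Fin.sum_univ_two]
    have h : ∀ i, A.indicator (fun _ => (1 : ENNReal)) (g, i) =
        S0.indicator (fun _ => (1 : ENNReal)) (act2 g p) := by
      intro i
      by_cases hg : act2 g p ∈ S0
      · rw [Set.indicator_of_mem hg, Set.indicator_of_mem (s := A) hg]
      · rw [Set.indicator_of_notMem hg, Set.indicator_of_notMem (s := A) hg]
    rw [h, h, two_mul]
  have e2 : ∑' y, w y = cnt G S1 p + K.card * cnt G S2 p := by
    rw [ENNReal.summable.tsum_sum ENNReal.summable]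
    · congr 1
      change ∑' x : {κ // κ ∈ K} × G, S2.indicator (fun _ => (1 : ENNReal)) (act2 x.2 p) = _
      rw [ENNReal.tsum_prod', tsum_fintype]
      simp [cnt]
  rw [e1, ← e2]
  exact ENNReal.tsum_comp_le_tsum_of_injective hφ w

lemma nsq_pos {y : V} (h : y ≠ 0) : 0 < nsq y := by
  have h1 : y 0 ≠ 0 ∨ y 1 ≠ 0 := by
    by_contra h2
    push Not at h2
    apply h
    ext i
    fin_cases i
    · exact h2.1
    · exact h2.2
  unfold nsq
  rcases h1 with h1 | h1
  · have := mul_self_pos.mpr h1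
    have := mul_self_nonneg (y 1)
    linarith
  · have := mul_self_pos.mpr h1
    have := mul_self_nonneg (y 0)
    linarith

lemma ne_zero_of_mem {p : V × V} (h : p ∈ Yp) : p.1 ≠ 0 := by
  intro h0
  have h1 : 1 < dt p := h.1
  unfold dt at h1
  rw [h0] at h1
  simp at h1
  linarith

/-- a small neighbourhood of the origin -/
lemma small {E : Set V} (hE : NullMeasurableSet E volume) (h0 : volume E ≠ 0) (ht : volume E ≠ ⊤)
    (c : ℕ) : ∃ r : ℝ, 0 < r ∧ (c : ENNReal) * volume (E ∩ {y | nsq y < r}) ≤ volume E / 2 ∧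
      NullMeasurableSet (E ∩ {y | nsq y < r}) volume := by
  have hm : ∀ r : ℝ, MeasurableSet {y : V | nsq y < r} := by
    intro r
    have h : Continuous nsq := by
      unfold nsq
      fun_prop
    exact (isOpen_lt h continuous_const).measurableSet
  have hn : ∀ r : ℝ, NullMeasurableSet (E ∩ {y | nsq y < r}) volume := fun r =>
    hE.inter (hm r).nullMeasurableSet
  have hanti : Antitone fun n : ℕ => E ∩ {y : V | nsq y < 1 / ((n : ℝ) + 1)} := by
    intro m n hmn x hx
    have hx2 : nsq x < 1 / ((n : ℝ) + 1) := hx.2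
    refine ⟨hx.1, ?_⟩
    change nsq x < 1 / ((m : ℝ) + 1)
    refine lt_of_lt_of_le hx2 ?_
    exact one_div_le_one_div_of_le (by positivity) (by
      have : (m : ℝ) ≤ n := by exact_mod_cast hmn
      linarith)
  have hlim := tendsto_measure_iInter_atTop (μ := (volume : Measure V)) (fun n => hn _) hanti
    ⟨0, ne_top_of_le_ne_top ht (measure_mono Set.inter_subset_left)⟩
  have hz : volume (⋂ n : ℕ, E ∩ {y : V | nsq y < 1 / ((n : ℝ) + 1)}) = 0 := by
    refine measure_mono_null (t := {0}) ?_ (measure_singleton _)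
    intro y hy
    rw [Set.mem_iInter] at hy
    rw [Set.mem_singleton_iff]
    by_contra h
    obtain ⟨n, hn⟩ := exists_nat_one_div_lt (nsq_pos h)
    exact absurd (hy n).2 (not_lt.mpr hn.le)
  rw [hz] at hlim
  have h2 := ENNReal.Tendsto.const_mul (a := (c : ENNReal)) hlim (Or.inr (ENNReal.natCast_ne_top c))
  rw [mul_zero] at h2
  have h3 : (0 : ENNReal) < volume E / 2 := ENNReal.half_pos h0
  obtain ⟨n, hn'⟩ := (h2.eventually_lt_const h3).exists
  exact ⟨1 / ((n : ℝ) + 1), by positivity, hn'.le, hn _⟩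

end DIS

open DIS

theorem t_DIS : M_DIS := by
  intro hCNT hFD2 hVOL hDSP G hG E hE h0 ht K hK hPw
  have hc : Countable G := hCNT G hG
  obtain ⟨D, hD, hfold⟩ := hFD2 G hG
  obtain ⟨f, hf, hinj⟩ := hPw
  choose! kap hk using fun i x hx => (hf i x hx).2
  choose Cf hCf0 hCf using hDSP
  have hCle : ∀ κ ∈ K, Cf κ ≤ ∑ κ ∈ K, Cf κ := fun κ h =>
    Finset.single_le_sum (f := Cf) (fun i _ => hCf0 i) h
  generalize ∑ κ ∈ K, Cf κ = C0 at hCle
  obtain ⟨C, hC0, hC⟩ : ∃ C : ℝ, 0 ≤ C ∧ ∀ κ ∈ K, Cf κ ≤ C :=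
    ⟨max C0 0, le_max_right _ _, fun κ h => (hCle κ h).trans (le_max_left _ _)⟩
  obtain ⟨r, hr, hsmall, hEr⟩ := small hE h0 ht K.card
  obtain ⟨R, hR⟩ : ∃ R : ℝ, R = C / r := ⟨_, rfl⟩
  have hR0 : 0 ≤ R := hR ▸ div_nonneg hC0 hr.le
  obtain ⟨T, hT⟩ : ∃ T : ℝ, T = 4 * R + 1 := ⟨_, rfl⟩
  have hT0 : 0 < T := by linarith
  obtain ⟨-, hv0⟩ := hVOL E 0 T hE hT0.le
  obtain ⟨-, hv1⟩ := hVOL E (-R) (T + R) hE (by linarith)
  obtain ⟨-, hv2⟩ := hVOL (E ∩ {y | nsq y < r}) 0 T hEr hT0.le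
  obtain ⟨S1, hS1⟩ : ∃ S : Set (V × V), S = toMeasurable volume (ET E (-R) (T + R)) ∩ Yp :=
    ⟨_, rfl⟩
  obtain ⟨S2, hS2⟩ : ∃ S : Set (V × V), S =
    toMeasurable volume (ET (E ∩ {y | nsq y < r}) 0 T) ∩ Yp := ⟨_, rfl⟩
  have hYp : MeasurableSet Yp := isOpen_Yp.measurableSet
  have hsub : ∀ (A : Set V) (s t : ℝ), ET A s t ⊆ toMeasurable volume (ET A s t) ∩ Yp :=
    fun A s t q hq => ⟨subset_toMeasurable _ _ hq, hq.1⟩
  have hvol : ∀ (A : Set V) (s t : ℝ),
      volume (toMeasurable volume (ET A s t) ∩ Yp) = volume (ET A s t) := by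
    intro A s t
    apply le_antisymm
    · exact (measure_mono Set.inter_subset_left).trans (measure_toMeasurable _).le
    · exact measure_mono (hsub A s t)
  have hmS1 : MeasurableSet S1 := hS1 ▸ (measurableSet_toMeasurable _ _).inter hYp
  have hmS2 : MeasurableSet S2 := hS2 ▸ (measurableSet_toMeasurable _ _).inter hYp
  have key : ∀ p, 2 * cnt G (ET E 0 T) p ≤ cnt G S1 p + K.card * cnt G S2 p := by
    intro p
    refine count hK f kap (fun i x hx => (hf i x hx).1) hk hinj _ _ _ (fun q hq => hq.2.1) ?_ p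
    intro q hq hq2 κ hκ hκE
    have h1 : r ≤ nsq q.1 := by
      by_contra h
      push Not at h
      apply hq2
      rw [hS2]
      exact hsub _ _ _ ⟨hq.1, ⟨hq.2.1, h⟩, hq.2.2⟩
    obtain ⟨h2, h3⟩ := hCf κ q hq.1
    have h4 : |tm (act2 κ q) - tm q| ≤ R := by
      rw [hR, le_div_iff₀ hr]
      exact (mul_le_mul_of_nonneg_left h1 (abs_nonneg _)).trans (h3.trans (hC κ hκ))
    rw [hS1]
    apply hsub
    rw [abs_le] at h4
    exact ⟨h2, hκE, by linarith [hq.2.2.1], by linarith [hq.2.2.2]⟩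
  have hint : 2 * volume (ET E 0 T) ≤ volume S1 + K.card * volume S2 := by
    have e0 : volume (ET E 0 T) = ∫⁻ p in D, cnt G (ET E 0 T) p :=
      hfold _ (hVOL E 0 T hE hT0.le).1 fun q hq => hq.1
    have e1 : volume S1 = ∫⁻ p in D, cnt G S1 p :=
      hfold _ hmS1.nullMeasurableSet (by
        rw [hS1]
        exact Set.inter_subset_right)
    have e2 : volume S2 = ∫⁻ p in D, cnt G S2 p :=
      hfold _ hmS2.nullMeasurableSet (by
        rw [hS2]
        exact Set.inter_subset_right)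
    rw [e0, e1, e2, ← lintegral_const_mul' _ _ (by norm_num),
      ← lintegral_const_mul' _ _ (ENNReal.natCast_ne_top _),
      ← lintegral_add_left (cnt_measurable G hmS1)]
    exact lintegral_mono key
  rw [hS1, hS2, hvol, hvol, hv0, hv1, hv2] at hint
  have h5 : (K.card : ENNReal) * (volume (E ∩ {y | nsq y < r}) * ENNReal.ofReal (T - 0)) ≤
      volume E / 2 * ENNReal.ofReal (T - 0) := by
    rw [← mul_assoc]
    exact mul_le_mul_left hsmall _
  have h6 := hint.trans (add_le_add_right h5 _)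
  obtain ⟨v, hv⟩ : ∃ v : ℝ, v = (volume E).toReal := ⟨_, rfl⟩
  have hvE : volume E = ENNReal.ofReal v := by
    rw [hv, ENNReal.ofReal_toReal ht]
  have hvpos : 0 < v := by
    rw [hv]
    exact ENNReal.toReal_pos h0 ht
  rw [hvE] at h6
  have h7 : (ENNReal.ofReal v) / 2 = ENNReal.ofReal (v / 2) := by
    rw [ENNReal.ofReal_div_of_pos two_pos]
    norm_num
  have h8 : (2 : ENNReal) = ENNReal.ofReal 2 := by norm_num
  rw [h7] at h6
  rw [h8, ← ENNReal.ofReal_mul hvpos.le, ← ENNReal.ofReal_mul two_pos.le,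
    ← ENNReal.ofReal_mul hvpos.le, ← ENNReal.ofReal_mul (by linarith : (0 : ℝ) ≤ v / 2),
    ← ENNReal.ofReal_add (mul_nonneg hvpos.le (by linarith))
      (mul_nonneg (by linarith) (by linarith)),
    ENNReal.ofReal_le_ofReal_iff (by
      have h9 : 0 ≤ v * (T + R - -R) := mul_nonneg hvpos.le (by linarith)
      have h10 : 0 ≤ v / 2 * (T - 0) := mul_nonneg (by linarith) (by linarith)
      linarith)] at h6
  nlinarith

end SQD
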