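import Pool.Agent.SQD.StA

/-!
# SQD, module DSP: the displacement of the time coordinate
-/

set_option autoImplicit false

namespace SQD

namespace DSP

/-- The determinant of a pair is invariant. -/
lemma dt_act2 (g : SL) (p : V × V) : dt (act2 g p) = dt p := by
  have h := det_eq g
  unfold dt act2
  simp only [act_apply_zero, act_apply_one]
  linear_combination (p.1 0 * p.2 1 - p.1 1 * p.2 0) * h

/-- The first vector of a pair with positive determinant is not zero. -/
lemma nsq_pos {p : V × V} (h : 0 < dt p) : 0 < nsq p.1 := by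
  have h0 : 0 ≤ nsq p.1 := by
    unfold nsq
    nlinarith [mul_self_nonneg (p.1 0), mul_self_nonneg (p.1 1)]
  rcases h0.lt_or_eq with h1 | h1
  · exact h1
  · exfalso
    unfold nsq at h1
    have h2 : p.1 0 = 0 := by nlinarith [mul_self_nonneg (p.1 0), mul_self_nonneg (p.1 1)]
    have h3 : p.1 1 = 0 := by nlinarith [mul_self_nonneg (p.1 0), mul_self_nonneg (p.1 1)]
    unfold dt at h
    rw [h2, h3] at h
    simp at h

/-- The inequality for real numbers. -/
lemma key (a b c e y0 y1 z0 z1 : ℝ) (hdet : a * e - b * c = 1)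
    (hd1 : 1 < y0 * z1 - y1 * z0) (hd2 : y0 * z1 - y1 * z0 < 2)
    (hy : 0 < y0 * y0 + y1 * y1)
    (hu : 0 < (a * y0 + b * y1) * (a * y0 + b * y1) + (c * y0 + e * y1) * (c * y0 + e * y1)) :
    |((a * z0 + b * z1) * (a * y0 + b * y1) + (c * z0 + e * z1) * (c * y0 + e * y1)) /
        ((a * y0 + b * y1) * (a * y0 + b * y1) + (c * y0 + e * y1) * (c * y0 + e * y1)) -
      (z0 * y0 + z1 * y1) / (y0 * y0 + y1 * y1)| * (y0 * y0 + y1 * y1) ≤
      (a * a + b * b + c * c + e * e) ^ 2 + 1 := by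
  set u0 := a * y0 + b * y1 with hu0
  set u1 := c * y0 + e * y1 with hu1
  set j0 := b * y0 - a * y1 with hj0
  set j1 := e * y0 - c * y1 with hj1
  set ny := y0 * y0 + y1 * y1 with hny
  set nu := u0 * u0 + u1 * u1 with hnu
  set N := a * a + b * b + c * c + e * e with hN
  set d := y0 * z1 - y1 * z0 with hd
  -- the displacement
  have e1 : ((a * z0 + b * z1) * u0 + (c * z0 + e * z1) * u1) / nu - (z0 * y0 + z1 * y1) / ny =
      d * (j0 * u0 + j1 * u1) / (nu * ny) := by
    rw [div_sub_div _ _ hu.ne' hy.ne']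
    congr 1
    rw [hnu, hny, hj0, hj1, hd, hu0, hu1]
    ring
  have e2 : |d * (j0 * u0 + j1 * u1) / (nu * ny)| * ny = d * |j0 * u0 + j1 * u1| / nu := by
    rw [abs_div, abs_mul, abs_of_pos (show 0 < d by linarith), abs_of_pos (mul_pos hu hy)]
    field_simp
  rw [e1, e2, div_le_iff₀ hu]
  -- the norms
  have f1 : j0 * j0 + j1 * j1 ≤ N * ny := by
    have : N * ny - (j0 * j0 + j1 * j1) =
        (a * y0 + b * y1) * (a * y0 + b * y1) + (c * y0 + e * y1) * (c * y0 + e * y1) := by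
      rw [hN, hny, hj0, hj1]
      ring
    nlinarith [mul_self_nonneg (a * y0 + b * y1), mul_self_nonneg (c * y0 + e * y1)]
  have f2 : ny ≤ N * nu := by
    have g0 : e * u0 - b * u1 = y0 := by
      rw [hu0, hu1]
      linear_combination y0 * hdet
    have g1 : a * u1 - c * u0 = y1 := by
      rw [hu0, hu1]
      linear_combination y1 * hdet
    have : N * nu - ny = (e * u1 + b * u0) * (e * u1 + b * u0) +
        (a * u0 + c * u1) * (a * u0 + c * u1) := by
      rw [hN, hnu, hny, ← g0, ← g1]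
      ring
    nlinarith [mul_self_nonneg (e * u1 + b * u0), mul_self_nonneg (a * u0 + c * u1)]
  have f3 : |j0 * u0 + j1 * u1| * 2 ≤ (j0 * j0 + j1 * j1) + nu := by
    rcases abs_cases (j0 * u0 + j1 * u1) with ⟨h, -⟩ | ⟨h, -⟩
    · rw [h, hnu]
      nlinarith [mul_self_nonneg (j0 - u0), mul_self_nonneg (j1 - u1)]
    · rw [h, hnu]
      nlinarith [mul_self_nonneg (j0 + u0), mul_self_nonneg (j1 + u1)]
  have hN0 : 0 ≤ N := by
    rw [hN]
    nlinarith [mul_self_nonneg a, mul_self_nonneg b, mul_self_nonneg c, mul_self_nonneg e]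
  have f4 : N * ny ≤ N * (N * nu) := mul_le_mul_of_nonneg_left f2 hN0
  have f5 : d * |j0 * u0 + j1 * u1| ≤ 2 * |j0 * u0 + j1 * u1| :=
    mul_le_mul_of_nonneg_right hd2.le (abs_nonneg _)
  nlinarith

end DSP

theorem t_DSP : S_DSP := by
  intro g
  refine ⟨((g : M2) 0 0 * (g : M2) 0 0 + (g : M2) 0 1 * (g : M2) 0 1 +
    (g : M2) 1 0 * (g : M2) 1 0 + (g : M2) 1 1 * (g : M2) 1 1) ^ 2 + 1, by positivity, ?_⟩
  intro p hp
  have h1 : 1 < dt p := hp.1
  have h2 : dt p < 2 := hp.2
  have hd : dt (act2 g p) = dt p := DSP.dt_act2 g p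
  refine ⟨⟨by rw [hd]; exact h1, by rw [hd]; exact h2⟩, ?_⟩
  have hy : 0 < nsq p.1 := DSP.nsq_pos (by linarith)
  have hu : 0 < nsq (act2 g p).1 := DSP.nsq_pos (by rw [hd]; linarith)
  have h3 := DSP.key ((g : M2) 0 0) ((g : M2) 0 1) ((g : M2) 1 0) ((g : M2) 1 1)
    (p.1 0) (p.1 1) (p.2 0) (p.2 1) (det_eq g) h1 h2 hy (by
      unfold nsq act2 at hu
      simp only [act_apply_zero, act_apply_one] at hu
      exact hu)
  unfold tm nsq act2
  simp only [act_apply_zero, act_apply_one]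
  exact h3

end SQD
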