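import Pool.Agent.SQD.StB

/-!
# SQD, EIG: eigenvectors of an elliptic matrix
-/

set_option autoImplicit false

namespace SQD

namespace EIG

lemma cm_one : cm 1 = 1 := by
  ext i j
  by_cases h : i = j
  · subst h; simp [cm]
  · simp [cm, Matrix.one_apply_ne h]

lemma cm_pow (w : SL) (n : ℕ) : cm (w ^ n) = cm w ^ n := by
  induction n with
  | zero => simp [cm_one]
  | succ n ih => rw [pow_succ, pow_succ, cm_mul, ih]

lemma pow_mulVec (A : Matrix (Fin 2) (Fin 2) ℂ) (e : Fin 2 → ℂ) (c : ℂ)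
    (h : A.mulVec e = c • e) (n : ℕ) : (A ^ n).mulVec e = c ^ n • e := by
  induction n with
  | zero => simp
  | succ n ih =>
    rw [pow_succ, ← Matrix.mulVec_mulVec, h, Matrix.mulVec_smul, ih, smul_smul, pow_succ, mul_comm]

lemma cm_inj {g h : SL} (H : cm g = cm h) : g = h := by
  apply Subtype.ext
  ext i j
  have := congrFun (congrFun H i) j
  simp only [cm, Matrix.map_apply] at this
  exact_mod_cast this

lemma two_zero (a b x y x' y' : ℂ) (h1 : a * x + b * y = 0) (h2 : a * x' + b * y' = 0)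
    (h : x * y' - y * x' ≠ 0) : a = 0 ∧ b = 0 := by
  constructor
  · have : a * (x * y' - y * x') = 0 := by linear_combination y' * h1 - y * h2
    exact (mul_eq_zero.mp this).resolve_right h
  · have : b * (x * y' - y * x') = 0 := by linear_combination x * h2 - x' * h1
    exact (mul_eq_zero.mp this).resolve_right h

lemma det_conj (x y : ℂ) (h : (x * (starRingEnd ℂ) y).im ≠ 0) :
    x * (starRingEnd ℂ) y - y * (starRingEnd ℂ) x ≠ 0 := by
  intro h0
  apply h
  have := congrArg Complex.im h0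
  simp only [Complex.sub_im, Complex.mul_im, Complex.conj_re, Complex.conj_im,
    Complex.zero_im] at this ⊢
  linarith

lemma fix (A : Matrix (Fin 2) (Fin 2) ℂ) (e : Fin 2 → ℂ)
    (he : (e 0 * (starRingEnd ℂ) (e 1)).im ≠ 0)
    (h1 : A.mulVec e = e) (h2 : A.mulVec (cj e) = cj e) : A = 1 := by
  have hd := det_conj _ _ he
  have key : ∀ i : Fin 2, ∀ x : Fin 2 → ℂ, A.mulVec x = x →
      A i 0 * x 0 + A i 1 * x 1 = x i := by
    intro i x hx
    have := congrFun hx i
    simpa [Matrix.mulVec, dotProduct, Fin.sum_univ_two] using this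
  have a1 := key 0 e h1
  have a2 := key 0 (cj e) h2
  have b1 := key 1 e h1
  have b2 := key 1 (cj e) h2
  simp only [cj] at a2 b2
  obtain ⟨p1, p2⟩ := two_zero (A 0 0 - 1) (A 0 1) (e 0) (e 1) _ _
    (by linear_combination a1) (by linear_combination a2) hd
  obtain ⟨q1, q2⟩ := two_zero (A 1 0) (A 1 1 - 1) (e 0) (e 1) _ _
    (by linear_combination b1) (by linear_combination b2) hd
  ext i j
  fin_cases i <;> fin_cases j
  · simpa [sub_eq_zero] using p1
  · simpa using p2
  · simpa using q1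
  · simpa [sub_eq_zero] using q2

end EIG

theorem t_EIG : S_EIG := by
  intro w hw
  have htr : (w : M2).trace = (w : M2) 0 0 + (w : M2) 1 1 := Matrix.trace_fin_two _
  have hdet := det_eq w
  obtain ⟨t, ht⟩ : ∃ t : ℝ, t = (w : M2).trace := ⟨_, rfl⟩
  rw [← ht] at hw htr
  have hlt : 0 < 4 - t ^ 2 := by
    have := abs_lt.mp hw
    nlinarith [this.1, this.2]
  obtain ⟨s, hs⟩ : ∃ s : ℝ, s = Real.sqrt (4 - t ^ 2) := ⟨_, rfl⟩
  have hs0 : 0 < s := by rw [hs]; exact Real.sqrt_pos.mpr hlt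
  have hs2 : s ^ 2 = 4 - t ^ 2 := by rw [hs]; exact Real.sq_sqrt hlt.le
  have hb : (w : M2) 0 1 ≠ 0 := by
    intro h0
    rw [h0] at hdet
    have h4 : t ^ 2 = 4 + ((w : M2) 0 0 - (w : M2) 1 1) ^ 2 := by
      rw [htr]; linear_combination 4 * hdet
    nlinarith [sq_nonneg ((w : M2) 0 0 - (w : M2) 1 1)]
  obtain ⟨μ, hμ⟩ : ∃ μ : ℂ, μ = ⟨t / 2, s / 2⟩ := ⟨_, rfl⟩
  have hre : μ.re = t / 2 := by rw [hμ]
  have him : μ.im = s / 2 := by rw [hμ]
  have hmc : μ * (starRingEnd ℂ) μ = 1 := by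
    apply Complex.ext
    · simp only [Complex.mul_re, Complex.conj_re, Complex.conj_im, Complex.one_re, hre, him]
      nlinarith
    · simp only [Complex.mul_im, Complex.conj_re, Complex.conj_im, Complex.one_im, hre, him]
      ring
  have hμ0 : μ ≠ 0 := by
    intro h0
    rw [h0] at hmc
    simp at hmc
  have hinv : μ⁻¹ = (starRingEnd ℂ) μ := inv_eq_of_mul_eq_one_right hmc
  have hadd : μ + (starRingEnd ℂ) μ = (t : ℂ) := by
    apply Complex.ext
    · simp only [Complex.add_re, Complex.conj_re, Complex.ofReal_re, hre]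
      ring
    · simp only [Complex.add_im, Complex.conj_im, Complex.ofReal_im]
      ring
  have htrc : (t : ℂ) = ((w : M2) 0 0 : ℂ) + ((w : M2) 1 1 : ℂ) := by
    rw [htr]; push_cast; ring
  have hdetc : ((w : M2) 0 0 : ℂ) * ((w : M2) 1 1 : ℂ) - ((w : M2) 0 1 : ℂ) * ((w : M2) 1 0 : ℂ)
      = 1 := by exact_mod_cast hdet
  have hchar : μ * μ - (t : ℂ) * μ + 1 = 0 := by
    rw [← hadd]; linear_combination -hmc
  obtain ⟨e, he⟩ : ∃ e : Fin 2 → ℂ, e = ![((w : M2) 0 1 : ℂ), μ - ((w : M2) 0 0 : ℂ)] := ⟨_, rfl⟩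
  have e0 : e 0 = ((w : M2) 0 1 : ℂ) := by rw [he]; rfl
  have e1 : e 1 = μ - ((w : M2) 0 0 : ℂ) := by rw [he]; rfl
  have heig : (cm w).mulVec e = μ • e := by
    ext i
    fin_cases i
    · simp only [Matrix.mulVec, dotProduct, Fin.sum_univ_two, cm, Matrix.map_apply, Fin.zero_eta,
        Pi.smul_apply, smul_eq_mul, e0, e1]
      ring
    · simp only [Matrix.mulVec, dotProduct, Fin.sum_univ_two, cm, Matrix.map_apply, Fin.mk_one,
        Pi.smul_apply, smul_eq_mul, e0, e1]
      linear_combination -hchar - hdetc - μ * htrc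
  have heig' : (cm w).mulVec (cj e) = μ⁻¹ • cj e := by
    rw [hinv]
    ext i
    have := congrArg (starRingEnd ℂ) (congrFun heig i)
    simpa [Matrix.mulVec, dotProduct, Fin.sum_univ_two, cm, cj] using this
  have hne : (e 0 * (starRingEnd ℂ) (e 1)).im ≠ 0 := by
    rw [e0, e1]
    simp only [map_sub, Complex.conj_ofReal, Complex.mul_im, Complex.ofReal_re, Complex.ofReal_im,
      Complex.sub_im, Complex.conj_im, him, zero_mul, add_zero, sub_zero]
    intro h0
    rcases mul_eq_zero.mp h0 with h0 | h0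
    · exact hb h0
    · linarith
  refine ⟨μ, e, hμ0, heig, heig', hne, fun n hn => ?_⟩
  apply EIG.cm_inj
  rw [EIG.cm_pow, EIG.cm_one]
  apply EIG.fix _ e hne
  · rw [EIG.pow_mulVec _ _ _ heig, hn, one_smul]
  · rw [EIG.pow_mulVec _ _ _ heig', inv_pow, hn, inv_one, one_smul]

end SQD
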