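import Pool.Agent.SQD.StB

/-!
# SQD: dense subgroups contain elliptic elements of infinite order
-/

set_option autoImplicit false

namespace SQD

theorem t_ELL : M_ELL := by
  intro hTWO hELZ G hG
  obtain ⟨a, ha, b, hb, hd⟩ := hTWO G hG
  obtain ⟨w, hw, htr, hinf⟩ := hELZ a b hd
  refine ⟨w, ?_, htr, hinf⟩
  have hle : Subgroup.closure {a, b} ≤ G := by
    rw [Subgroup.closure_le]
    intro x hx
    rcases hx with rfl | hx
    · exact ha
    · rw [Set.mem_singleton_iff] at hx
      rw [hx]
      exact hb
  exact hle hw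

end SQD
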