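import Pool.Agent.SQD.StB

set_option autoImplicit false

open MeasureTheory

namespace SQD

namespace ELZ

/-- a finite set of real numbers: the entries of two matrices -/
noncomputable def ent (a b : SL) : Finset ℝ :=
  (Finset.univ.image fun ij : Fin 2 × Fin 2 => (a : M2) ij.1 ij.2) ∪
    (Finset.univ.image fun ij : Fin 2 × Fin 2 => (b : M2) ij.1 ij.2)

lemma mem_ent_left (a b : SL) (i j : Fin 2) : (a : M2) i j ∈ ent a b := by
  unfold ent
  exact Finset.mem_union_left _ (Finset.mem_image.2 ⟨(i, j), Finset.mem_univ _, rfl⟩)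

lemma mem_ent_right (a b : SL) (i j : Fin 2) : (b : M2) i j ∈ ent a b := by
  unfold ent
  exact Finset.mem_union_right _ (Finset.mem_image.2 ⟨(i, j), Finset.mem_univ _, rfl⟩)

/-- matrices with entries in a subring lift -/
lemma exists_lift (A : Subalgebra ℤ ℝ) (g : SL) (h : ∀ i j, (g : M2) i j ∈ A) :
    ∃ g' : Matrix.SpecialLinearGroup (Fin 2) A,
      Matrix.SpecialLinearGroup.map (algebraMap A ℝ) g' = g := by
  have hinj : Function.Injective (algebraMap A ℝ) := Subtype.val_injective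
  refine ⟨⟨fun i j => ⟨(g : M2) i j, h i j⟩, ?_⟩, ?_⟩
  · apply hinj
    rw [map_one, RingHom.map_det]
    have : (algebraMap A ℝ).mapMatrix (fun i j => (⟨(g : M2) i j, h i j⟩ : A)) = (g : M2) := by
      ext i j
      rfl
    rw [this]
    exact g.2
  · ext i j
    rfl

lemma map_inj (A : Subalgebra ℤ ℝ) :
    Function.Injective (Matrix.SpecialLinearGroup.map (n := Fin 2) (algebraMap A ℝ)) := by
  intro x y hxy
  have hinj : Function.Injective (algebraMap A ℝ) := Subtype.val_injective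
  ext i j
  have := congrArg (fun g : SL => (g : M2) i j) hxy
  exact congrArg Subtype.val (hinj this)

lemma torsion (hT : S_TOR) (A : Type) [CommRing A] [IsDomain A] [IsNoetherianRing A]
    (m1 m2 : Ideal A) (p1 p2 : ℕ) (h1 : m1 ≠ ⊤) (h2 : m2 ≠ ⊤) (hp1 : p1.Prime) (hp2 : p2.Prime)
    (hne : p1 ≠ p2) (hm1 : (p1 : A) ∈ m1) (hm2 : (p2 : A) ∈ m2)
    (w : Matrix.SpecialLinearGroup (Fin 2) A)
    (hw1 : Matrix.SpecialLinearGroup.map (Ideal.Quotient.mk m1) w = 1)
    (hw2 : Matrix.SpecialLinearGroup.map (Ideal.Quotient.mk m2) w = 1)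
    (n : ℕ) (hn : 0 < n) (hwn : w ^ n = 1) : w = 1 := by
  by_contra hw
  have hfin : IsOfFinOrder w := isOfFinOrder_iff_pow_eq_one.2 ⟨n, hn, hwn⟩
  have hpos : 0 < orderOf w := hfin.orderOf_pos
  have hne1 : orderOf w ≠ 1 := fun h => hw (orderOf_eq_one_iff.1 h)
  obtain ⟨l, hl, hld⟩ := Nat.exists_prime_and_dvd hne1
  set v := w ^ (orderOf w / l) with hv
  have hvo : orderOf v = l := by
    rw [hv]
    exact orderOf_pow_orderOf_div hpos.ne' hld
  have hvl : v ^ l = 1 := by rw [← hvo]; exact pow_orderOf_eq_one v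
  have hv1 : v ≠ 1 := by
    intro h
    rw [h, orderOf_one] at hvo
    exact hl.one_lt.ne hvo
  have key : ∀ (m : Ideal A) (p : ℕ), m ≠ ⊤ → p.Prime → p ≠ l → (p : A) ∈ m →
      Matrix.SpecialLinearGroup.map (Ideal.Quotient.mk m) w = 1 → False := by
    intro m p hm hp hpl hpm hwm
    have hvm : Matrix.SpecialLinearGroup.map (Ideal.Quotient.mk m) v = 1 := by
      rw [hv, map_pow, hwm, one_pow]
    have hent : ∀ i j, (v : Matrix (Fin 2) (Fin 2) A) i j - (1 : Matrix (Fin 2) (Fin 2) A) i j ∈ m := by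
      intro i j
      rw [← Ideal.Quotient.eq]
      have := congrArg (fun g : Matrix.SpecialLinearGroup (Fin 2) (A ⧸ m) =>
        (g : Matrix (Fin 2) (Fin 2) (A ⧸ m)) i j) hvm
      have h3 : (Ideal.Quotient.mk m) ((v : Matrix (Fin 2) (Fin 2) A) i j) =
          (1 : Matrix (Fin 2) (Fin 2) (A ⧸ m)) i j := this
      rw [h3]
      by_cases hij : i = j
      · subst hij; simp
      · simp [hij]
    have := hT A m p l hm hp hl hpl hpm (v : Matrix (Fin 2) (Fin 2) A) hent (by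
      have := congrArg (fun g : Matrix.SpecialLinearGroup (Fin 2) A =>
        (g : Matrix (Fin 2) (Fin 2) A)) hvl
      simpa using this)
    exact hv1 (Subtype.ext this)
  by_cases h : p1 = l
  · exact key m2 p2 h2 hp2 (fun h' => hne (h.trans h'.symm)) hm2 hw2
  · exact key m1 p1 h1 hp1 h hm1 hw1

/-- dense subgroups of SL covered by finitely many translates of a subgroup -/
lemma dense_of_finite (hO : S_OPN) (G K : Subgroup SL) (hG : Dense (G : Set SL)) (ι : Type)
    [Finite ι] (g : ι → SL) (hcov : ∀ x ∈ G, ∃ i, (g i)⁻¹ * x ∈ K) : Dense (K : Set SL) := by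
  set H : Subgroup SL := K.topologicalClosure with hH
  have hKH : K ≤ H := K.le_topologicalClosure
  have hcl : IsClosed (H : Set SL) := K.isClosed_topologicalClosure
  have hC : IsClosed (⋃ i, {x : SL | (g i)⁻¹ * x ∈ H}) := by
    apply isClosed_iUnion_of_finite
    intro i
    exact hcl.preimage (continuous_mul_left (g i)⁻¹)
  have huniv : (⋃ i, {x : SL | (g i)⁻¹ * x ∈ H}) = Set.univ := by
    apply Set.eq_univ_of_univ_subset
    rw [← hG.closure_eq]
    apply closure_minimal _ hC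
    intro x hx
    obtain ⟨i, hi⟩ := hcov x hx
    exact Set.mem_iUnion.2 ⟨i, hKH hi⟩
  have hsurj : Function.Surjective (fun i : ι => (QuotientGroup.mk (g i) : SL ⧸ H)) := by
    intro q
    induction q using QuotientGroup.induction_on with
    | H x =>
      have hx : x ∈ (⋃ i, {x : SL | (g i)⁻¹ * x ∈ H}) := by rw [huniv]; trivial
      obtain ⟨i, hi⟩ := Set.mem_iUnion.1 hx
      exact ⟨i, QuotientGroup.eq.2 hi⟩
  haveI : Finite (SL ⧸ H) := Finite.of_surjective _ hsurj
  haveI : H.FiniteIndex := Subgroup.finiteIndex_of_finite_quotient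
  have hopen : IsOpen (H : Set SL) := Subgroup.isOpen_of_isClosed_of_finiteIndex H hcl
  have htop : H = ⊤ := hO H ⟨H, hopen, H.one_mem, le_refl _⟩
  rw [dense_iff_closure_eq]
  have : (H : Set SL) = closure (K : Set SL) := K.topologicalClosure_coe
  rw [← this, htop]
  rfl

/-- the rotation by a right angle -/
def rot : SL := ⟨!![0, -1; 1, 0], by simp [Matrix.det_fin_two_of]⟩

lemma elliptic_nonempty : {w : SL | |(w : M2).trace| < 2}.Nonempty := by
  refine ⟨rot, ?_⟩
  simp [rot, Matrix.trace_fin_two]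

lemma elliptic_open : IsOpen {w : SL | |(w : M2).trace| < 2} := by
  have hc : Continuous fun w : SL => |(w : M2).trace| :=
    (Continuous.matrix_trace continuous_subtype_val).abs
  exact isOpen_lt hc continuous_const

end ELZ

theorem t_ELZ : M_ELZ := by
  intro hO hR hT a b hd
  classical
  set A : Subalgebra ℤ ℝ := Algebra.adjoin ℤ ((ELZ.ent a b : Finset ℝ) : Set ℝ) with hA
  haveI : Algebra.FiniteType ℤ A :=
    (Subalgebra.fg_iff_finiteType _).1 (Subalgebra.fg_adjoin_finset _)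
  haveI : IsNoetherianRing A := Algebra.FiniteType.isNoetherianRing ℤ A
  obtain ⟨m1, m2, p1, p2, hm1, hm2, hp1, hp2, hne, hpm1, hpm2, hf1, hf2⟩ := hR A
  obtain ⟨a', ha'⟩ := ELZ.exists_lift A a fun i j =>
    Algebra.subset_adjoin (ELZ.mem_ent_left a b i j)
  obtain ⟨b', hb'⟩ := ELZ.exists_lift A b fun i j =>
    Algebra.subset_adjoin (ELZ.mem_ent_right a b i j)
  set ψ : Matrix.SpecialLinearGroup (Fin 2) A →* SL :=
    Matrix.SpecialLinearGroup.map (algebraMap A ℝ) with hψ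
  have hψi : Function.Injective ψ := ELZ.map_inj A
  set Γ : Subgroup SL := Subgroup.closure {a, b} with hΓ
  set Γ' : Subgroup (Matrix.SpecialLinearGroup (Fin 2) A) := Subgroup.closure {a', b'} with hΓ'
  have hΓmap : Γ'.map ψ = Γ := by
    rw [hΓ', MonoidHom.map_closure, Set.image_pair, ha', hb']
  set φ1 : Matrix.SpecialLinearGroup (Fin 2) A →* Matrix.SpecialLinearGroup (Fin 2) (A ⧸ m1) :=
    Matrix.SpecialLinearGroup.map (Ideal.Quotient.mk m1) with hφ1
  set φ2 : Matrix.SpecialLinearGroup (Fin 2) A →* Matrix.SpecialLinearGroup (Fin 2) (A ⧸ m2) :=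
    Matrix.SpecialLinearGroup.map (Ideal.Quotient.mk m2) with hφ2
  haveI : Finite (Matrix.SpecialLinearGroup (Fin 2) (A ⧸ m1)) := Subtype.finite
  haveI : Finite (Matrix.SpecialLinearGroup (Fin 2) (A ⧸ m2)) := Subtype.finite
  set K' : Subgroup (Matrix.SpecialLinearGroup (Fin 2) A) := Γ' ⊓ (φ1.ker ⊓ φ2.ker) with hK'
  -- choose representatives
  let rep : (Matrix.SpecialLinearGroup (Fin 2) (A ⧸ m1)) ×
      (Matrix.SpecialLinearGroup (Fin 2) (A ⧸ m2)) → Matrix.SpecialLinearGroup (Fin 2) A :=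
    fun q => if h : ∃ g ∈ Γ', φ1 g = q.1 ∧ φ2 g = q.2 then h.choose else 1
  have hrep : ∀ g ∈ Γ', (rep (φ1 g, φ2 g))⁻¹ * g ∈ K' := by
    intro g hg
    have h : ∃ g' ∈ Γ', φ1 g' = (φ1 g, φ2 g).1 ∧ φ2 g' = (φ1 g, φ2 g).2 := ⟨g, hg, rfl, rfl⟩
    have hr : rep (φ1 g, φ2 g) = h.choose := dif_pos h
    obtain ⟨hc1, hc2, hc3⟩ := h.choose_spec
    rw [hr]
    refine ⟨Γ'.mul_mem (Γ'.inv_mem hc1) hg, ?_, ?_⟩
    · change φ1 _ = 1
      rw [map_mul, map_inv, hc2, inv_mul_cancel]
    · change φ2 _ = 1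
      rw [map_mul, map_inv, hc3, inv_mul_cancel]
  have hdense : Dense ((K'.map ψ : Subgroup SL) : Set SL) := by
    apply ELZ.dense_of_finite hO Γ (K'.map ψ) hd _ (fun q => ψ (rep q))
    intro x hx
    rw [← hΓmap] at hx
    obtain ⟨g, hg, rfl⟩ := hx
    exact ⟨(φ1 g, φ2 g), (rep (φ1 g, φ2 g))⁻¹ * g, hrep g hg, by rw [map_mul, map_inv]⟩
  obtain ⟨w, hwE, hwK⟩ := hdense.inter_open_nonempty _ ELZ.elliptic_open ELZ.elliptic_nonempty
  obtain ⟨w', hw'K, rfl⟩ := hwK
  refine ⟨ψ w', ?_, hwE, ?_⟩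
  · rw [← hΓmap]
    exact ⟨w', hw'K.1, rfl⟩
  · intro n hn hwn
    have hw'n : w' ^ n = 1 := hψi (by rw [map_pow, hwn, map_one])
    have hw1 : w' = 1 := ELZ.torsion hT A m1 m2 p1 p2 hm1.ne_top hm2.ne_top hp1 hp2 hne hpm1 hpm2 w'
      hw'K.2.1 hw'K.2.2 n hn hw'n
    rw [hw1, map_one] at hwE
    have h2 : |((1 : SL) : M2).trace| < 2 := hwE
    rw [Matrix.SpecialLinearGroup.coe_one, Matrix.trace_one, Fintype.card_fin] at h2
    norm_num at h2

end SQD
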