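import Pool.Agent.SQD.StA

/-!
# SQD, module EQD: the theorem of Cantor, Schroeder and Bernstein with pieces
-/

set_option autoImplicit false

open MeasureTheory

namespace SQD

theorem t_EQD : S_EQD := by
  classical
  intro G E E' K K' hK hK' hf hg
  obtain ⟨f, hf1, hf2⟩ := hf
  obtain ⟨g, hg1, hg2⟩ := hg
  let L : Finset SL := K ∪ K'.image (fun κ => κ⁻¹)
  have hL : ∀ κ ∈ L, κ ∈ G := by
    intro κ hκ
    rcases Finset.mem_union.1 hκ with h | h
    · exact hK κ h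
    · obtain ⟨κ', h1, rfl⟩ := Finset.mem_image.1 h
      exact G.inv_mem (hK' κ' h1)
  let F0 : E → E' := fun x => ⟨f 0 x.1, (hf1 0 x.1 x.2).1⟩
  let G0 : E' → E := fun y => ⟨g 0 y.1, (hg1 0 y.1 y.2).1⟩
  have hF0 : Function.Injective F0 := by
    intro x y hxy
    exact Subtype.ext (hf2 0 0 x.1 x.2 y.1 y.2 (congrArg Subtype.val hxy)).2
  have hG0 : Function.Injective G0 := by
    intro x y hxy
    exact Subtype.ext (hg2 0 0 x.1 x.2 y.1 y.2 (congrArg Subtype.val hxy)).2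
  obtain ⟨h, hbij, hrel⟩ := Function.Embedding.schroeder_bernstein_of_rel hF0 hG0
    (fun (x : E) (y : E') => ∃ κ ∈ L, y.1 = act κ x.1)
    (by
      intro x
      obtain ⟨κ, h1, h2⟩ := (hf1 0 x.1 x.2).2
      exact ⟨κ, Finset.mem_union_left _ h1, h2⟩)
    (by
      intro y
      obtain ⟨κ, h1, h2⟩ := (hg1 0 y.1 y.2).2
      refine ⟨κ⁻¹, Finset.mem_union_right _ (Finset.mem_image_of_mem _ h1), ?_⟩
      show y.1 = act κ⁻¹ (g 0 y.1)
      rw [h2, act_inv_act])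
  choose κ hκ1 hκ2 using hrel
  let e := L.equivFin
  let idx : E → Fin L.card := fun x => e ⟨κ x, hκ1 x⟩
  let A : Fin L.card → Set V := fun i => {v | ∃ x : E, x.1 = v ∧ idx x = i}
  have himg : ∀ i v, v ∈ act (e.symm i).1 '' A i ↔ ∃ x : E, (h x).1 = v ∧ idx x = i := by
    intro i v
    constructor
    · rintro ⟨w, ⟨x, rfl, hx⟩, rfl⟩
      refine ⟨x, ?_, hx⟩
      rw [hκ2 x, ← hx]
      show act (κ x) x.1 = act (e.symm (e ⟨κ x, hκ1 x⟩)).1 x.1
      rw [Equiv.symm_apply_apply]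
    · rintro ⟨x, rfl, hx⟩
      refine ⟨x.1, ⟨x, rfl, hx⟩, ?_⟩
      rw [hκ2 x, ← hx]
      show act (e.symm (e ⟨κ x, hκ1 x⟩)).1 x.1 = act (κ x) x.1
      rw [Equiv.symm_apply_apply]
  refine ⟨L.card, A, fun i => (e.symm i).1, fun i => hL _ (e.symm i).2, ?_, ?_, ?_, ?_⟩
  · intro i j hij
    rw [Set.disjoint_left]
    rintro v ⟨x, hx1, hx2⟩ ⟨y, hy1, hy2⟩
    have : x = y := Subtype.ext (hx1.trans hy1.symm)
    exact hij (by rw [← hx2, ← hy2, this])
  · ext v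
    constructor
    · intro hv
      obtain ⟨i, x, hx, -⟩ := Set.mem_iUnion.1 hv
      rw [← hx]
      exact x.2
    · intro hv
      exact Set.mem_iUnion.2 ⟨idx ⟨v, hv⟩, ⟨v, hv⟩, rfl, rfl⟩
  · intro i j hij
    rw [Set.disjoint_left]
    intro v hv1 hv2
    obtain ⟨x, hx1, hx2⟩ := (himg i v).1 hv1
    obtain ⟨y, hy1, hy2⟩ := (himg j v).1 hv2
    have : x = y := hbij.1 (Subtype.ext (hx1.trans hy1.symm))
    exact hij (by rw [← hx2, ← hy2, this])
  · ext v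
    constructor
    · intro hv
      obtain ⟨i, hi⟩ := Set.mem_iUnion.1 hv
      obtain ⟨x, hx, -⟩ := (himg i v).1 hi
      rw [← hx]
      exact (h x).2
    · intro hv
      obtain ⟨x, hx⟩ := hbij.2 ⟨v, hv⟩
      refine Set.mem_iUnion.2 ⟨idx x, (himg (idx x) v).2 ⟨x, ?_, rfl⟩⟩
      rw [hx]

end SQD
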