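import Pool.Agent.SQD.StB

/-!
# SQD: EXP, expansion by elements near one
-/

set_option autoImplicit false

namespace SQD

namespace EXP

lemma cj_cj (x : Fin 2 → ℂ) : cj (cj x) = x := by
  ext i
  simp [cj]

lemma pow_conj (c w : SL) (n : ℕ) : (c * w * c⁻¹) ^ n = c * w ^ n * c⁻¹ := by
  rw [_root_.conj_pow]

lemma conj_mulVec (c w : SL) (x : Fin 2 → ℂ) :
    (cm (c * w * c⁻¹)).mulVec ((cm c).mulVec x) = (cm c).mulVec ((cm w).mulVec x) := by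
  rw [Matrix.mulVec_mulVec, Matrix.mulVec_mulVec, ← cm_mul, ← cm_mul, mul_assoc, inv_mul_cancel,
    mul_one]

/-- the eigenvector with an eigenvalue of large absolute value -/
lemma large (v : AbsoluteValue ℂ ℝ) (w : SL) (μ : ℂ) (e : Fin 2 → ℂ) (hμ : μ ≠ 0)
    (h1 : (cm w).mulVec e = μ • e) (h2 : (cm w).mulVec (cj e) = μ⁻¹ • cj e)
    (him : (e 0 * (starRingEnd ℂ) (e 1)).im ≠ 0) (hv : v μ ≠ 1) :
    ∃ (μ' : ℂ) (e' : Fin 2 → ℂ), 1 < v μ' ∧ (cm w).mulVec e' = μ' • e' ∧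
      (cm w).mulVec (cj e') = μ'⁻¹ • cj e' ∧ (e' 0 * (starRingEnd ℂ) (e' 1)).im ≠ 0 := by
  rcases lt_or_gt_of_ne hv with h | h
  · refine ⟨μ⁻¹, cj e, ?_, h2, ?_, ?_⟩
    · rw [map_inv₀]
      exact (one_lt_inv₀ (v.pos hμ)).2 h
    · rw [cj_cj, inv_inv]
      exact h1
    · have h3 : (cj e 0 * (starRingEnd ℂ) (cj e 1)) = (starRingEnd ℂ) (e 0 * (starRingEnd ℂ) (e 1)) := by
        simp [cj]
      rw [h3, Complex.conj_im]
      exact neg_ne_zero.2 him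
  · exact ⟨μ, e, h, h1, h2, him⟩

end EXP

theorem t_EXP : M_EXP := by
  classical
  intro hELL hEIG hREC hTIT hPNG hORB G hG U hU h1U k
  obtain ⟨w, hwG, htr, hord⟩ := hELL G hG
  obtain ⟨μ₀, e₀, hμ₀, hw1₀, hw2₀, him₀, hroot⟩ := hEIG w htr
  obtain ⟨v, hv⟩ := hTIT μ₀ hμ₀ fun n hn h => hord n hn (hroot n h)
  obtain ⟨μ, e, hvμ, hw1, hw2, him⟩ := EXP.large v w μ₀ e₀ hμ₀ hw1₀ hw2₀ him₀ hv
  obtain ⟨c, hcG, hc⟩ := hORB G hG e him (k + 1)
  obtain ⟨n₀, hn₀⟩ := hPNG v μ (k + 1)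
    (fun i s => (cm (c i)).mulVec (bif s then e else cj e)) (fun i => c i * w * (c i)⁻¹) hvμ
    (fun i => by
      change (cm (c i * w * (c i)⁻¹)).mulVec ((cm (c i)).mulVec e) = μ • (cm (c i)).mulVec e
      rw [EXP.conj_mulVec, hw1, Matrix.mulVec_smul])
    (fun i => by
      change (cm (c i * w * (c i)⁻¹)).mulVec ((cm (c i)).mulVec (cj e)) =
        μ⁻¹ • (cm (c i)).mulVec (cj e)
      rw [EXP.conj_mulVec, hw2, Matrix.mulVec_smul])
    hc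
  have hU' : IsOpen {h : SL | ∀ i, c i * h * (c i)⁻¹ ∈ U} := by
    rw [Set.ofPred_forall]
    refine isOpen_iInter_of_finite fun i => ?_
    exact hU.preimage ((continuous_const.mul continuous_id).mul continuous_const)
  obtain ⟨n, hn, _, hn1, hn2⟩ := hREC w htr _ hU' (by
    intro i
    rw [mul_one, mul_inv_cancel]
    exact h1U) n₀
  refine ⟨(Finset.univ.image fun i => (c i * w * (c i)⁻¹) ^ n) ∪
    (Finset.univ.image fun i => ((c i * w * (c i)⁻¹) ^ n)⁻¹), ?_, ?_⟩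
  · intro g hg
    have hpow : ∀ i, (c i * w * (c i)⁻¹) ^ n ∈ G := fun i =>
      G.pow_mem (G.mul_mem (G.mul_mem (hcG i) hwG) (G.inv_mem (hcG i))) n
    rcases Finset.mem_union.1 hg with h | h
    · obtain ⟨i, _, rfl⟩ := Finset.mem_image.1 h
      refine ⟨hpow i, ?_⟩
      rw [EXP.pow_conj]
      exact hn1 i
    · obtain ⟨i, _, rfl⟩ := Finset.mem_image.1 h
      refine ⟨G.inv_mem (hpow i), ?_⟩
      rw [EXP.pow_conj]
      have h3 : (c i * w ^ n * (c i)⁻¹)⁻¹ = c i * (w ^ n)⁻¹ * (c i)⁻¹ := by group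
      rw [h3]
      exact hn2 i
  · intro X hX
    obtain ⟨Y, hY1, hY2⟩ := hn₀ n hn X hX
    refine ⟨Y, ?_, le_trans (Nat.mul_le_mul_right _ (by omega)) hY2⟩
    intro y hy
    obtain ⟨i, x, hx, h | h⟩ := hY1 y hy
    · exact ⟨_, Finset.mem_union_left _ (Finset.mem_image_of_mem _ (Finset.mem_univ i)), x, hx, h⟩
    · exact ⟨_, Finset.mem_union_right _ (Finset.mem_image_of_mem _ (Finset.mem_univ i)), x, hx, h⟩

end SQD
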