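import Pool.Agent.SQD.StA

/-!
# SQD: commutative groups satisfy the condition of Folner
-/

set_option autoImplicit false

open Filter Topology

namespace SQD

namespace FAB

variable {G : Type} [CommGroup G]

open Classical in
/-- Products of the elements of `K` with exponents at most `n`. -/
noncomputable def B (K : Finset G) (n : ℕ) : Finset G :=
  (Fintype.piFinset (fun _ : K => Finset.range (n + 1))).image (fun f => ∏ k : K, (k : G) ^ f k)

lemma mem_B {K : Finset G} {n : ℕ} {x : G} :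
    x ∈ B K n ↔ ∃ f : K → ℕ, (∀ k, f k ≤ n) ∧ ∏ k : K, (k : G) ^ f k = x := by
  classical
  unfold B
  simp only [Finset.mem_image, Fintype.mem_piFinset, Finset.mem_range, Nat.lt_succ_iff]

lemma one_mem_B (K : Finset G) (n : ℕ) : (1 : G) ∈ B K n :=
  mem_B.2 ⟨fun _ => 0, fun _ => Nat.zero_le _, by simp⟩

lemma card_B_pos (K : Finset G) (n : ℕ) : 0 < (B K n).card :=
  Finset.card_pos.2 ⟨1, one_mem_B K n⟩

lemma card_B_le (K : Finset G) (n : ℕ) : (B K n).card ≤ (n + 1) ^ K.card := by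
  classical
  unfold B
  refine Finset.card_image_le.trans ?_
  simp

lemma mul_mem_B {K : Finset G} {n : ℕ} {k x : G} (hk : k ∈ K) (hx : x ∈ B K n) :
    k * x ∈ B K (n + 1) := by
  classical
  obtain ⟨f, hf, rfl⟩ := mem_B.1 hx
  refine mem_B.2 ⟨fun j => f j + if j = ⟨k, hk⟩ then 1 else 0, fun j => ?_, ?_⟩
  · dsimp only
    have := hf j
    split_ifs <;> omega
  · simp only [pow_add, Finset.prod_mul_distrib]
    rw [mul_comm]
    congr 1
    rw [Finset.prod_eq_single (⟨k, hk⟩ : K)]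
    · simp
    · intro b _ hb
      simp [hb]
    · intro h
      exact absurd (Finset.mem_univ _) h

lemma exists_slow (K : Finset G) (m : ℕ) :
    ∃ n : ℕ, m * (B K (n + 1)).card ≤ (m + 1) * (B K n).card := by
  rcases Nat.eq_zero_or_pos m with rfl | hm
  · exact ⟨0, by simp⟩
  by_contra hcon
  push Not at hcon
  have h1 : ∀ n : ℕ, (m + 1) ^ n ≤ m ^ n * (B K n).card := by
    intro n
    induction n with
    | zero => simpa using card_B_pos K 0
    | succ n ih =>
      have h2 := (hcon n).le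
      calc (m + 1) ^ (n + 1) = (m + 1) * (m + 1) ^ n := by ring
        _ ≤ (m + 1) * (m ^ n * (B K n).card) := Nat.mul_le_mul_left _ ih
        _ = m ^ n * ((m + 1) * (B K n).card) := by ring
        _ ≤ m ^ n * (m * (B K (n + 1)).card) := Nat.mul_le_mul_left _ h2
        _ = m ^ (n + 1) * (B K (n + 1)).card := by ring
  have hmR : (0 : ℝ) < m := by exact_mod_cast hm
  set r : ℝ := ((m : ℝ) + 1) / m with hr
  have hr1 : 1 < r := by
    rw [hr, lt_div_iff₀ hmR]
    linarith
  have h2 : ∀ n : ℕ, r ^ n ≤ ((n : ℝ) + 1) ^ K.card := by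
    intro n
    have h3 : ((m : ℝ) + 1) ^ n ≤ (m : ℝ) ^ n * ((B K n).card : ℝ) := by exact_mod_cast h1 n
    have h4 : ((B K n).card : ℝ) ≤ ((n : ℝ) + 1) ^ K.card := by exact_mod_cast card_B_le K n
    rw [hr, div_pow, div_le_iff₀ (by positivity)]
    calc ((m : ℝ) + 1) ^ n ≤ (m : ℝ) ^ n * ((B K n).card : ℝ) := h3
      _ ≤ (m : ℝ) ^ n * ((n : ℝ) + 1) ^ K.card := by gcongr
      _ = ((n : ℝ) + 1) ^ K.card * (m : ℝ) ^ n := mul_comm _ _
  have h5 := (tendsto_pow_const_div_const_pow_of_one_lt K.card hr1).comp (tendsto_add_atTop_nat 1)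
  have h6 : ∀ᶠ n : ℕ in atTop, (((n + 1 : ℕ) : ℝ) ^ K.card / r ^ (n + 1)) < 1 / r := by
    have := h5.eventually (gt_mem_nhds (show (0 : ℝ) < 1 / r by positivity))
    simpa [Function.comp] using this
  obtain ⟨n, hn⟩ := h6.exists
  have h7 := h2 n
  have hrp : (0 : ℝ) < r := by linarith
  rw [div_lt_div_iff₀ (by positivity) hrp] at hn
  push_cast at hn
  rw [pow_succ r n, one_mul] at hn
  have h8 := lt_of_mul_lt_mul_right hn hrp.le
  linarith

end FAB

theorem t_FAB : S_FAB := by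
  intro G _ K m
  obtain ⟨n, hn⟩ := FAB.exists_slow K m
  exact ⟨FAB.B K n, FAB.B K (n + 1), ⟨1, FAB.one_mem_B K n⟩,
    fun k hk f hf => FAB.mul_mem_B hk hf, hn⟩

end SQD
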