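import Pool.Agent.SQD.StB

/-!
# SQD, module FAT: expansion of finite sets between fat sets
-/

set_option autoImplicit false

open MeasureTheory

namespace SQD

namespace FAT

open Classical in
lemma main (hexp : S_EXP) (G : Subgroup SL) (hG : Dense (G : Set SL)) (E E' D : Set V)
    (U : Set SL) (T : Finset SL) (c : ℕ) (h0 : (0 : V) ∉ D) (hU : IsOpen U) (h1 : (1 : SL) ∈ U)
    (hUD : ∀ g ∈ U, ∀ x ∈ D, act g x ∈ E') (hT : ∀ g ∈ T, g ∈ G)
    (hTE : ∀ x ∈ E, ∃ g ∈ T, act g x ∈ D) :
    ∃ K : Finset SL, (∀ κ ∈ K, κ ∈ G) ∧ Ex K E E' c := by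
  obtain ⟨M, hM, hMX⟩ := hexp G hG U hU h1 (c * T.card)
  refine ⟨Finset.image₂ (fun m t => m * t) M T, ?_, ?_⟩
  · intro κ hκ
    rw [Finset.mem_image₂] at hκ
    obtain ⟨m, hm, t, ht, rfl⟩ := hκ
    exact G.mul_mem (hM m hm).1 (hT t ht)
  · intro X hX
    rcases X.eq_empty_or_nonempty with hXe | hXn
    · subst hXe
      refine ⟨∅, by simp, by simp, by simp⟩
    · obtain ⟨x0, hx0⟩ := hXn
      obtain ⟨g0, hg0, _⟩ := hTE x0 (hX hx0)
      obtain ⟨g, hg, hgmax⟩ := Finset.exists_max_image T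
        (fun g => (X.filter fun x => act g x ∈ D).card) ⟨g0, hg0⟩
      have hcard : X.card ≤ T.card * (X.filter fun x => act g x ∈ D).card := by
        have h1 : X ⊆ T.biUnion fun g => X.filter fun x => act g x ∈ D := by
          intro x hx
          obtain ⟨t, ht, htx⟩ := hTE x (hX hx)
          rw [Finset.mem_biUnion]
          exact ⟨t, ht, Finset.mem_filter.2 ⟨hx, htx⟩⟩
        calc X.card ≤ (T.biUnion fun g => X.filter fun x => act g x ∈ D).card :=
              Finset.card_le_card h1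
          _ ≤ ∑ t ∈ T, (X.filter fun x => act t x ∈ D).card := Finset.card_biUnion_le
          _ ≤ ∑ _t ∈ T, (X.filter fun x => act g x ∈ D).card := Finset.sum_le_sum hgmax
          _ = T.card * (X.filter fun x => act g x ∈ D).card := by
              rw [Finset.sum_const, smul_eq_mul]
      have hinj : ((X.filter fun x => act g x ∈ D).image (act g)).card =
          (X.filter fun x => act g x ∈ D).card :=
        Finset.card_image_of_injective _ (act_inj g)
      have hmem : ∀ x ∈ (X.filter fun x => act g x ∈ D).image (act g), x ∈ D := by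
        intro x hx
        rw [Finset.mem_image] at hx
        obtain ⟨z, hz, rfl⟩ := hx
        exact (Finset.mem_filter.1 hz).2
      obtain ⟨Y, hY, hYc⟩ := hMX ((X.filter fun x => act g x ∈ D).image (act g))
        (fun h => h0 (hmem 0 h))
      refine ⟨Y, ?_, ?_, ?_⟩
      · intro y hy
        obtain ⟨g', hg', x, hx, rfl⟩ := hY y hy
        exact hUD g' (hM g' hg').2 x (hmem x hx)
      · intro y hy
        obtain ⟨g', hg', x, hx, rfl⟩ := hY y hy
        rw [Finset.mem_image] at hx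
        obtain ⟨z, hz, rfl⟩ := hx
        refine ⟨g' * g, Finset.mem_image₂_of_mem hg' hg, z, (Finset.mem_filter.1 hz).1, ?_⟩
        rw [act_mul]
      · calc c * X.card ≤ c * (T.card * (X.filter fun x => act g x ∈ D).card) :=
              Nat.mul_le_mul_left c hcard
          _ = c * T.card * ((X.filter fun x => act g x ∈ D).image (act g)).card := by
              rw [hinj, mul_assoc]
          _ ≤ Y.card := hYc

end FAT

theorem t_FAT : M_FAT := by
  intro hexp hcov hnbh G hG E E' c hfat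
  rcases hfat with ⟨hE, hE'⟩ | ⟨hE, hE'⟩
  · obtain ⟨D, U, hD, hDn, h0, hU, h1, hUD⟩ := hnbh.1 E' hE'.2.1
    obtain ⟨T, hT, hTE⟩ := (hcov G hG).1 (closure E) D hE.1.isCompact_closure hE.2.2 hD hDn
    exact FAT.main hexp G hG E E' D U T c h0 hU h1 hUD hT (fun x hx => hTE x (subset_closure hx))
  · obtain ⟨C, hC, hCn, hcone, r, hr, hCr⟩ := hE'.2.2
    obtain ⟨C', U, hC', hCn', h0, hcone', hU, h1, hUC⟩ := hnbh.2 C hC hCn hcone
    obtain ⟨R, hRpos, hR⟩ := hE.1.exists_pos_norm_le
    obtain ⟨T, hT, hTE⟩ := (hcov G hG).2 C' R (r / 2) hC' hCn' hcone' hRpos (by positivity)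
    refine FAT.main hexp G hG E E' {x | x ∈ C' ∧ ‖x‖ < r / 2} U T c (fun h => h0 h.1) hU h1
      ?_ hT ?_
    · rintro g hg x ⟨hx, hxr⟩
      have h2 := (hUC g hg).2 x
      exact hCr _ ((hUC g hg).1 x hx) (by linarith)
    · intro x hx
      have hx0 : x ≠ 0 := fun h => hE.2.1 (h ▸ hx)
      obtain ⟨g, hg, hgC, hgr⟩ := hTE x hx0 (hR x hx)
      exact ⟨g, hg, hgC, hgr⟩

end SQD
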