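import Pool.Agent.SQD.StA

/-!
# SQD: a Borel fundamental domain for a discrete group acting on `Yp`
-/

set_option autoImplicit false

open MeasureTheory Topology

namespace SQD

namespace FD1

lemma act2_mul (g h : SL) (p : V × V) : act2 (g * h) p = act2 g (act2 h p) := by
  simp [act2, act_mul]

lemma act2_one (p : V × V) : act2 1 p = p := by
  simp [act2, act_one]

lemma continuous_act_left (g : SL) : Continuous (act g) := by
  have h : Continuous fun v : V => act (g, v).1 (g, v).2 :=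
    continuous_act.comp (Continuous.prodMk continuous_const continuous_id)
  exact h

lemma continuous_act2 (g : SL) : Continuous (act2 g) := by
  unfold act2
  exact ((continuous_act_left g).comp continuous_fst).prodMk
    ((continuous_act_left g).comp continuous_snd)

lemma dt_act2 (g : SL) (p : V × V) : dt (act2 g p) = dt p := by
  have h := det_eq g
  simp only [dt, act2, act_apply_zero, act_apply_one]
  linear_combination (p.1 0 * p.2 1 - p.1 1 * p.2 0) * h

lemma act2_mem_Yp (g : SL) {p : V × V} (hp : p ∈ Yp) : act2 g p ∈ Yp := by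
  unfold Yp at *
  refine ⟨?_, ?_⟩
  · rw [dt_act2]
    exact hp.1
  · rw [dt_act2]
    exact hp.2

lemma continuous_dt : Continuous dt := by
  unfold dt
  fun_prop

lemma isOpen_Yp : IsOpen Yp := by
  have h : Yp = dt ⁻¹' Set.Ioo 1 2 := rfl
  rw [h]
  exact isOpen_Ioo.preimage continuous_dt

/-- the matrix which maps the pair `q` to the pair `q'` -/
noncomputable def Phi (r : (V × V) × (V × V)) : M2 :=
  !![(r.1.1 0 * r.2.2 1 - r.1.2 0 * r.2.1 1) / dt r.2, (r.1.2 0 * r.2.1 0 - r.1.1 0 * r.2.2 0) / dt r.2;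
    (r.1.1 1 * r.2.2 1 - r.1.2 1 * r.2.1 1) / dt r.2, (r.1.2 1 * r.2.1 0 - r.1.1 1 * r.2.2 0) / dt r.2]

lemma Phi_act2 (g : SL) {q : V × V} (hq : dt q ≠ 0) : Phi (act2 g q, q) = (g : M2) := by
  unfold dt at hq
  ext i j
  fin_cases i <;> fin_cases j <;>
    simp only [Phi, act2, act_apply_zero, act_apply_one, dt, Matrix.of_apply, Matrix.cons_val',
      Matrix.cons_val_zero, Matrix.cons_val_one, Fin.zero_eta, Fin.mk_one, Fin.isValue] <;>
    rw [div_eq_iff hq] <;> ring

lemma continuousAt_Phi {p : V × V} (hp : dt p ≠ 0) : ContinuousAt Phi (p, p) := by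
  have hd : ContinuousAt (fun r : (V × V) × (V × V) => dt r.2) (p, p) :=
    (continuous_dt.comp continuous_snd).continuousAt
  refine continuousAt_pi.2 fun i => continuousAt_pi.2 fun j => ?_
  fin_cases i <;> fin_cases j
  · refine ContinuousAt.div (f := fun r : (V × V) × (V × V) =>
      r.1.1 0 * r.2.2 1 - r.1.2 0 * r.2.1 1) ?_ hd hp
    exact Continuous.continuousAt (by fun_prop)
  · refine ContinuousAt.div (f := fun r : (V × V) × (V × V) =>
      r.1.2 0 * r.2.1 0 - r.1.1 0 * r.2.2 0) ?_ hd hp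
    exact Continuous.continuousAt (by fun_prop)
  · refine ContinuousAt.div (f := fun r : (V × V) × (V × V) =>
      r.1.1 1 * r.2.2 1 - r.1.2 1 * r.2.1 1) ?_ hd hp
    exact Continuous.continuousAt (by fun_prop)
  · refine ContinuousAt.div (f := fun r : (V × V) × (V × V) =>
      r.1.2 1 * r.2.1 0 - r.1.1 1 * r.2.2 0) ?_ hd hp
    exact Continuous.continuousAt (by fun_prop)

/-- every point has a neighbourhood in which no two points are equivalent -/
lemma exists_nhd {G : Subgroup SL} (hG : Discr G) {p : V × V} (hp : p ∈ Yp) :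
    ∃ W : Set (V × V), IsOpen W ∧ p ∈ W ∧ W ⊆ Yp ∧
      ∀ g ∈ G, ∀ q ∈ W, act2 g q ∈ W → g = 1 := by
  obtain ⟨U, hU, h1, hGU⟩ := hG
  obtain ⟨U', hU', rfl⟩ := isOpen_induced_iff.1 hU
  have hpd : dt p ≠ 0 := by
    have := hp.1
    linarith
  have e1 : Phi (p, p) = ((1 : SL) : M2) := by
    have h := Phi_act2 1 hpd
    rwa [act2_one] at h
  have hn : Phi ⁻¹' U' ∈ 𝓝 (p, p) := by
    apply (continuousAt_Phi hpd).preimage_mem_nhds
    rw [e1]
    exact hU'.mem_nhds h1
  rw [nhds_prod_eq, Filter.mem_prod_same_iff] at hn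
  obtain ⟨t, ht, hts⟩ := hn
  obtain ⟨t', ht't, ht'o, hpt'⟩ := mem_nhds_iff.1 ht
  refine ⟨t' ∩ Yp, ht'o.inter isOpen_Yp, ⟨hpt', hp⟩, Set.inter_subset_right, ?_⟩
  intro g hg q hq hgq
  have hqd : dt q ≠ 0 := by
    have := hq.2.1
    linarith
  have h2 : Phi (act2 g q, q) ∈ U' := hts ⟨ht't hgq.1, ht't hq.1⟩
  rw [Phi_act2 g hqd] at h2
  exact hGU g hg h2

end FD1

open FD1 in
theorem t_FD1 : M_FD1 := by
  intro _ G hG
  choose! W hWo hWm hWs hWg using fun (p : V × V) (hp : p ∈ Yp) => exists_nhd hG hp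
  obtain ⟨t, htY, htc, hcov⟩ := TopologicalSpace.countable_cover_nhdsWithin
    (f := W) (s := Yp) fun p hp => mem_nhdsWithin_of_mem_nhds ((hWo p hp).mem_nhds (hWm p hp))
  rcases t.eq_empty_or_nonempty with rfl | hne
  · refine ⟨∅, MeasurableSet.empty, Set.empty_subset _, fun p hp => ?_⟩
    have h := hcov hp
    simp at h
  obtain ⟨s, rfl⟩ := htc.exists_eq_range hne
  have hs : ∀ i, s i ∈ Yp := fun i => htY ⟨i, rfl⟩
  let B : ℕ → Set (V × V) := fun j => ⋃ g : G, act2 (g : SL) ⁻¹' W (s j)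
  have hBo : ∀ j, IsOpen (B j) := fun j =>
    isOpen_iUnion fun g => (hWo _ (hs j)).preimage (continuous_act2 _)
  refine ⟨⋃ i, (W (s i) ∩ Yp) \ ⋃ j ∈ Set.Iio i, B j, ?_, ?_, ?_⟩
  · refine MeasurableSet.iUnion fun i => ?_
    exact ((hWo _ (hs i)).inter isOpen_Yp).measurableSet.diff
      (isOpen_biUnion fun j _ => hBo j).measurableSet
  · intro q hq
    obtain ⟨i, hi⟩ := Set.mem_iUnion.1 hq
    exact hi.1.2
  · intro p hp
    have hex : ∃ i, ∃ g : G, act2 (g : SL) p ∈ W (s i) := by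
      have h := hcov hp
      simp only [Set.mem_iUnion, Set.mem_range, exists_prop] at h
      obtain ⟨x, ⟨i, rfl⟩, hx⟩ := h
      exact ⟨i, 1, by simpa [act2_one] using hx⟩
    classical
    obtain ⟨g0, hg0⟩ := Nat.find_spec hex
    have hmin : ∀ i, i < Nat.find hex → ∀ g : G, act2 (g : SL) p ∉ W (s i) :=
      fun i hi g hg => Nat.find_min hex hi ⟨g, hg⟩
    refine ⟨g0, ?_, ?_⟩
    · refine Set.mem_iUnion.2 ⟨Nat.find hex, ⟨hg0, act2_mem_Yp _ hp⟩, ?_⟩
      intro hb
      simp only [Set.mem_iUnion, Set.mem_Iio, exists_prop] at hb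
      obtain ⟨j, hj, hb⟩ := hb
      obtain ⟨g, hg⟩ := Set.mem_iUnion.1 hb
      have hg' : act2 (g : SL) (act2 (g0 : SL) p) ∈ W (s j) := hg
      rw [← act2_mul, ← Subgroup.coe_mul] at hg'
      exact hmin j hj _ hg'
    · intro g hg
      obtain ⟨i, ⟨hgi, _⟩, hnot⟩ := Set.mem_iUnion.1 hg
      have hile : i ≤ Nat.find hex := by
        by_contra hlt
        push Not at hlt
        apply hnot
        simp only [Set.mem_iUnion, Set.mem_Iio, exists_prop]
        refine ⟨Nat.find hex, hlt, Set.mem_iUnion.2 ⟨g0 * g⁻¹, ?_⟩⟩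
        change act2 ((g0 * g⁻¹ : G) : SL) (act2 (g : SL) p) ∈ W (s (Nat.find hex))
        rw [← act2_mul, ← Subgroup.coe_mul, inv_mul_cancel_right]
        exact hg0
      have hieq : i = Nat.find hex := by
        rcases lt_or_eq_of_le hile with h | h
        · exact absurd hgi (hmin i h g)
        · exact h
      rw [hieq] at hgi
      have h1 : ((g * g0⁻¹ : G) : SL) = 1 := by
        refine hWg _ (hs (Nat.find hex)) _ (g * g0⁻¹).2 _ hg0 ?_
        rw [← act2_mul, ← Subgroup.coe_mul, inv_mul_cancel_right]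
        exact hgi
      have h2 : g * g0⁻¹ = 1 := Subtype.ext h1
      exact mul_inv_eq_one.1 h2

end SQD
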