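import Pool.Agent.SQD.StA

/-!
# SQD, module FD2: unfolding over a fundamental domain
-/

set_option autoImplicit false

open MeasureTheory

namespace SQD

namespace FD2

lemma act2_inv_act2 (g : SL) (p : V × V) : act2 g⁻¹ (act2 g p) = p := by
  unfold act2
  simp only [act_inv_act]

lemma term_eq (hM : S_MPR) (g : SL) (D S : Set (V × V)) (hD : MeasurableSet D)
    (hS : NullMeasurableSet S volume) :
    ∫⁻ p in D, S.indicator (fun _ => (1 : ENNReal)) (act2 g p) =
      volume (S ∩ (act2 g⁻¹) ⁻¹' D) := by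
  have hg := hM.2 g
  have hgi := hM.2 g⁻¹
  have hpre : NullMeasurableSet ((act2 g) ⁻¹' S) volume :=
    hS.preimage hg.quasiMeasurePreserving
  have h1 : (fun p : V × V => S.indicator (fun _ => (1 : ENNReal)) (act2 g p)) =
      ((act2 g) ⁻¹' S).indicator 1 := by
    funext p
    by_cases hp : act2 g p ∈ S
    · rw [Set.indicator_of_mem hp, Set.indicator_of_mem (show p ∈ (act2 g) ⁻¹' S from hp)]
      rfl
    · rw [Set.indicator_of_notMem hp, Set.indicator_of_notMem (show p ∉ (act2 g) ⁻¹' S from hp)]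
  rw [h1, lintegral_indicator_one₀ (hpre.mono_ac Measure.restrict_le_self.absolutelyContinuous),
    Measure.restrict_apply₀' hD.nullMeasurableSet]
  have h2 : (act2 g) ⁻¹' S ∩ D = (act2 g) ⁻¹' (S ∩ (act2 g⁻¹) ⁻¹' D) := by
    ext p
    simp only [Set.mem_inter_iff, Set.mem_preimage, act2_inv_act2]
  have h3 : NullMeasurableSet (S ∩ (act2 g⁻¹) ⁻¹' D) volume :=
    hS.inter (hgi.measurable hD).nullMeasurableSet
  rw [h2, hg.measure_preimage h3]

end FD2

theorem t_FD2 : M_FD2 := by
  intro hC hF hM G hG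
  obtain ⟨D, hD, hDY, hu⟩ := hF G hG
  have hcount : Countable G := hC G hG
  refine ⟨D, hD, fun S hS hSY => ?_⟩
  have hae : ∀ g : G, AEMeasurable
      (fun p : V × V => S.indicator (fun _ => (1 : ENNReal)) (act2 g p))
      (volume.restrict D) := by
    intro g
    have hg := hM.2 (g : SL)
    have hpre : NullMeasurableSet ((act2 (g : SL)) ⁻¹' S) volume :=
      hS.preimage hg.quasiMeasurePreserving
    have h1 : (fun p : V × V => S.indicator (fun _ => (1 : ENNReal)) (act2 g p)) =
        ((act2 (g : SL)) ⁻¹' S).indicator (fun _ => (1 : ENNReal)) := by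
      funext p
      by_cases hp : act2 (g : SL) p ∈ S
      · rw [Set.indicator_of_mem hp,
          Set.indicator_of_mem (show p ∈ (act2 (g : SL)) ⁻¹' S from hp)]
      · rw [Set.indicator_of_notMem hp,
          Set.indicator_of_notMem (show p ∉ (act2 (g : SL)) ⁻¹' S from hp)]
    rw [h1]
    exact (aemeasurable_const.indicator₀
      (hpre.mono_ac Measure.restrict_le_self.absolutelyContinuous))
  rw [lintegral_tsum hae]
  have hterm : ∀ g : G, ∫⁻ p in D, S.indicator (fun _ => (1 : ENNReal)) (act2 g p) =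
      volume (S ∩ (act2 ((g⁻¹ : G) : SL)) ⁻¹' D) := by
    intro g
    exact FD2.term_eq hM (g : SL) D S hD hS
  simp_rw [hterm]
  have hsw : ∑' g : G, volume (S ∩ (act2 ((g⁻¹ : G) : SL)) ⁻¹' D) =
      ∑' h : G, volume (S ∩ (act2 (h : SL)) ⁻¹' D) :=
    (Equiv.inv G).tsum_eq (fun h : G => volume (S ∩ (act2 (h : SL)) ⁻¹' D))
  rw [hsw, ← measure_iUnion₀]
  · congr 1
    ext p
    simp only [Set.mem_iUnion, Set.mem_inter_iff, Set.mem_preimage]
    constructor
    · intro hp
      obtain ⟨g, hg, _⟩ := hu p (hSY hp)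
      exact ⟨g, hp, hg⟩
    · rintro ⟨g, hp, _⟩
      exact hp
  · intro g h hgh
    apply Disjoint.aedisjoint
    rw [Set.disjoint_left]
    rintro p ⟨hp, hpg⟩ ⟨_, hph⟩
    exact hgh ((hu p (hSY hp)).unique hpg hph)
  · intro g
    exact hS.inter ((hM.2 (g : SL)).measurable hD).nullMeasurableSet

end SQD
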