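import Pool.Agent.SQD.StA

/-!
# SQD, module FEX: extensions of groups with the condition
-/

set_option autoImplicit false

namespace SQD

theorem t_FEX : S_FEX := by
  classical
  intro G A _ _ ψ hψ hA hN K m
  obtain ⟨FA, HA, hFA, hKA, hcA⟩ := hA (K.image ψ) (2 * m + 1)
  let s : A → G := fun x => (hψ x).choose
  have hs : ∀ x, ψ (s x) = x := fun x => (hψ x).choose_spec
  let nn : G × A → ψ.ker := fun p => ⟨(s (ψ p.1 * p.2))⁻¹ * (p.1 * s p.2), by
    rw [MonoidHom.mem_ker, map_mul, map_inv, map_mul, hs, hs, inv_mul_cancel]⟩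
  obtain ⟨FN, HN, hFN, hKN, hcN⟩ := hN ((K ×ˢ FA).image nn) (2 * m + 1)
  refine ⟨(FA ×ˢ FN).image fun p => s p.1 * (p.2 : G),
    (HA ×ˢ HN).image fun p => s p.1 * (p.2 : G), (hFA.product hFN).image _, ?_, ?_⟩
  · intro k hk f hf
    obtain ⟨⟨x, n⟩, hxn, rfl⟩ := Finset.mem_image.1 hf
    obtain ⟨hx, hn⟩ := Finset.mem_product.1 hxn
    refine Finset.mem_image.2 ⟨(ψ k * x, nn (k, x) * n), Finset.mem_product.2 ⟨?_, ?_⟩, ?_⟩
    · exact hKA _ (Finset.mem_image_of_mem _ hk) _ hx
    · exact hKN _ (Finset.mem_image_of_mem _ (Finset.mem_product.2 ⟨hk, hx⟩)) _ hn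
    · simp only [nn, Subgroup.coe_mul]
      group
  · have hF : ((FA ×ˢ FN).image fun p => s p.1 * (p.2 : G)).card = FA.card * FN.card := by
      rw [Finset.card_image_of_injective, Finset.card_product]
      rintro ⟨x, n⟩ ⟨x', n'⟩ h
      have h' : s x * (n : G) = s x' * (n' : G) := h
      have h1 := congrArg ψ h'
      rw [map_mul, map_mul, hs, hs, (MonoidHom.mem_ker).1 n.2, (MonoidHom.mem_ker).1 n'.2,
        mul_one, mul_one] at h1
      subst h1
      have h2 : n = n' := Subtype.ext (mul_left_cancel h')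
      rw [h2]
    have hH : ((HA ×ˢ HN).image fun p => s p.1 * (p.2 : G)).card ≤ HA.card * HN.card := by
      refine Finset.card_image_le.trans ?_
      rw [Finset.card_product]
    rw [hF]
    refine (Nat.mul_le_mul_left m hH).trans ?_
    have h1 : (2 * m + 1) ^ 2 * (HA.card * HN.card) ≤
        (2 * m + 1 + 1) ^ 2 * (FA.card * FN.card) := by
      calc (2 * m + 1) ^ 2 * (HA.card * HN.card)
          = ((2 * m + 1) * HA.card) * ((2 * m + 1) * HN.card) := by ring
        _ ≤ ((2 * m + 1 + 1) * FA.card) * ((2 * m + 1 + 1) * FN.card) :=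
            Nat.mul_le_mul hcA hcN
        _ = (2 * m + 1 + 1) ^ 2 * (FA.card * FN.card) := by ring
    have h2 : m * (2 * m + 1 + 1) ^ 2 ≤ (m + 1) * (2 * m + 1) ^ 2 := by nlinarith
    have h3 : (2 * m + 1) ^ 2 * (m * (HA.card * HN.card)) ≤
        (2 * m + 1) ^ 2 * ((m + 1) * (FA.card * FN.card)) := by
      calc (2 * m + 1) ^ 2 * (m * (HA.card * HN.card))
          = m * ((2 * m + 1) ^ 2 * (HA.card * HN.card)) := by ring
        _ ≤ m * ((2 * m + 1 + 1) ^ 2 * (FA.card * FN.card)) := Nat.mul_le_mul_left _ h1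
        _ = (m * (2 * m + 1 + 1) ^ 2) * (FA.card * FN.card) := by ring
        _ ≤ ((m + 1) * (2 * m + 1) ^ 2) * (FA.card * FN.card) := Nat.mul_le_mul_right _ h2
        _ = (2 * m + 1) ^ 2 * ((m + 1) * (FA.card * FN.card)) := by ring
    exact Nat.le_of_mul_le_mul_left h3 (by positivity)

end SQD
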