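import Pool.Agent.SQD.StA

/-!
# SQD, module FND: the group `F` is not dense
-/

set_option autoImplicit false

namespace SQD

namespace FND

/-- The homomorphism from the integral matrices. -/
noncomputable def ι : Matrix.SpecialLinearGroup (Fin 2) ℤ →* SL :=
  Matrix.SpecialLinearGroup.map (Int.castRingHom ℝ)

lemma ι_apply (g : Matrix.SpecialLinearGroup (Fin 2) ℤ) (i j : Fin 2) :
    ((ι g : SL) : M2) i j = ((g : Matrix (Fin 2) (Fin 2) ℤ) i j : ℝ) := by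
  simp [ι]

/-- The integral matrix `a`. -/
def az : Matrix.SpecialLinearGroup (Fin 2) ℤ :=
  ⟨!![1, 2; 0, 1], by simp [Matrix.det_fin_two_of]⟩

/-- The integral matrix `b`. -/
def bz : Matrix.SpecialLinearGroup (Fin 2) ℤ :=
  ⟨!![1, 0; 2, 1], by simp [Matrix.det_fin_two_of]⟩

lemma ι_az : ι az = a := by
  ext i j
  rw [ι_apply]
  fin_cases i <;> fin_cases j <;> simp [a, az]

lemma ι_bz : ι bz = b := by
  ext i j
  rw [ι_apply]
  fin_cases i <;> fin_cases j <;> simp [b, bz]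

lemma F_le : F ≤ ι.range := by
  unfold F
  rw [Subgroup.closure_le]
  intro x hx
  rcases hx with rfl | rfl
  · exact ⟨az, ι_az⟩
  · exact ⟨bz, ι_bz⟩

/-- A matrix with an entry which is not an integer. -/
noncomputable def g₀ : SL := ⟨!![1, 1 / 2; 0, 1], by simp [Matrix.det_fin_two_of]⟩

end FND

open FND in
theorem t_FND : S_FND := by
  intro hd
  have h1 : IsOpen {g : SL | (g : M2) 0 1 ∈ Set.Ioo (1 / 4 : ℝ) (3 / 4)} := by
    have hc : Continuous fun g : SL => (g : M2) 0 1 :=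
      (continuous_apply 1).comp ((continuous_apply 0).comp continuous_subtype_val)
    exact isOpen_Ioo.preimage hc
  have h2 : ({g : SL | (g : M2) 0 1 ∈ Set.Ioo (1 / 4 : ℝ) (3 / 4)} : Set SL).Nonempty := by
    refine ⟨g₀, ?_⟩
    change ((g₀ : SL) : M2) 0 1 ∈ Set.Ioo (1 / 4 : ℝ) (3 / 4)
    have h3 : ((g₀ : SL) : M2) 0 1 = 1 / 2 := by simp [g₀]
    rw [h3]
    constructor <;> norm_num
  obtain ⟨g, hg1, hg2⟩ := hd.inter_open_nonempty _ h1 h2
  obtain ⟨z, rfl⟩ := F_le hg2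
  change ((ι z : SL) : M2) 0 1 ∈ Set.Ioo (1 / 4 : ℝ) (3 / 4) at hg1
  rw [ι_apply] at hg1
  obtain ⟨h3, h4⟩ := hg1
  have h5 : (0 : ℝ) < ((z : Matrix (Fin 2) (Fin 2) ℤ) 0 1 : ℝ) := by linarith
  have h6 : ((z : Matrix (Fin 2) (Fin 2) ℤ) 0 1 : ℝ) < 1 := by linarith
  have h7 : 0 < (z : Matrix (Fin 2) (Fin 2) ℤ) 0 1 := by exact_mod_cast h5
  have h8 : (z : Matrix (Fin 2) (Fin 2) ℤ) 0 1 < 1 := by exact_mod_cast h6
  omega

end SQD
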