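import Pool.Agent.SQD.StA

/-!
# SQD, module FOL: groups with a commutative kernel and a commutative quotient have the condition of Folner
-/

set_option autoImplicit false

namespace SQD

theorem t_FOL : M_FOL := by
  intro hFAB hFEX G A _ _ ψ hcomm
  refine hFEX G ψ.range ψ.rangeRestrict ψ.rangeRestrict_surjective (hFAB ψ.range) ?_
  have hc : ∀ x y : ψ.rangeRestrict.ker, x * y = y * x := by
    rintro ⟨x, hx⟩ ⟨y, hy⟩
    rw [MonoidHom.ker_rangeRestrict, MonoidHom.mem_ker] at hx hy
    exact Subtype.ext (hcomm x y hx hy)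
  let _ : CommGroup ψ.rangeRestrict.ker :=
    { (inferInstance : Group ψ.rangeRestrict.ker) with mul_comm := hc }
  exact hFAB ψ.rangeRestrict.ker

end SQD
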