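import Pool.Agent.SQD.StA

/-!
# SQD, module GEN: three independent one parameter groups generate `SL₂(ℝ)`
-/

set_option autoImplicit false

open Filter Topology NormedSpace

namespace SQD

namespace GEN

/-- Products of four one parameter groups whose generators span the algebra cover a neighbourhood
of one. -/
lemma map_nhds {A : Type*} [NormedRing A] [NormedAlgebra ℝ A] [CompleteSpace A] (Y : Fin 4 → A)
    (hY : ∀ a : A, ∃ t : Fin 4 → ℝ, t 0 • Y 0 + t 1 • Y 1 + t 2 • Y 2 + t 3 • Y 3 = a) :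
    map (fun t : Fin 4 → ℝ => exp (t 0 • Y 0) * exp (t 1 • Y 1) * exp (t 2 • Y 2) *
      exp (t 3 • Y 3)) (𝓝 0) = 𝓝 1 := by
  have h1 : ∀ i : Fin 4, HasStrictFDerivAt (fun t : Fin 4 → ℝ => exp (t i • Y i))
      ((ContinuousLinearMap.proj (R := ℝ) (φ := fun _ : Fin 4 => ℝ) i).smulRight (Y i)) 0 := by
    intro i
    have hl : HasStrictFDerivAt (fun t : Fin 4 → ℝ => t i • Y i)
        ((ContinuousLinearMap.proj (R := ℝ) (φ := fun _ : Fin 4 => ℝ) i).smulRight (Y i)) 0 :=
      ((ContinuousLinearMap.proj (R := ℝ) (φ := fun _ : Fin 4 => ℝ) i).smulRight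
        (Y i)).hasStrictFDerivAt
    have he : HasStrictFDerivAt (exp : A → A) (1 : A →L[ℝ] A)
        ((fun t : Fin 4 → ℝ => t i • Y i) 0) := by
      simp only [Pi.zero_apply, zero_smul]
      exact hasStrictFDerivAt_exp_zero
    exact he.comp (0 : Fin 4 → ℝ) hl
  have h2 := (((h1 0).mul' (h1 1)).mul' (h1 2)).mul' (h1 3)
  have h3 := h2.map_nhds_eq_of_surj (by
    rw [LinearMap.range_eq_top]
    intro a
    obtain ⟨t, ht⟩ := hY a
    refine ⟨t, ?_⟩
    rw [← ht]
    simp
    abel)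
  refine Eq.trans h3 ?_
  simp

/-- The case of two by two matrices. -/
lemma map_nhds_M2 (Y : Fin 4 → M2)
    (hY : ∀ a : M2, ∃ t : Fin 4 → ℝ, t 0 • Y 0 + t 1 • Y 1 + t 2 • Y 2 + t 3 • Y 3 = a) :
    map (fun t : Fin 4 → ℝ => exp (t 0 • Y 0) * exp (t 1 • Y 1) * exp (t 2 • Y 2) *
      exp (t 3 • Y 3)) (𝓝 0) = 𝓝 1 := by
  let _ : NormedRing M2 := Matrix.linftyOpNormedRing
  let _ : NormedAlgebra ℝ M2 := Matrix.linftyOpNormedAlgebra
  exact map_nhds Y hY

/-- Four independent matrices. -/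
lemma surj (X : Fin 3 → M2) (hX : LinearIndependent ℝ X) (ht : ∀ i, (X i).trace = 0) (a : M2) :
    ∃ t : Fin 4 → ℝ, t 0 • (1 : M2) + t 1 • X 0 + t 2 • X 1 + t 3 • X 2 = a := by
  have hli : LinearIndependent ℝ (Fin.cons (1 : M2) X : Fin 4 → M2) := by
    rw [linearIndependent_finCons]
    refine ⟨hX, fun h => ?_⟩
    have hle : Submodule.span ℝ (Set.range X) ≤ LinearMap.ker (Matrix.traceLinearMap (Fin 2) ℝ ℝ) := by
      rw [Submodule.span_le]
      rintro _ ⟨i, rfl⟩
      exact ht i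
    have := hle h
    rw [LinearMap.mem_ker, Matrix.traceLinearMap_apply, Matrix.trace_one] at this
    norm_num at this
  have hsp := hli.span_eq_top_of_card_eq_finrank (by
    rw [Module.finrank_matrix]
    simp)
  have ha : a ∈ Submodule.span ℝ (Set.range (Fin.cons (1 : M2) X : Fin 4 → M2)) := by
    rw [hsp]
    trivial
  rw [Submodule.mem_span_range_iff_exists_fun] at ha
  obtain ⟨t, ht⟩ := ha
  refine ⟨t, ?_⟩
  rw [← ht, Fin.sum_univ_four]
  rfl

lemma exp_scalar (t : ℝ) : exp (t • (1 : M2)) = Real.exp t • (1 : M2) := by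
  rw [← Matrix.diagonal_one, ← Matrix.diagonal_smul, Matrix.exp_diagonal, ← Matrix.diagonal_smul]
  congr 1
  ext i
  simp [Real.exp_eq_exp_ℝ]

end GEN

open GEN in
theorem t_GEN : M_GEN := by
  intro hOPN H X hX htr hH
  refine hOPN H ?_
  set f : (Fin 4 → ℝ) → M2 := fun t => exp (t 0 • (1 : M2)) * exp (t 1 • X 0) * exp (t 2 • X 1) *
      exp (t 3 • X 2) with hf
  have hmap : map f (𝓝 0) = 𝓝 1 := by
    have := map_nhds_M2 (Fin.cons (1 : M2) X : Fin 4 → M2) (surj X hX htr)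
    exact this
  have hR : Set.range f ∈ 𝓝 (1 : M2) := by
    rw [← hmap, mem_map]
    simp
  refine ⟨(fun g : SL => (g : M2)) ⁻¹' interior (Set.range f),
    isOpen_interior.preimage continuous_subtype_val, ?_, ?_⟩
  · rw [Set.mem_preimage]
    exact mem_interior_iff_mem_nhds.2 hR
  · intro g hg
    obtain ⟨t, ht⟩ := interior_subset hg
    simp only at ht
    obtain ⟨h0, h0H, e0⟩ := hH 0 (t 1)
    obtain ⟨h1, h1H, e1⟩ := hH 1 (t 2)
    obtain ⟨h2, h2H, e2⟩ := hH 2 (t 3)
    rw [hf] at ht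
    simp only at ht
    rw [← e0, ← e1, ← e2, exp_scalar] at ht
    have hd := congrArg Matrix.det ht
    rw [Matrix.det_mul, Matrix.det_mul, Matrix.det_mul, h0.2, h1.2, h2.2, g.2, Matrix.det_smul,
      Matrix.det_one] at hd
    simp only [mul_one, Fintype.card_fin] at hd
    have hexp : Real.exp (t 0) = 1 := by
      have hp := Real.exp_pos (t 0)
      nlinarith
    rw [hexp, one_smul, one_mul] at ht
    have : g = h0 * h1 * h2 := by
      apply Subtype.ext
      rw [← ht]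
      simp
    rw [this]
    exact H.mul_mem (H.mul_mem h0H h1H) h2H

end SQD
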