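import Pool.Agent.SQD.StA

/-!
# SQD, module HAL: Hall's theorem for piecewise maps
-/

set_option autoImplicit false

open MeasureTheory

namespace SQD

theorem t_HAL : S_HAL := by
  classical
  intro K E E' c hEx
  -- the candidates
  let t : (E × Fin c) → Finset V := fun p => (K.image fun κ => act κ (p.1 : V)).filter (· ∈ E')
  have hall : ∀ s : Finset (E × Fin c), s.card ≤ (s.biUnion t).card := by
    intro s
    obtain ⟨Y, hYE, hY, hcard⟩ := hEx (s.image fun p => (p.1 : V)) (by
      intro x hx
      rw [Finset.coe_image] at hx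
      obtain ⟨p, _, rfl⟩ := hx
      exact p.1.2)
    have h1 : s.card ≤ c * (s.image fun p => (p.1 : V)).card := by
      have hsub : s.card ≤ ((s.image fun p => (p.1 : V)) ×ˢ (Finset.univ : Finset (Fin c))).card := by
        apply Finset.card_le_card_of_injOn (fun p => ((p.1 : V), p.2))
        · intro p hp
          simp only [Finset.coe_product, Set.mem_prod, Finset.mem_coe, Finset.mem_image,
            Finset.mem_univ, and_true]
          exact ⟨p, hp, rfl⟩
        · intro p _ q _ h
          have h1 := (Prod.ext_iff.mp h).1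
          have h2 := (Prod.ext_iff.mp h).2
          exact Prod.ext (Subtype.ext h1) h2
      rw [Finset.card_product, Finset.card_univ, Fintype.card_fin, mul_comm] at hsub
      exact hsub
    refine h1.trans (hcard.trans (Finset.card_le_card ?_))
    intro y hy
    obtain ⟨κ, hκ, x, hx, rfl⟩ := hY y hy
    rw [Finset.mem_image] at hx
    obtain ⟨p, hp, rfl⟩ := hx
    rw [Finset.mem_biUnion]
    refine ⟨p, hp, ?_⟩
    rw [Finset.mem_filter, Finset.mem_image]
    exact ⟨⟨κ, hκ, rfl⟩, hYE hy⟩
  obtain ⟨f, hinj, hf⟩ := (Finset.all_card_le_biUnion_card_iff_exists_injective t).mp hall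
  refine ⟨fun i x => if hx : x ∈ E then f (⟨x, hx⟩, i) else 0, ?_, ?_⟩
  · intro i x hx
    have h := hf (⟨x, hx⟩, i)
    rw [Finset.mem_filter, Finset.mem_image] at h
    obtain ⟨⟨κ, hκ, h1⟩, h2⟩ := h
    simp only [dif_pos hx]
    exact ⟨h2, κ, hκ, h1.symm⟩
  · intro i j x hx y hy h
    simp only [dif_pos hx, dif_pos hy] at h
    have h1 := hinj h
    have h2 := (Prod.ext_iff.mp h1).1
    have h3 := (Prod.ext_iff.mp h1).2
    exact ⟨h3, congrArg Subtype.val h2⟩

end SQD
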