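import Pool.Agent.SQD.StB

/-!
# SQD, module JOR: a dense subgroup contains a nondiscrete two generator subgroup
-/

set_option autoImplicit false

open MeasureTheory

namespace SQD

namespace JOR

/-- The sum of the absolute values of the entries. -/
def N (A : M2) : ℝ := |A 0 0| + |A 0 1| + |A 1 0| + |A 1 1|

lemma N_nonneg (A : M2) : 0 ≤ N A := by unfold N; positivity

lemma N_add (A B : M2) : N (A + B) ≤ N A + N B := by
  unfold N
  simp only [Matrix.add_apply]
  linarith [abs_add_le (A 0 0) (B 0 0), abs_add_le (A 0 1) (B 0 1), abs_add_le (A 1 0) (B 1 0),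
    abs_add_le (A 1 1) (B 1 1)]

lemma N_neg (A : M2) : N (-A) = N A := by
  unfold N
  simp only [Matrix.neg_apply, abs_neg]

lemma N_sub (A B : M2) : N (A - B) ≤ N A + N B := by
  rw [sub_eq_add_neg, ← N_neg B]
  exact N_add _ _

lemma abs_two (x y z w : ℝ) : |x * y + z * w| ≤ |x| * |y| + |z| * |w| := by
  rw [← abs_mul, ← abs_mul]
  exact abs_add_le _ _

lemma N_mul (A B : M2) : N (A * B) ≤ N A * N B := by
  unfold N
  simp only [Matrix.mul_apply, Fin.sum_univ_two]
  have h1 := abs_two (A 0 0) (B 0 0) (A 0 1) (B 1 0)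
  have h2 := abs_two (A 0 0) (B 0 1) (A 0 1) (B 1 1)
  have h3 := abs_two (A 1 0) (B 0 0) (A 1 1) (B 1 0)
  have h4 := abs_two (A 1 0) (B 0 1) (A 1 1) (B 1 1)
  have a00 := abs_nonneg (A 0 0)
  have a01 := abs_nonneg (A 0 1)
  have a10 := abs_nonneg (A 1 0)
  have a11 := abs_nonneg (A 1 1)
  have b00 := abs_nonneg (B 0 0)
  have b01 := abs_nonneg (B 0 1)
  have b10 := abs_nonneg (B 1 0)
  have b11 := abs_nonneg (B 1 1)
  nlinarith [mul_nonneg a00 b10, mul_nonneg a00 b11, mul_nonneg a01 b00, mul_nonneg a01 b01,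
    mul_nonneg a10 b10, mul_nonneg a10 b11, mul_nonneg a11 b00, mul_nonneg a11 b01]

lemma N_one : N 1 = 2 := by
  unfold N
  norm_num

lemma inv_coe (g : SL) : ((g⁻¹ : SL) : M2) = !![(g : M2) 1 1, -(g : M2) 0 1; -(g : M2) 1 0, (g : M2) 0 0] := by
  rw [Matrix.SpecialLinearGroup.coe_inv, Matrix.adjugate_fin_two]

lemma N_inv (g : SL) : N ((g⁻¹ : SL) : M2) = N (g : M2) := by
  rw [inv_coe]
  unfold N
  simp only [Matrix.of_apply, Matrix.cons_val', Matrix.cons_val_zero, Matrix.cons_val_one,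
    Matrix.cons_val_fin_one, abs_neg]
  ring

/-- The distance to the identity. -/
noncomputable def dist1 (g : SL) : ℝ := N ((g : M2) - 1)

lemma N_le (g : SL) : N (g : M2) ≤ 2 + dist1 g := by
  have h := N_add 1 ((g : M2) - 1)
  rw [add_sub_cancel, N_one] at h
  exact h

lemma continuous_dist1 : Continuous dist1 := by
  unfold dist1 N
  have h : ∀ i j : Fin 2, Continuous fun g : SL => ((g : M2) - 1) i j := fun i j =>
    ((Continuous.subtype_val continuous_id).matrix_elem i j).sub continuous_const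
  exact (((h 0 0).abs.add (h 0 1).abs).add (h 1 0).abs).add (h 1 1).abs

lemma comm_step (a b : SL) (ha : dist1 a ≤ 1 / 32) (hb : dist1 b ≤ 1 / 32) :
    dist1 (b * a * b⁻¹ * a⁻¹) ≤ dist1 b / 2 := by
  have key : ((b * a * b⁻¹ * a⁻¹ : SL) : M2) - 1 =
      (((b : M2) - 1) * ((a : M2) - 1) - ((a : M2) - 1) * ((b : M2) - 1)) * ((b⁻¹ * a⁻¹ : SL) : M2) := by
    have h1 : (((b : M2) - 1) * ((a : M2) - 1) - ((a : M2) - 1) * ((b : M2) - 1))
        = ((b * a : SL) : M2) - ((a * b : SL) : M2) := by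
      rw [Matrix.SpecialLinearGroup.coe_mul, Matrix.SpecialLinearGroup.coe_mul]
      noncomm_ring
    rw [h1, sub_mul, ← Matrix.SpecialLinearGroup.coe_mul, ← Matrix.SpecialLinearGroup.coe_mul]
    have h2 : a * b * (b⁻¹ * a⁻¹) = 1 := by group
    have h3 : b * a * (b⁻¹ * a⁻¹) = b * a * b⁻¹ * a⁻¹ := by group
    rw [h2, h3, Matrix.SpecialLinearGroup.coe_one]
  have hA := N_nonneg ((a : M2) - 1)
  have hB := N_nonneg ((b : M2) - 1)
  have e1 : N (((b : M2) - 1) * ((a : M2) - 1) - ((a : M2) - 1) * ((b : M2) - 1))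
      ≤ 2 * (dist1 b * dist1 a) := by
    have h1 := N_sub (((b : M2) - 1) * ((a : M2) - 1)) (((a : M2) - 1) * ((b : M2) - 1))
    have h2 := N_mul ((b : M2) - 1) ((a : M2) - 1)
    have h3 := N_mul ((a : M2) - 1) ((b : M2) - 1)
    unfold dist1
    nlinarith
  have e2 : N ((b⁻¹ * a⁻¹ : SL) : M2) ≤ 5 := by
    rw [Matrix.SpecialLinearGroup.coe_mul]
    refine (N_mul _ _).trans ?_
    rw [N_inv, N_inv]
    have h1 := N_le a
    have h2 := N_le b
    have h3 := N_nonneg (a : M2)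
    have h4 := N_nonneg (b : M2)
    calc N (b : M2) * N (a : M2) ≤ (2 + 1 / 32) * (2 + 1 / 32) :=
          mul_le_mul (by linarith) (by linarith) h3 (by norm_num)
      _ ≤ 5 := by norm_num
  have e3 := N_mul (((b : M2) - 1) * ((a : M2) - 1) - ((a : M2) - 1) * ((b : M2) - 1))
    ((b⁻¹ * a⁻¹ : SL) : M2)
  rw [← key] at e3
  have hb0 : 0 ≤ dist1 b := hB
  have ha0 : 0 ≤ dist1 a := hA
  calc dist1 (b * a * b⁻¹ * a⁻¹) ≤ _ := e3
    _ ≤ (2 * (dist1 b * dist1 a)) * 5 :=
        mul_le_mul e1 e2 (N_nonneg _) (by positivity)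
    _ ≤ dist1 b / 2 := by nlinarith

/-- The iterated commutators. -/
def seq (a b : SL) : ℕ → SL
  | 0 => b
  | n + 1 => seq a b n * a * (seq a b n)⁻¹ * a⁻¹

lemma seq_mem (a b : SL) (n : ℕ) : seq a b n ∈ Subgroup.closure ({a, b} : Set SL) := by
  have ha : a ∈ Subgroup.closure ({a, b} : Set SL) := Subgroup.subset_closure (by simp)
  have hb : b ∈ Subgroup.closure ({a, b} : Set SL) := Subgroup.subset_closure (by simp)
  induction n with
  | zero => exact hb
  | succ n ih =>
    exact Subgroup.mul_mem _ (Subgroup.mul_mem _ (Subgroup.mul_mem _ ih ha)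
      (Subgroup.inv_mem _ ih)) (Subgroup.inv_mem _ ha)

lemma seq_dist (a b : SL) (ha : dist1 a ≤ 1 / 32) (hb : dist1 b ≤ 1 / 32) (n : ℕ) :
    dist1 (seq a b n) ≤ 1 / 32 * (1 / 2) ^ n := by
  induction n with
  | zero => simpa [seq] using hb
  | succ n ih =>
    have h1 : ((1 : ℝ) / 2) ^ n ≤ 1 := pow_le_one₀ (by norm_num) (by norm_num)
    have h2 := comm_step a (seq a b n) ha (ih.trans (by nlinarith))
    calc dist1 (seq a b (n + 1)) ≤ dist1 (seq a b n) / 2 := h2
      _ ≤ 1 / 32 * (1 / 2) ^ n / 2 := by linarith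
      _ = 1 / 32 * (1 / 2) ^ (n + 1) := by rw [pow_succ]; ring

lemma conj_entries (a b : SL) :
    ((b * a * b⁻¹ : SL) : M2) 1 0 = (a : M2) 1 0 * (b : M2) 1 1 ^ 2
      + ((a : M2) 0 0 - (a : M2) 1 1) * ((b : M2) 1 0 * (b : M2) 1 1) - (a : M2) 0 1 * (b : M2) 1 0 ^ 2 := by
  rw [Matrix.SpecialLinearGroup.coe_mul, Matrix.SpecialLinearGroup.coe_mul, inv_coe]
  simp only [Matrix.mul_apply, Fin.sum_univ_two, Matrix.of_apply, Matrix.cons_val',
    Matrix.cons_val_zero, Matrix.cons_val_one, Matrix.cons_val_fin_one]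
  ring

lemma neg_disc (a : SL) (ha : |(a : M2).trace| < 2) :
    ((a : M2) 0 0 - (a : M2) 1 1) ^ 2 + 4 * ((a : M2) 0 1 * (a : M2) 1 0) < 0 := by
  have h1 := det_eq a
  rw [Matrix.trace_fin_two] at ha
  have h2 := sq_lt_sq' (by linarith [(abs_lt.1 ha).1] : -2 < (a : M2) 0 0 + (a : M2) 1 1) (abs_lt.1 ha).2
  nlinarith

lemma step_comm (a b : SL) (ha : |(a : M2).trace| < 2) (hab : b * a ≠ a * b) :
    (b * a * b⁻¹ * a⁻¹) * a ≠ a * (b * a * b⁻¹ * a⁻¹) := by
  intro h
  -- the conjugate commutes with `a`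
  have hc : (b * a * b⁻¹) * a = a * (b * a * b⁻¹) := by
    have h1 : (b * a * b⁻¹ * a⁻¹) * a = b * a * b⁻¹ := by group
    rw [h1] at h
    calc (b * a * b⁻¹) * a = (a * (b * a * b⁻¹ * a⁻¹)) * a := by rw [← h]
      _ = a * (b * a * b⁻¹) := by group
  set c : SL := b * a * b⁻¹ with hcdef
  have hd := neg_disc a ha
  have hce := conj_entries a b
  rw [← hcdef] at hce
  -- trace of c
  have htr : (c : M2) 0 0 + (c : M2) 1 1 = (a : M2) 0 0 + (a : M2) 1 1 := by
    have h1 : (c : M2).trace = (a : M2).trace := by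
      rw [hcdef, Matrix.SpecialLinearGroup.coe_mul, Matrix.SpecialLinearGroup.coe_mul,
        Matrix.mul_assoc, Matrix.trace_mul_comm, Matrix.mul_assoc, ← Matrix.SpecialLinearGroup.coe_mul,
        inv_mul_cancel, Matrix.SpecialLinearGroup.coe_one, Matrix.mul_one]
    rw [Matrix.trace_fin_two, Matrix.trace_fin_two] at h1
    exact h1
  have hdet := det_eq c
  have hdeta := det_eq a
  -- commutation in entries
  have hcm : (c : M2) * (a : M2) = (a : M2) * (c : M2) := by
    rw [← Matrix.SpecialLinearGroup.coe_mul, ← Matrix.SpecialLinearGroup.coe_mul, hc]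
  have e00 := congrFun (congrFun hcm 0) 0
  have e01 := congrFun (congrFun hcm 0) 1
  have e10 := congrFun (congrFun hcm 1) 0
  simp only [Matrix.mul_apply, Fin.sum_univ_two] at e00 e01 e10
  generalize hp : (a : M2) 0 0 = p at *
  generalize hq : (a : M2) 0 1 = q at *
  generalize hr : (a : M2) 1 0 = r at *
  generalize hs : (a : M2) 1 1 = s at *
  generalize hx : (c : M2) 0 0 = x at *
  generalize hy : (c : M2) 0 1 = y at *
  generalize hz : (c : M2) 1 0 = z at *
  generalize hw : (c : M2) 1 1 = w at *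
  have hr0 : r ≠ 0 := by
    rintro rfl
    nlinarith [sq_nonneg (p - s)]
  -- `z = t r`, `y = t q`, `x - w = t (p - s)`
  obtain ⟨t, ht⟩ : ∃ t : ℝ, z = t * r := ⟨z / r, by field_simp⟩
  have hy' : y = t * q := by
    have h1 : y * r = q * z := by linarith
    have h2 : r * (y - t * q) = 0 := by rw [ht] at h1; linarith
    have h3 := (mul_eq_zero.1 h2).resolve_left hr0
    linarith
  have hxw : x - w = t * (p - s) := by
    have h1 : z * (p - s) = r * (x - w) := by linarith
    have h2 : r * ((x - w) - t * (p - s)) = 0 := by rw [ht] at h1; linarith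
    have h3 := (mul_eq_zero.1 h2).resolve_left hr0
    linarith
  have hdisc : (x - w) ^ 2 + 4 * (y * z) = (p - s) ^ 2 + 4 * (q * r) := by
    have h1 : (x + w) ^ 2 = (p + s) ^ 2 := by rw [htr]
    nlinarith
  have ht2 : t ^ 2 = 1 := by
    rw [hxw, hy', ht] at hdisc
    have h1 : (t ^ 2 - 1) * ((p - s) ^ 2 + 4 * (q * r)) = 0 := by linarith [hdisc]
    have h2 := (mul_eq_zero.1 h1).resolve_right (ne_of_lt hd)
    linarith
  have ht' : (t - 1) * (t + 1) = 0 := by linarith
  rcases mul_eq_zero.1 ht' with h1 | h1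
  · -- `c = a`
    have ht1 : t = 1 := by linarith
    rw [ht1, one_mul] at ht hy' hxw
    have hx' : x = p := by linarith
    have hw' : w = s := by linarith
    apply hab
    have hca : c = a := by
      apply Matrix.SpecialLinearGroup.ext
      intro i j
      fin_cases i <;> fin_cases j
      · simp only [Fin.zero_eta]; rw [hx, hp, hx']
      · simp only [Fin.zero_eta, Fin.mk_one]; rw [hy, hq, hy']
      · simp only [Fin.zero_eta, Fin.mk_one]; rw [hz, hr, ht]
      · simp only [Fin.mk_one]; rw [hw, hs, hw']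
    calc b * a = (b * a * b⁻¹) * b := by group
      _ = a * b := by rw [← hcdef, hca]
  · have ht1 : t = -1 := by linarith
    rw [ht1] at ht
    rw [ht] at hce
    have h2 : 0 < r ^ 2 := by positivity
    have h3 : 4 * r * (-1 * r) = 4 * r * (r * (b : M2) 1 1 ^ 2
        + (p - s) * ((b : M2) 1 0 * (b : M2) 1 1) - q * (b : M2) 1 0 ^ 2) :=
      congrArg (fun t : ℝ => 4 * r * t) hce
    have h4 := sq_nonneg (2 * r * (b : M2) 1 1 + (p - s) * (b : M2) 1 0)
    have h5 := mul_nonneg (sq_nonneg ((b : M2) 1 0)) (neg_nonneg.2 hd.le)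
    have h6 : 4 * r * (r * (b : M2) 1 1 ^ 2 + (p - s) * ((b : M2) 1 0 * (b : M2) 1 1)
        - q * (b : M2) 1 0 ^ 2) = (2 * r * (b : M2) 1 1 + (p - s) * (b : M2) 1 0) ^ 2
        + (b : M2) 1 0 ^ 2 * (-((p - s) ^ 2 + 4 * (q * r))) := by ring
    rw [h6] at h3
    linarith

lemma seq_comm (a b : SL) (ha : |(a : M2).trace| < 2) (hab : b * a ≠ a * b) (n : ℕ) :
    seq a b n * a ≠ a * seq a b n := by
  induction n with
  | zero => exact hab
  | succ n ih => exact step_comm a (seq a b n) ha ih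

lemma tendsto_one (f : ℕ → SL) (h : ∀ n, dist1 (f n) ≤ 1 / 32 * (1 / 2) ^ n) :
    Filter.Tendsto f Filter.atTop (nhds 1) := by
  have hemb : Topology.IsClosedEmbedding ((↑) : SL → M2) :=
    Matrix.SpecialLinearGroup.isClosedEmbedding_val
  refine (hemb.isInducing.tendsto_nhds_iff).2 ?_
  refine tendsto_pi_nhds.2 fun i => tendsto_pi_nhds.2 fun j => ?_
  have hlim : Filter.Tendsto (fun n : ℕ => (1 : ℝ) / 32 * (1 / 2) ^ n) Filter.atTop (nhds 0) := by
    have h1 := (tendsto_pow_atTop_nhds_zero_of_lt_one (by norm_num : (0 : ℝ) ≤ 1 / 2)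
      (by norm_num)).const_mul ((1 : ℝ) / 32)
    simpa using h1
  rw [tendsto_iff_dist_tendsto_zero]
  refine squeeze_zero (fun _ => dist_nonneg) (fun n => ?_) hlim
  refine le_trans ?_ (h n)
  rw [Real.dist_eq]
  have h2 : |((f n : SL) : M2) i j - (1 : M2) i j| ≤ N (((f n : SL) : M2) - 1) := by
    unfold N
    have a00 := abs_nonneg ((((f n : SL) : M2) - 1) 0 0)
    have a01 := abs_nonneg ((((f n : SL) : M2) - 1) 0 1)
    have a10 := abs_nonneg ((((f n : SL) : M2) - 1) 1 0)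
    have a11 := abs_nonneg ((((f n : SL) : M2) - 1) 1 1)
    rw [← Matrix.sub_apply]
    fin_cases i <;> fin_cases j <;> simp only [Fin.zero_eta, Fin.mk_one] <;> linarith
  exact h2

/-- A small rotation. -/
noncomputable def rot : SL := ⟨!![999999 / 1000001, -(2000 / 1000001); 2000 / 1000001, 999999 / 1000001], by
  rw [Matrix.det_fin_two_of]; norm_num⟩

/-- A small shear. -/
noncomputable def sh : SL := ⟨!![1, 1 / 100; 0, 1], by rw [Matrix.det_fin_two_of]; norm_num⟩

lemma continuous_tr : Continuous fun g : SL => (g : M2).trace :=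
  (Continuous.subtype_val continuous_id).matrix_trace

lemma open_a : IsOpen {g : SL | |(g : M2).trace| < 2 ∧ (g : M2).trace ≠ 0 ∧ dist1 g < 1 / 32} :=
  (isOpen_lt continuous_tr.abs continuous_const).inter
    ((isOpen_ne_fun continuous_tr continuous_const).inter
      (isOpen_lt continuous_dist1 continuous_const))

lemma ne_a : ({g : SL | |(g : M2).trace| < 2 ∧ (g : M2).trace ≠ 0 ∧ dist1 g < 1 / 32}).Nonempty := by
  refine ⟨rot, ?_, ?_, ?_⟩
  · simp only [rot, Matrix.trace_fin_two_of]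
    rw [abs_lt]
    norm_num
  · simp only [rot, Matrix.trace_fin_two_of]
    norm_num
  · simp only [dist1, N, rot, Matrix.sub_apply, Matrix.of_apply, Matrix.cons_val',
      Matrix.cons_val_zero, Matrix.cons_val_one, Matrix.cons_val_fin_one, Matrix.one_apply]
    norm_num [abs_of_pos, abs_of_neg]

lemma open_b (a : SL) : IsOpen {g : SL | (g : M2).trace ≠ 0 ∧ dist1 g < 1 / 32 ∧ g * a ≠ a * g} :=
  (isOpen_ne_fun continuous_tr continuous_const).inter
    ((isOpen_lt continuous_dist1 continuous_const).inter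
      (isOpen_ne_fun (continuous_id.mul continuous_const) (continuous_const.mul continuous_id)))

lemma ne_b (a : SL) (ha : |(a : M2).trace| < 2) :
    ({g : SL | (g : M2).trace ≠ 0 ∧ dist1 g < 1 / 32 ∧ g * a ≠ a * g}).Nonempty := by
  refine ⟨sh, ?_, ?_, ?_⟩
  · simp only [sh, Matrix.trace_fin_two_of]
    norm_num
  · simp only [dist1, N, sh, Matrix.sub_apply, Matrix.of_apply, Matrix.cons_val',
      Matrix.cons_val_zero, Matrix.cons_val_one, Matrix.cons_val_fin_one, Matrix.one_apply]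
    norm_num [abs_of_pos, abs_of_neg]
  · intro h
    have h1 := congrArg (fun g : SL => (g : M2) 0 0) h
    simp only [Matrix.SpecialLinearGroup.coe_mul, Matrix.mul_apply, Fin.sum_univ_two, sh,
      Matrix.of_apply, Matrix.cons_val', Matrix.cons_val_zero, Matrix.cons_val_one,
      Matrix.cons_val_fin_one] at h1
    have h2 := neg_disc a ha
    have h3 : (a : M2) 1 0 = 0 := by linarith
    rw [h3] at h2
    nlinarith [sq_nonneg ((a : M2) 0 0 - (a : M2) 1 1)]

end JOR

theorem t_JOR : S_JOR := by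
  intro G hG
  obtain ⟨a, haU, haG⟩ := hG.inter_open_nonempty _ JOR.open_a JOR.ne_a
  obtain ⟨b, hbU, hbG⟩ := hG.inter_open_nonempty _ (JOR.open_b a) (JOR.ne_b a haU.1)
  refine ⟨a, haG, b, hbG, haU.1, haU.2.1, hbU.1, fun h => hbU.2.2 h.symm, ?_⟩
  rintro ⟨U, hU, h1U, hdis⟩
  have ht := JOR.tendsto_one (JOR.seq a b)
    (JOR.seq_dist a b haU.2.2.le hbU.2.1.le)
  obtain ⟨n, hn⟩ := (ht.eventually (hU.mem_nhds h1U)).exists
  have h1 := hdis _ (JOR.seq_mem a b n) hn
  apply JOR.seq_comm a b haU.1 hbU.2.2 n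
  rw [h1, one_mul, mul_one]

end SQD
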