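import Pool.Agent.SQD.StA

set_option autoImplicit false

namespace SQD

namespace LIN

lemma comm_zero {u v : M2} (hu : u.trace = 0) (hv : v.trace = 0) (h0 : u ≠ 0)
    (h : u * v = v * u) : ∃ t : ℝ, v = t • u := by
  have hu' : u 1 1 = - u 0 0 := by
    rw [Matrix.trace_fin_two] at hu
    linarith
  have hv' : v 1 1 = - v 0 0 := by
    rw [Matrix.trace_fin_two] at hv
    linarith
  have e00 := congrFun (congrFun h 0) 0
  have e01 := congrFun (congrFun h 0) 1
  have e10 := congrFun (congrFun h 1) 0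
  simp only [Matrix.mul_apply, Fin.sum_univ_two, hu', hv'] at e00 e01 e10
  have c1 : u 0 1 * v 1 0 = v 0 1 * u 1 0 := by linarith
  have c2 : u 0 0 * v 0 1 = v 0 0 * u 0 1 := by linarith
  have c3 : u 0 0 * v 1 0 = v 0 0 * u 1 0 := by linarith
  have hne : u 0 0 ≠ 0 ∨ u 0 1 ≠ 0 ∨ u 1 0 ≠ 0 := by
    by_contra hc
    push Not at hc
    apply h0
    ext i j
    fin_cases i <;> fin_cases j
    · exact hc.1
    · exact hc.2.1
    · exact hc.2.2
    · change u 1 1 = 0
      rw [hu', hc.1, neg_zero]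
  rcases hne with h1 | h1 | h1
  · refine ⟨v 0 0 / u 0 0, ?_⟩
    ext i j
    fin_cases i <;> fin_cases j <;> simp only [Fin.zero_eta, Fin.mk_one, Fin.isValue,
      Matrix.smul_apply, smul_eq_mul, hu', hv'] <;> field_simp <;> linarith
  · refine ⟨v 0 1 / u 0 1, ?_⟩
    ext i j
    fin_cases i <;> fin_cases j <;> simp only [Fin.zero_eta, Fin.mk_one, Fin.isValue,
      Matrix.smul_apply, smul_eq_mul, hu', hv'] <;> field_simp <;> linarith
  · refine ⟨v 1 0 / u 1 0, ?_⟩
    ext i j
    fin_cases i <;> fin_cases j <;> simp only [Fin.zero_eta, Fin.mk_one, Fin.isValue,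
      Matrix.smul_apply, smul_eq_mul, hu', hv'] <;> field_simp <;> linarith

/-- conjugation -/
noncomputable def cj' (g : SL) (X : M2) : M2 := (g : M2) * X * ((g⁻¹ : SL) : M2)

lemma inv_mul_coe (g : SL) : ((g⁻¹ : SL) : M2) * (g : M2) = 1 := by
  rw [← Matrix.SpecialLinearGroup.coe_mul, inv_mul_cancel, Matrix.SpecialLinearGroup.coe_one]

lemma cj_mul (g : SL) (X : M2) : cj' g X * (g : M2) = (g : M2) * X := by
  unfold cj'
  rw [mul_assoc, inv_mul_coe, mul_one]

lemma cj_comp (g h : SL) (X : M2) : cj' (g * h) X = cj' g (cj' h X) := by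
  unfold cj'
  rw [mul_inv_rev, Matrix.SpecialLinearGroup.coe_mul, Matrix.SpecialLinearGroup.coe_mul]
  simp only [mul_assoc]

lemma cj_prod (g : SL) (X Y : M2) : cj' g (X * Y) = cj' g X * cj' g Y := by
  unfold cj'
  calc (g : M2) * (X * Y) * ((g⁻¹ : SL) : M2)
      = (g : M2) * X * 1 * Y * ((g⁻¹ : SL) : M2) := by simp only [mul_one, mul_assoc]
    _ = (g : M2) * X * (((g⁻¹ : SL) : M2) * (g : M2)) * Y * ((g⁻¹ : SL) : M2) := by
        rw [inv_mul_coe]
    _ = _ := by simp only [mul_assoc]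

lemma cj_sub (g : SL) (X Y : M2) : cj' g (X - Y) = cj' g X - cj' g Y := by
  unfold cj'
  rw [mul_sub, sub_mul]

lemma trace_cj (g : SL) (X : M2) : (cj' g X).trace = X.trace := by
  unfold cj'
  rw [Matrix.trace_mul_comm, ← mul_assoc, inv_mul_coe, one_mul]

end LIN

open LIN

theorem t_LIN : S_LIN := by
  intro G X hX0 hXt
  by_cases h1 : ∀ g ∈ G, ∃ t : ℝ, cj' g X = t • X
  · refine Or.inr ⟨X, hX0, hXt, fun g hg => ?_⟩
    obtain ⟨t, ht⟩ := h1 g hg
    exact ⟨t, by rw [← cj_mul, ht, smul_mul_assoc]⟩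
  push Not at h1
  obtain ⟨g1, hg1, hv⟩ := h1
  obtain ⟨v, hvd⟩ : ∃ v, v = cj' g1 X := ⟨_, rfl⟩
  rw [← hvd] at hv
  have hvt : v.trace = 0 := by rw [hvd, trace_cj, hXt]
  by_cases h2 : ∀ g ∈ G, ∃ α β : ℝ, cj' g X = α • X + β • v
  · refine Or.inr ⟨X * v - v * X, ?_, ?_, fun g hg => ?_⟩
    · intro h
      obtain ⟨t, ht⟩ := comm_zero hXt hvt hX0 (sub_eq_zero.mp h)
      exact hv t ht
    · rw [Matrix.trace_sub, Matrix.trace_mul_comm, sub_self]
    · obtain ⟨α, β, h3⟩ := h2 g hg
      obtain ⟨γ, δ, h4⟩ := h2 (g * g1) (G.mul_mem hg hg1)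
      rw [cj_comp, ← hvd] at h4
      refine ⟨α * δ - β * γ, ?_⟩
      rw [← cj_mul, cj_sub, cj_prod, cj_prod, h3, h4, ← smul_mul_assoc]
      congr 1
      simp only [add_mul, mul_add, smul_mul_assoc, mul_smul_comm]
      module
  · push Not at h2
    obtain ⟨g2, hg2, hw⟩ := h2
    obtain ⟨w, hwd⟩ : ∃ w, w = cj' g2 X := ⟨_, rfl⟩
    rw [← hwd] at hw
    refine Or.inl ⟨![1, g1, g2], ?_, ?_⟩
    · intro i
      fin_cases i
      · exact G.one_mem
      · exact hg1
      · exact hg2
    · have e : (fun i : Fin 3 => ((![1, g1, g2] i : SL) : M2) * X * (((![1, g1, g2] i)⁻¹ : SL) : M2)) =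
          ![X, v, w] := by
        funext i
        fin_cases i
        · simp
        · exact hvd.symm
        · exact hwd.symm
      rw [e, Fintype.linearIndependent_iff]
      intro c hc
      rw [Fin.sum_univ_three] at hc
      change c 0 • X + c 1 • v + c 2 • w = 0 at hc
      have hc2 : c 2 = 0 := by
        by_contra h
        apply hw (-(c 0 / c 2)) (-(c 1 / c 2))
        have h5 : c 2 • w = -(c 0 • X) - c 1 • v := by
          rw [← sub_eq_zero]
          rw [← hc]
          abel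
        have h6 : w = (c 2)⁻¹ • (c 2 • w) := by rw [smul_smul, inv_mul_cancel₀ h, one_smul]
        rw [h6, h5, smul_sub, smul_neg, smul_smul, smul_smul, neg_smul, neg_smul, div_eq_inv_mul,
          div_eq_inv_mul, sub_eq_add_neg]
      have hc1 : c 1 = 0 := by
        by_contra h
        rw [hc2, zero_smul, add_zero] at hc
        apply hv (-(c 0 / c 1))
        have h5 : c 1 • v = -(c 0 • X) := by
          rw [← sub_eq_zero, ← hc]
          abel
        have h6 : v = (c 1)⁻¹ • (c 1 • v) := by rw [smul_smul, inv_mul_cancel₀ h, one_smul]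
        rw [h6, h5, smul_neg, smul_smul, neg_smul, div_eq_inv_mul]
      have hc0 : c 0 = 0 := by
        rw [hc2, hc1, zero_smul, zero_smul, add_zero, add_zero] at hc
        exact (smul_eq_zero.mp hc).resolve_right hX0
      intro i
      fin_cases i
      · exact hc0
      · exact hc1
      · exact hc2

end SQD
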