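import Pool.Agent.SQD.StA

/-!
# SQD, module MPR: the actions preserve Lebesgue measure
-/

set_option autoImplicit false

open MeasureTheory

namespace SQD

namespace MPR

lemma continuous_act' (g : SL) : Continuous (act g) :=
  continuous_act.comp (continuous_const.prodMk continuous_id)

lemma act_mp (g : SL) : MeasurePreserving (act g) (volume : Measure V) volume := by
  refine ⟨(continuous_act' g).measurable, ?_⟩
  have h := Real.map_matrix_volume_pi_eq_smul_volume_pi (M := (g : M2)) (by rw [g.2]; norm_num)
  have hdet : (g : M2).det = 1 := g.2
  rw [hdet] at h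
  simp only [inv_one, abs_one, ENNReal.ofReal_one, one_smul] at h
  exact h

end MPR

open MPR in
theorem t_MPR : S_MPR := by
  refine ⟨act_mp, fun g => ?_⟩
  exact (act_mp g).prod (act_mp g)

end SQD
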