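import Pool.Agent.SQD.StB

/-!
# NAL: a root outside the unit disc
-/

namespace SQD

namespace NAL

open Polynomial

/-- A rational number is not a `p`-adic integer if `p` divides its denominator. -/
lemma one_lt_norm_rat (p : ℕ) [Fact p.Prime] (q : ℚ) (h : p ∣ q.den) :
    1 < ‖(q : ℚ_[p])‖ := by
  by_contra hq
  rw [not_lt] at hq
  have h1 : (q : ℚ_[p]) * (q.den : ℚ_[p]) = (q.num : ℚ_[p]) := by
    have h0 : q * (q.den : ℚ) = (q.num : ℚ) := Rat.mul_den_eq_num q
    exact_mod_cast congrArg (fun t : ℚ => (t : ℚ_[p])) h0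
  have h2 : ‖(q.den : ℚ_[p])‖ < 1 := Padic.norm_natCast_lt_one_iff.2 h
  have h3 : ‖(q.num : ℚ_[p])‖ < 1 := by
    rw [← h1, norm_mul]
    calc ‖(q : ℚ_[p])‖ * ‖(q.den : ℚ_[p])‖ ≤ 1 * ‖(q.den : ℚ_[p])‖ :=
          mul_le_mul_of_nonneg_right hq (norm_nonneg _)
      _ < 1 := by rwa [one_mul]
  have h4 : (p : ℤ) ∣ q.num := Padic.norm_intCast_lt_one_iff.1 h3
  have h5 : p ∣ q.num.natAbs := Int.natCast_dvd.1 h4
  have h6 : p ∣ 1 := by
    have := Nat.dvd_gcd h5 h
    rwa [q.reduced] at this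
  exact (Fact.out : p.Prime).one_lt.ne' (Nat.dvd_one.1 h6)

/-- If all roots of a monic polynomial which splits are in a subring, so are the coefficients. -/
lemma coeff_mem {L : Type} [Field L] (O : Subring L) (f : L[X]) (hf : f.Monic) (hs : f.Splits)
    (h : ∀ y ∈ f.roots, y ∈ O) (n : ℕ) : f.coeff n ∈ O := by
  have h1 : f ∈ Polynomial.lifts O.subtype := by
    rw [hs.eq_prod_roots_of_monic hf]
    refine Subsemiring.multiset_prod_mem _ _ ?_
    intro g hg
    obtain ⟨y, hy, rfl⟩ := Multiset.mem_map.1 hg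
    rw [Polynomial.mem_lifts]
    refine ⟨X - C ⟨y, h y hy⟩, ?_⟩
    simp
  obtain ⟨z, hz⟩ := (Polynomial.lifts_iff_coeff_lifts _).1 h1 n
  rw [← hz]
  exact z.2

end NAL

theorem t_NAL : S_NAL := by
  intro x hx hni
  have hi : IsIntegral ℚ x := hx.isIntegral
  have h1 : ∃ n, ((minpoly ℚ x).coeff n).den ≠ 1 := by
    by_contra h
    push Not at h
    apply hni
    have h2 : minpoly ℚ x ∈ Polynomial.lifts (Int.castRingHom ℚ) := by
      rw [Polynomial.lifts_iff_coeff_lifts]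
      intro n
      refine ⟨((minpoly ℚ x).coeff n).num, ?_⟩
      simp only [eq_intCast]
      exact (Rat.den_eq_one_iff _).1 (h n)
    obtain ⟨g, hg1, -, hg2⟩ := Polynomial.lifts_and_degree_eq_and_monic h2 (minpoly.monic hi)
    refine ⟨g, hg2, ?_⟩
    have h3 : Polynomial.eval₂ (algebraMap ℚ ℂ) x (g.map (Int.castRingHom ℚ)) = 0 := by
      rw [hg1]
      exact minpoly.aeval ℚ x
    rw [Polynomial.eval₂_map] at h3
    have h4 : (algebraMap ℚ ℂ).comp (Int.castRingHom ℚ) = algebraMap ℤ ℂ := RingHom.ext_int _ _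
    rwa [h4] at h3
  obtain ⟨n, hn⟩ := h1
  obtain ⟨p, hp, hpn⟩ := Nat.exists_prime_and_dvd hn
  have : Fact p.Prime := ⟨hp⟩
  refine ⟨p, ⟨hp⟩, ?_⟩
  by_contra hcon
  push Not at hcon
  set F : Polynomial (PadicAlgCl p) := (minpoly ℚ x).map (algebraMap ℚ (PadicAlgCl p)) with hF
  have hmon : F.Monic := (minpoly.monic hi).map _
  have hroots : ∀ y ∈ F.roots, y ∈ (Valued.v : Valuation (PadicAlgCl p) NNReal).integer := by
    intro y hy
    have h5 : Polynomial.aeval y (minpoly ℚ x) = 0 := by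
      have := (Polynomial.mem_roots hmon.ne_zero).1 hy
      rw [Polynomial.IsRoot.def, hF, Polynomial.eval_map] at this
      exact this
    have h6 := hcon y h5
    rw [Valuation.mem_integer_iff]
    rw [← NNReal.coe_le_coe, PadicAlgCl.valuation_coe]
    exact h6
  have h7 := NAL.coeff_mem _ F hmon (IsAlgClosed.splits F) hroots n
  rw [Valuation.mem_integer_iff, ← NNReal.coe_le_coe, PadicAlgCl.valuation_coe, hF,
    Polynomial.coeff_map] at h7
  have h8 : algebraMap ℚ (PadicAlgCl p) ((minpoly ℚ x).coeff n) =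
      algebraMap ℚ_[p] (PadicAlgCl p) (((minpoly ℚ x).coeff n : ℚ) : ℚ_[p]) := by
    simp
  rw [h8, PadicAlgCl.norm_extends] at h7
  exact absurd (NAL.one_lt_norm_rat p _ hpn) (not_lt.2 h7)

end SQD
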