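import Pool.Agent.SQD.StB

/-!
# SQD, module NBH: room for small moves
-/

set_option autoImplicit false

namespace SQD

namespace NBH

lemma exists_ball (O : Set V) (hO : IsOpen O) (hne : O.Nonempty) :
    ∃ (x₀ : V) (ε : ℝ), 0 < ε ∧ Metric.closedBall x₀ ε ⊆ O ∧ (0 : V) ∉ Metric.closedBall x₀ ε := by
  have hd : Dense ({(0 : V)}ᶜ : Set V) := dense_compl_singleton (0 : V)
  obtain ⟨x₀, hx0, hx1⟩ := hd.inter_open_nonempty O hO hne
  have hop : IsOpen (O ∩ ({(0 : V)}ᶜ : Set V)) := hO.inter isOpen_compl_singleton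
  obtain ⟨ε, hε, hb⟩ := Metric.nhds_basis_closedBall.mem_iff.mp (hop.mem_nhds ⟨hx0, hx1⟩)
  refine ⟨x₀, ε, hε, fun x hx => (hb hx).1, fun h0 => ?_⟩
  exact (hb h0).2 rfl

lemma exists_nbhd (O K : Set V) (hO : IsOpen O) (hK : IsCompact K) (hKO : K ⊆ O) :
    ∃ U : Set SL, IsOpen U ∧ (1 : SL) ∈ U ∧ ∀ g ∈ U, ∀ x ∈ K, act g x ∈ O := by
  have hn : IsOpen ((fun p : SL × V => act p.1 p.2) ⁻¹' O) := hO.preimage continuous_act
  have hp : ({(1 : SL)} : Set SL) ×ˢ K ⊆ (fun p : SL × V => act p.1 p.2) ⁻¹' O := by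
    rintro ⟨g, x⟩ ⟨hg, hx⟩
    have hg' : g = 1 := hg
    show act g x ∈ O
    rw [hg', act_one]
    exact hKO hx
  obtain ⟨u, v, hu, -, h1, hv, huv⟩ := generalized_tube_lemma isCompact_singleton hK hn hp
  refine ⟨u, hu, h1 rfl, fun g hg x hx => ?_⟩
  have := huv (show (g, x) ∈ u ×ˢ v from ⟨hg, hv hx⟩)
  exact this

lemma continuous_entry (i j : Fin 2) : Continuous fun g : SL => (g : M2) i j := by
  exact (continuous_apply j).comp ((continuous_apply i).comp continuous_subtype_val)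

lemma norm_bound (g : SL) (h0 : |(g : M2) 0 0| + |(g : M2) 0 1| < 2)
    (h1 : |(g : M2) 1 0| + |(g : M2) 1 1| < 2) (x : V) : ‖act g x‖ ≤ 2 * ‖x‖ := by
  have hx0 : |x 0| ≤ ‖x‖ := norm_le_pi_norm x 0
  have hx1 : |x 1| ≤ ‖x‖ := norm_le_pi_norm x 1
  have key : ∀ p q : ℝ, |p| + |q| < 2 → |p * x 0 + q * x 1| ≤ 2 * ‖x‖ := by
    intro p q hpq
    calc |p * x 0 + q * x 1| ≤ |p * x 0| + |q * x 1| := abs_add_le _ _
      _ = |p| * |x 0| + |q| * |x 1| := by rw [abs_mul, abs_mul]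
      _ ≤ |p| * ‖x‖ + |q| * ‖x‖ := by
          gcongr
      _ = (|p| + |q|) * ‖x‖ := by ring
      _ ≤ 2 * ‖x‖ := by
          apply mul_le_mul_of_nonneg_right hpq.le (norm_nonneg x)
  refine (pi_norm_le_iff_of_nonneg (by positivity)).mpr ?_
  intro i
  fin_cases i
  · show ‖act g x 0‖ ≤ 2 * ‖x‖
    rw [act_apply_zero, Real.norm_eq_abs]
    exact key _ _ h0
  · show ‖act g x 1‖ ≤ 2 * ‖x‖
    rw [act_apply_one, Real.norm_eq_abs]
    exact key _ _ h1

end NBH

open NBH in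
theorem t_NBH : S_NBH := by
  refine ⟨?_, ?_⟩
  · intro E hE
    obtain ⟨x₀, ε, hε, hb, h0⟩ := exists_ball (interior E) isOpen_interior hE
    obtain ⟨U, hU, h1, hgU⟩ := exists_nbhd (interior E) (Metric.closedBall x₀ ε) isOpen_interior
      (isCompact_closedBall x₀ ε) hb
    refine ⟨Metric.ball x₀ ε, U, Metric.isOpen_ball, ⟨x₀, Metric.mem_ball_self hε⟩, ?_, hU, h1, ?_⟩
    · intro h
      exact h0 (Metric.ball_subset_closedBall h)
    · intro g hg x hx
      exact interior_subset (hgU g hg x (Metric.ball_subset_closedBall hx))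
  · intro C hC hne hcone
    obtain ⟨x₀, ε, hε, hb, h0⟩ := exists_ball C hC hne
    obtain ⟨U, hU, h1, hgU⟩ := exists_nbhd C (Metric.closedBall x₀ ε) hC
      (isCompact_closedBall x₀ ε) hb
    refine ⟨{x | ∃ t : ℝ, 0 < t ∧ t • x ∈ Metric.ball x₀ ε},
      U ∩ {g : SL | |(g : M2) 0 0| + |(g : M2) 0 1| < 2 ∧ |(g : M2) 1 0| + |(g : M2) 1 1| < 2},
      ?_, ?_, ?_, ?_, ?_, ?_, ?_⟩
    · have : {x : V | ∃ t : ℝ, 0 < t ∧ t • x ∈ Metric.ball x₀ ε} =
          ⋃ t : {t : ℝ // 0 < t}, (fun x : V => (t : ℝ) • x) ⁻¹' Metric.ball x₀ ε := by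
        ext x
        simp only [Set.mem_setOf_eq, Set.mem_iUnion, Set.mem_preimage]
        constructor
        · rintro ⟨t, ht, hx⟩
          exact ⟨⟨t, ht⟩, hx⟩
        · rintro ⟨t, hx⟩
          exact ⟨t.1, t.2, hx⟩
      rw [this]
      exact isOpen_iUnion fun t => Metric.isOpen_ball.preimage (continuous_const_smul (t : ℝ))
    · exact ⟨x₀, 1, one_pos, by rw [one_smul]; exact Metric.mem_ball_self hε⟩
    · rintro ⟨t, ht, hx⟩
      rw [smul_zero] at hx
      exact h0 (Metric.ball_subset_closedBall hx)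
    · rintro x ⟨s, hs, hx⟩ t ht
      refine ⟨s / t, div_pos hs ht, ?_⟩
      rw [smul_smul, div_mul_cancel₀ _ ht.ne']
      exact hx
    · refine hU.inter ?_
      refine IsOpen.and ?_ ?_
      · exact isOpen_lt ((continuous_entry 0 0).abs.add (continuous_entry 0 1).abs) continuous_const
      · exact isOpen_lt ((continuous_entry 1 0).abs.add (continuous_entry 1 1).abs) continuous_const
    · refine ⟨h1, ?_, ?_⟩
      · show |((1 : SL) : M2) 0 0| + |((1 : SL) : M2) 0 1| < 2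
        simp
      · show |((1 : SL) : M2) 1 0| + |((1 : SL) : M2) 1 1| < 2
        simp
    · rintro g ⟨hg, hg0, hg1⟩
      refine ⟨?_, fun x => norm_bound g hg0 hg1 x⟩
      rintro x ⟨t, ht, hx⟩
      have h2 := hgU g hg (t • x) (Metric.ball_subset_closedBall hx)
      rw [act_smul] at h2
      have h3 := hcone _ h2 t⁻¹ (inv_pos.mpr ht)
      rwa [smul_smul, inv_mul_cancel₀ ht.ne', one_smul] at h3

end SQD
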