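import Pool.Agent.SQD.StA

/-!
# SQD, module NDN: subgroups which are not dense
-/

set_option autoImplicit false

open MeasureTheory

namespace SQD

theorem t_NDN : M_NDN := by
  intro hPAR hFOL hAME hDIS hCLS hSOL G hG E hE h0 hfin hP
  have hne : E.Nonempty := by
    rw [Set.nonempty_iff_ne_empty]
    rintro rfl
    exact h0 (by simp)
  obtain ⟨K, hK, hPw⟩ := (hPAR G E hne).mp hP
  by_cases hd : Discr G
  · exact hDIS G hd E hE h0 hfin K hK hPw
  · obtain ⟨Y, hY0, hYt, hYg⟩ := hCLS G hG hd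
    obtain ⟨ψ, hψ⟩ := hSOL G Y hY0 hYt hYg
    exact hAME G (hFOL G ℝˣ ψ hψ) E hE h0 hfin K hK hPw

end SQD
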