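import Pool.Agent.SQD.StA

/-!
# SQD, module OPS: a closed subgroup which is not discrete contains a one parameter group
-/

set_option autoImplicit false

open Filter Topology NormedSpace

namespace SQD

namespace OPS

/-- Closed sets which are stable under powers and accumulate at one contain half of a one parameter
group. -/
lemma onepar {A : Type*} [NormedRing A] [NormedAlgebra ℝ A] [FiniteDimensional ℝ A] (S : Set A)
    (hp : ∀ a ∈ S, ∀ n : ℕ, a ^ n ∈ S) (hc : IsClosed S)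
    (hS : ∀ W ∈ 𝓝 (1 : A), ∃ a ∈ S, a ∈ W ∧ a ≠ 1) :
    ∃ X : A, X ≠ 0 ∧ ∀ t : ℝ, 0 ≤ t → exp (t • X) ∈ S := by
  haveI : CompleteSpace A := FiniteDimensional.complete ℝ A
  haveI : ProperSpace A := FiniteDimensional.proper ℝ A
  letI : NormedAlgebra ℚ A := NormedAlgebra.restrictScalars ℚ ℝ A
  have hmap : map (exp : A → A) (𝓝 0) = 𝓝 1 := by
    have h := (hasStrictFDerivAt_exp_zero (𝕂 := ℝ) (𝔸 := A)).map_nhds_eq_of_surj (by
      rw [LinearMap.range_eq_top]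
      intro x
      exact ⟨x, rfl⟩)
    rw [h, exp_zero]
  have step : ∀ k : ℕ, ∃ Z : A, Z ≠ 0 ∧ ‖Z‖ < 1 / ((k : ℝ) + 1) ∧ exp Z ∈ S := by
    intro k
    have hk : (0 : ℝ) < 1 / ((k : ℝ) + 1) := by positivity
    have hW : exp '' (Metric.ball (0 : A) (1 / ((k : ℝ) + 1))) ∈ 𝓝 (1 : A) := by
      rw [← hmap]
      exact image_mem_map (Metric.ball_mem_nhds _ hk)
    obtain ⟨x, hxS, ⟨Z, hZ, rfl⟩, hne⟩ := hS _ hW
    refine ⟨Z, ?_, by simpa using hZ, hxS⟩
    rintro rfl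
    exact hne exp_zero
  choose Z hZ0 hZs hZS using step
  have hpos : ∀ k, 0 < ‖Z k‖ := fun k => norm_pos_iff.mpr (hZ0 k)
  have hX : ∀ k, ‖Z k‖⁻¹ • Z k ∈ Metric.sphere (0 : A) 1 := by
    intro k
    rw [mem_sphere_zero_iff_norm, norm_smul, norm_inv, norm_norm, inv_mul_cancel₀ (hpos k).ne']
  obtain ⟨X, hXs, φ, hφ, hlim⟩ := (isCompact_sphere (0 : A) 1).tendsto_subseq hX
  refine ⟨X, ?_, fun t ht => ?_⟩
  · rintro rfl
    rw [mem_sphere_zero_iff_norm, norm_zero] at hXs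
    exact zero_ne_one hXs
  · have hZlim : Tendsto (fun k => ‖Z k‖) atTop (𝓝 0) :=
      squeeze_zero (fun k => norm_nonneg _) (fun k => (hZs k).le)
        tendsto_one_div_add_atTop_nhds_zero_nat
    have hε : Tendsto (fun k => ‖Z (φ k)‖) atTop (𝓝 0) := hZlim.comp hφ.tendsto_atTop
    have hn : Tendsto (fun k => ((⌊t / ‖Z (φ k)‖⌋₊ : ℕ) : ℝ) * ‖Z (φ k)‖) atTop (𝓝 t) := by
      have hlow : Tendsto (fun k => t - ‖Z (φ k)‖) atTop (𝓝 t) := by
        simpa using tendsto_const_nhds.sub hε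
      refine tendsto_of_tendsto_of_tendsto_of_le_of_le hlow tendsto_const_nhds ?_ ?_
      · intro k
        have h1 := Nat.lt_floor_add_one (t / ‖Z (φ k)‖)
        rw [div_lt_iff₀ (hpos _)] at h1
        show t - ‖Z (φ k)‖ ≤ ((⌊t / ‖Z (φ k)‖⌋₊ : ℕ) : ℝ) * ‖Z (φ k)‖
        nlinarith
      · intro k
        have h1 := Nat.floor_le (div_nonneg ht (norm_nonneg (Z (φ k))))
        rw [le_div_iff₀ (hpos _)] at h1
        exact h1
    have h1 : Tendsto (fun k => exp ((((⌊t / ‖Z (φ k)‖⌋₊ : ℕ) : ℝ) * ‖Z (φ k)‖) •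
        (‖Z (φ k)‖⁻¹ • Z (φ k)))) atTop (𝓝 (exp (t • X))) :=
      ((exp_continuous (𝔸 := A)).tendsto _).comp (hn.smul hlim)
    refine hc.mem_of_tendsto h1 (Eventually.of_forall fun k => ?_)
    have e : (((⌊t / ‖Z (φ k)‖⌋₊ : ℕ) : ℝ) * ‖Z (φ k)‖) • (‖Z (φ k)‖⁻¹ • Z (φ k)) =
        ⌊t / ‖Z (φ k)‖⌋₊ • Z (φ k) := by
      rw [smul_smul, mul_assoc, mul_inv_cancel₀ (hpos _).ne', mul_one, Nat.cast_smul_eq_nsmul]
    show exp _ ∈ S
    rw [e, exp_nsmul]
    exact hp _ (hZS _) _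

/-- The case of two by two matrices. -/
lemma onepar_M2 (S : Set M2) (hp : ∀ a ∈ S, ∀ n : ℕ, a ^ n ∈ S) (hc : IsClosed S)
    (hS : ∀ W ∈ 𝓝 (1 : M2), ∃ a ∈ S, a ∈ W ∧ a ≠ 1) :
    ∃ X : M2, X ≠ 0 ∧ ∀ t : ℝ, 0 ≤ t → exp (t • X) ∈ S := by
  let _ : NormedRing M2 := Matrix.linftyOpNormedRing
  let _ : NormedAlgebra ℝ M2 := Matrix.linftyOpNormedAlgebra
  exact onepar S hp hc hS

/-- The derivative of the exponential at zero. -/
lemma deriv_exp {A : Type*} [NormedRing A] [NormedAlgebra ℝ A] [CompleteSpace A] (X : A) :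
    HasDerivAt (fun t : ℝ => exp (t • X)) X 0 := by
  have h := hasDerivAt_exp_smul_const (𝕂 := ℝ) X (0 : ℝ)
  simpa using h

lemma deriv_exp_M2 (X : M2) (i j : Fin 2) :
    HasDerivAt (fun t : ℝ => (exp (t • X) : M2) i j) (X i j) 0 := by
  let _ : NormedRing M2 := Matrix.linftyOpNormedRing
  let _ : NormedAlgebra ℝ M2 := Matrix.linftyOpNormedAlgebra
  have h := deriv_exp X
  have hl : HasFDerivAt (fun Y : M2 => Y i j)
      (LinearMap.toContinuousLinearMap (Matrix.entryLinearMap ℝ ℝ i j : M2 →ₗ[ℝ] ℝ))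
      (exp ((0 : ℝ) • X)) :=
    (LinearMap.toContinuousLinearMap
      (Matrix.entryLinearMap ℝ ℝ i j : M2 →ₗ[ℝ] ℝ)).hasFDerivAt
  exact hl.comp_hasDerivAt (0 : ℝ) h

lemma trace_zero (X : M2) (h : ∀ t : ℝ, (exp (t • X) : M2).det = 1) : X.trace = 0 := by
  have h00 := deriv_exp_M2 X 0 0
  have h01 := deriv_exp_M2 X 0 1
  have h10 := deriv_exp_M2 X 1 0
  have h11 := deriv_exp_M2 X 1 1
  have hd := (h00.mul h11).sub (h01.mul h10)
  have hc : (fun t : ℝ => (exp (t • X) : M2) 0 0 * (exp (t • X) : M2) 1 1 -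
      (exp (t • X) : M2) 0 1 * (exp (t • X) : M2) 1 0) = fun _ => 1 := by
    funext t
    rw [← Matrix.det_fin_two]
    exact h t
  have hd' : HasDerivAt (fun t : ℝ => (exp (t • X) : M2) 0 0 * (exp (t • X) : M2) 1 1 -
      (exp (t • X) : M2) 0 1 * (exp (t • X) : M2) 1 0) _ 0 := hd
  rw [hc] at hd'
  have := hd'.unique (hasDerivAt_const (0 : ℝ) (1 : ℝ))
  simp [exp_zero] at this
  rw [Matrix.trace_fin_two]
  exact this

end OPS

open OPS in
theorem t_OPS : S_OPS := by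
  intro H hH hD
  set S : Set M2 := (fun g : SL => (g : M2)) '' (H : Set SL) with hSdef
  have hemb : IsClosedEmbedding (fun g : SL => (g : M2)) := by
    refine IsClosed.isClosedEmbedding_subtypeVal ?_
    exact isClosed_eq (Continuous.matrix_det continuous_id) continuous_const
  have hSc : IsClosed S := hemb.isClosedMap _ hH
  have hp : ∀ x ∈ S, ∀ n : ℕ, x ^ n ∈ S := by
    rintro _ ⟨g, hg, rfl⟩ n
    exact ⟨g ^ n, H.pow_mem hg n, by simp⟩
  have hS : ∀ W ∈ 𝓝 (1 : M2), ∃ x ∈ S, x ∈ W ∧ x ≠ 1 := by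
    intro W hW
    by_contra hcon
    push_neg at hcon
    apply hD
    have hW' : (fun g : SL => (g : M2)) ⁻¹' W ∈ 𝓝 (1 : SL) := by
      apply hemb.continuous.continuousAt.preimage_mem_nhds
      simpa using hW
    obtain ⟨U, hUW, hUo, h1U⟩ := mem_nhds_iff.mp hW'
    refine ⟨U, hUo, h1U, fun g hg hgU => ?_⟩
    have := hcon (g : M2) ⟨g, hg, rfl⟩ (hUW hgU)
    apply Subtype.ext
    rw [this]
    simp
  obtain ⟨X, hX0, hX⟩ := onepar_M2 S hp hSc hS
  have key : ∀ t : ℝ, ∃ h ∈ H, (h : M2) = exp (t • X) := by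
    intro t
    rcases le_total 0 t with ht | ht
    · obtain ⟨h, hh, e⟩ := hX t ht
      exact ⟨h, hh, e⟩
    · obtain ⟨h, hh, e⟩ := hX (-t) (by linarith)
      refine ⟨h⁻¹, H.inv_mem hh, ?_⟩
      have e' : (h : M2) = exp ((-t) • X) := e
      have e1 : ((h⁻¹ : SL) : M2) * (h : M2) = 1 := by
        rw [← Matrix.SpecialLinearGroup.coe_mul, inv_mul_cancel, Matrix.SpecialLinearGroup.coe_one]
      have e2 : exp ((-t) • X) * exp (t • X) = (1 : M2) := by
        rw [← Matrix.exp_add_of_commute _ _ ((Commute.refl X).smul_left _ |>.smul_right _),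
          ← add_smul, neg_add_cancel, zero_smul, exp_zero]
      calc ((h⁻¹ : SL) : M2) = ((h⁻¹ : SL) : M2) * (exp ((-t) • X) * exp (t • X)) := by
            rw [e2, mul_one]
        _ = (((h⁻¹ : SL) : M2) * (h : M2)) * exp (t • X) := by rw [e', mul_assoc]
        _ = exp (t • X) := by rw [e1, one_mul]
  refine ⟨X, hX0, trace_zero X fun t => ?_, key⟩
  obtain ⟨h, _, e⟩ := key t
  rw [← e]
  exact h.2

end SQD
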