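import Pool.Agent.SQD.StB

/-!
# SQD, ORB: conjugates of an eigenvector in general position
-/

set_option autoImplicit false

namespace SQD

namespace ORB

open Polynomial

/-- a polynomial curve in `SL₂(ℝ)` -/
def cur (t : ℝ) : SL :=
  ⟨!![1 + t ^ 3, t; t ^ 2, 1], by simp [Matrix.det_fin_two_of]; ring⟩

lemma cdt_mul (c : SL) (x y : Fin 2 → ℂ) :
    cdt ((cm c).mulVec x) ((cm c).mulVec y) = cdt x y := by
  have h := det_eq c
  have h' : ((c : M2) 0 0 : ℂ) * ((c : M2) 1 1 : ℂ) - ((c : M2) 0 1 : ℂ) * ((c : M2) 1 0 : ℂ) = 1 := by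
    exact_mod_cast h
  simp only [cdt, cm, Matrix.mulVec, dotProduct, Fin.sum_univ_two, Matrix.map_apply]
  linear_combination (x 0 * y 1 - x 1 * y 0) * h'

lemma cdt_swap (x y : Fin 2 → ℂ) : cdt y x = - cdt x y := by
  simp only [cdt]
  ring

lemma cdt_cj {e : Fin 2 → ℂ} (he : (e 0 * (starRingEnd ℂ) (e 1)).im ≠ 0) : cdt e (cj e) ≠ 0 := by
  intro h
  apply he
  have h1 := congrArg Complex.im h
  simp only [cdt, cj, Complex.sub_im, Complex.mul_im, Complex.conj_re, Complex.conj_im,
    Complex.zero_im] at h1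
  simp only [Complex.mul_im, Complex.conj_re, Complex.conj_im]
  linarith

lemma continuous_cdt (e f : Fin 2 → ℂ) :
    Continuous fun c : SL => cdt ((cm c).mulVec e) f := by
  have h : ∀ i j, Continuous fun c : SL => (c : M2) i j := by
    intro i j
    exact (continuous_subtype_val.matrix_elem i j)
  have h00 := h 0 0
  have h01 := h 0 1
  have h10 := h 1 0
  have h11 := h 1 1
  simp only [cdt, cm, Matrix.mulVec, dotProduct, Fin.sum_univ_two, Matrix.map_apply]
  fun_prop

/-- the polynomial `t ↦ cdt (cur t e) f` -/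
noncomputable def pol (e f : Fin 2 → ℂ) : ℂ[X] :=
  C (e 0 * f 1 - e 1 * f 0) + C (e 1 * f 1) * X - C (e 0 * f 0) * X ^ 2 + C (e 0 * f 1) * X ^ 3

lemma pol_eval (e f : Fin 2 → ℂ) (t : ℝ) :
    (pol e f).eval (t : ℂ) = cdt ((cm (cur t)).mulVec e) f := by
  simp only [pol, cdt, cm, cur, Matrix.mulVec, dotProduct, Fin.sum_univ_two, Matrix.map_apply]
  simp
  ring

lemma coef {a b c d : ℂ} (h : C a + C b * X - C c * X ^ 2 + C d * X ^ 3 = (0 : ℂ[X])) :
    c = 0 ∧ d = 0 := by
  have h2 := congrArg (fun p : ℂ[X] => p.coeff 2) h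
  have h3 := congrArg (fun p : ℂ[X] => p.coeff 3) h
  simp [coeff_X, coeff_C, coeff_X_pow] at h2 h3
  exact ⟨h2, h3⟩

lemma pol_ne {e f : Fin 2 → ℂ} (he : e 0 ≠ 0) (hf : f ≠ 0) : pol e f ≠ 0 := by
  intro h
  apply hf
  obtain ⟨h2, h3⟩ := coef h
  funext k
  fin_cases k
  · exact (mul_eq_zero.1 h2).resolve_left he
  · exact (mul_eq_zero.1 h3).resolve_left he

lemma key (G : Subgroup SL) (hG : Dense (G : Set SL)) (E F : Finset (Fin 2 → ℂ))
    (hE : ∀ e ∈ E, e 0 ≠ 0) (hF : ∀ f ∈ F, f ≠ 0) :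
    ∃ c ∈ G, ∀ e ∈ E, ∀ f ∈ F, cdt ((cm c).mulVec e) f ≠ 0 := by
  have hP : (∏ e ∈ E, ∏ f ∈ F, pol e f) ≠ 0 :=
    Finset.prod_ne_zero_iff.2 fun e he => Finset.prod_ne_zero_iff.2 fun f hf =>
      pol_ne (hE e he) (hF f hf)
  obtain ⟨t, ht⟩ : ∃ t : ℝ, (∏ e ∈ E, ∏ f ∈ F, pol e f).eval (t : ℂ) ≠ 0 := by
    by_contra hcon
    push Not at hcon
    have hinf : Set.Infinite {z : ℂ | (∏ e ∈ E, ∏ f ∈ F, pol e f).IsRoot z} := by
      apply Set.Infinite.mono (s := Set.range fun t : ℝ => (t : ℂ))
      · rintro _ ⟨t, rfl⟩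
        exact hcon t
      · exact Set.infinite_range_of_injective Complex.ofReal_injective
    exact hP (Polynomial.eq_zero_of_infinite_isRoot _ hinf)
  rw [Polynomial.eval_prod, Finset.prod_ne_zero_iff] at ht
  have hopen : IsOpen {c : SL | ∏ e ∈ E, ∏ f ∈ F, cdt ((cm c).mulVec e) f ≠ 0} := by
    apply isOpen_ne_fun _ continuous_const
    exact continuous_finsetProd _ fun e _ => continuous_finsetProd _ fun f _ =>
      continuous_cdt e f
  have hne : {c : SL | ∏ e ∈ E, ∏ f ∈ F, cdt ((cm c).mulVec e) f ≠ 0}.Nonempty := by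
    refine ⟨cur t, ?_⟩
    show ∏ e ∈ E, ∏ f ∈ F, cdt ((cm (cur t)).mulVec e) f ≠ 0
    refine Finset.prod_ne_zero_iff.2 fun e he => Finset.prod_ne_zero_iff.2 fun f hf => ?_
    rw [← pol_eval]
    have := ht e he
    rw [Polynomial.eval_prod, Finset.prod_ne_zero_iff] at this
    exact this f hf
  obtain ⟨c, hc, hcG⟩ := hG.inter_open_nonempty _ hopen hne
  refine ⟨c, hcG, fun e he f hf => ?_⟩
  have h1 := Finset.prod_ne_zero_iff.1 hc e he
  exact Finset.prod_ne_zero_iff.1 h1 f hf

lemma vec_ne {e : Fin 2 → ℂ} (he : (e 0 * (starRingEnd ℂ) (e 1)).im ≠ 0) (c : SL) (s : Bool) :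
    (cm c).mulVec (bif s then e else cj e) ≠ 0 := by
  intro h
  have h1 := cdt_mul c e (cj e)
  have h2 := cdt_cj he
  rw [← h1] at h2
  apply h2
  cases s
  · simp only [cond_false] at h
    rw [h]
    simp [cdt]
  · simp only [cond_true] at h
    rw [h]
    simp [cdt]

end ORB

open ORB in
/-- ORB -/
theorem t_ORB : S_ORB := by
  intro G hG e he m
  classical
  have he0 : e 0 ≠ 0 := by
    intro h
    apply he
    rw [h, zero_mul, Complex.zero_im]
  have hc0 : (cj e) 0 ≠ 0 := by
    show (starRingEnd ℂ) (e 0) ≠ 0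
    rwa [ne_eq, map_eq_zero]
  induction m with
  | zero => exact ⟨Fin.elim0, fun i => i.elim0, fun i => i.elim0⟩
  | succ m ih =>
    obtain ⟨c, hcG, hc⟩ := ih
    obtain ⟨d, hdG, hd⟩ := key G hG {e, cj e}
      (Finset.univ.image fun p : Fin m × Bool => (cm (c p.1)).mulVec (bif p.2 then e else cj e))
      (by
        intro x hx
        rw [Finset.mem_insert, Finset.mem_singleton] at hx
        rcases hx with rfl | rfl
        · exact he0
        · exact hc0)
      (by
        intro x hx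
        obtain ⟨p, _, rfl⟩ := Finset.mem_image.1 hx
        exact vec_ne he _ _)
    have hd' : ∀ (s : Bool) (j : Fin m) (t : Bool),
        cdt ((cm d).mulVec (bif s then e else cj e))
          ((cm (c j)).mulVec (bif t then e else cj e)) ≠ 0 := by
      intro s j t
      apply hd
      · cases s <;> simp
      · exact Finset.mem_image.2 ⟨(j, t), Finset.mem_univ _, rfl⟩
    refine ⟨Fin.cons d c, ?_, ?_⟩
    · intro i
      refine Fin.cases ?_ (fun i => ?_) i
      · exact hdG
      · exact hcG i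
    · intro i s j t
      refine Fin.cases ?_ (fun i => ?_) i
      · refine Fin.cases ?_ (fun j => ?_) j
        · intro hst
          have hst' : s ≠ t := fun h => hst (by rw [h])
          rw [Fin.cons_zero, cdt_mul]
          have h2 := cdt_cj he
          cases s <;> cases t
          · exact absurd rfl hst'
          · simp only [cond_false, cond_true]
            rw [cdt_swap]
            exact neg_ne_zero.2 h2
          · exact h2
          · exact absurd rfl hst'
        · intro _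
          rw [Fin.cons_zero, Fin.cons_succ]
          exact hd' s j t
      · refine Fin.cases ?_ (fun j => ?_) j
        · intro _
          rw [Fin.cons_zero, Fin.cons_succ, cdt_swap]
          exact neg_ne_zero.2 (hd' t i s)
        · intro hst
          rw [Fin.cons_succ, Fin.cons_succ]
          apply hc
          intro h
          apply hst
          rw [Prod.mk.injEq] at h ⊢
          exact ⟨congrArg Fin.succ h.1, h.2⟩

end SQD
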