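import Pool.Agent.SQD.StB

/-!
# SQD: PAD, the cardinality of the algebraic closure of the p-adic numbers
-/

set_option autoImplicit false

open MeasureTheory

namespace SQD

theorem t_PAD : S_PAD := by
  intro p _
  have h1 : Cardinal.continuum ≤ Cardinal.mk ℚ_[p] := continuum_le_cardinal_of_nontriviallyNormedField ℚ_[p]
  have h2 : Cardinal.mk ℚ_[p] ≤ Cardinal.continuum := by
    have h3 : Cardinal.mk ℚ_[p] ≤ Cardinal.mk (CauSeq ℚ (padicNorm p)) :=
      Cardinal.mk_le_of_surjective (f := Quotient.mk _) Quotient.mk_surjective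
    have h4 : Cardinal.mk (CauSeq ℚ (padicNorm p)) ≤ Cardinal.mk (ℕ → ℚ) :=
      Cardinal.mk_le_of_injective (f := fun f => f.1) Subtype.val_injective
    have h5 : Cardinal.mk (ℕ → ℚ) = Cardinal.continuum := by
      simp
    exact h3.trans (h4.trans h5.le)
  have h3 : Cardinal.mk ℚ_[p] ≤ Cardinal.mk (PadicAlgCl p) :=
    Cardinal.mk_le_of_injective (f := algebraMap ℚ_[p] (PadicAlgCl p)) (algebraMap ℚ_[p] (PadicAlgCl p)).injective
  have h4 : Cardinal.mk (PadicAlgCl p) ≤ max (Cardinal.mk ℚ_[p]) Cardinal.aleph0 :=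
    Algebra.IsAlgebraic.cardinalMk_le_max ℚ_[p] (PadicAlgCl p)
  refine le_antisymm (h4.trans (max_le h2 Cardinal.aleph0_le_continuum)) (h1.trans h3)

end SQD
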