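import Pool.Agent.SQD.StA

/-!
# SQD: paradoxical sets and piecewise maps
-/

set_option autoImplicit false

open MeasureTheory

namespace SQD

namespace PAR

/-- From a cover of `E` by moved subsets to a choice of indices. -/
lemma exists_index {E : Set V} {n : ℕ} {A : Fin n → Set V} {g : Fin n → SL}
    (h : (⋃ i, act (g i) '' A i) = E) : ∀ x ∈ E, ∃ i, act (g i)⁻¹ x ∈ A i := by
  intro x hx
  rw [← h] at hx
  obtain ⟨i, y, hy, rfl⟩ := Set.mem_iUnion.1 hx
  exact ⟨i, by rwa [act_inv_act]⟩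

/-- The half of the data of a paradoxical decomposition given by one injective map. -/
lemma half (G : Subgroup SL) (E : Set V) (K : Finset SL) (hK : ∀ κ ∈ K, κ ∈ G) (f : V → V)
    (hf : ∀ x ∈ E, f x ∈ E ∧ ∃ κ ∈ K, f x = act κ x)
    (hinj : ∀ x ∈ E, ∀ y ∈ E, f x = f y → x = y) :
    ∃ (A : Fin K.card → Set V) (g : Fin K.card → SL), (∀ i, g i ∈ G) ∧
      (∀ i, A i ⊆ f '' E) ∧ Pairwise (fun i i' => Disjoint (A i) (A i')) ∧
      (⋃ i, act (g i) '' A i) = E := by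
  classical
  have e : Fin K.card ≃ K := K.equivFin.symm
  have h1 : ∀ x : E, ∃ i : Fin K.card, f x = act (e i : SL) x := by
    intro x
    obtain ⟨κ, hκ, h⟩ := (hf x x.2).2
    exact ⟨e.symm ⟨κ, hκ⟩, by simpa using h⟩
  choose ix hix using h1
  refine ⟨fun i => {y | ∃ x : E, ix x = i ∧ y = f x}, fun i => (e i : SL)⁻¹,
    fun i => G.inv_mem (hK _ (e i).2), ?_, ?_, ?_⟩
  · rintro i y ⟨x, -, rfl⟩
    exact ⟨x, x.2, rfl⟩
  · intro i i' hii
    rw [Set.disjoint_left]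
    rintro y ⟨x, hx, rfl⟩ ⟨x', hx', h⟩
    have : x = x' := Subtype.ext (hinj x x.2 x' x'.2 h)
    subst this
    exact hii (hx.symm.trans hx')
  · ext x
    constructor
    · intro hx
      obtain ⟨i, y, ⟨z, hz, rfl⟩, rfl⟩ := Set.mem_iUnion.1 hx
      show act (e i : SL)⁻¹ (f z) ∈ E
      rw [hix z, hz, act_inv_act]
      exact z.2
    · intro hx
      refine Set.mem_iUnion.2 ⟨ix ⟨x, hx⟩, f x, ⟨⟨x, hx⟩, rfl, rfl⟩, ?_⟩
      show act (e (ix ⟨x, hx⟩) : SL)⁻¹ (f x) = x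
      have := hix ⟨x, hx⟩
      rw [show f x = act (e (ix ⟨x, hx⟩) : SL) x from this, act_inv_act]

end PAR

theorem t_PAR : S_PAR := by
  classical
  intro G E hE
  constructor
  · rintro ⟨n, m, A, B, g, h, _, _, hg, hh, hA, hB, hAA, hBB, hAB, hgA, hhB⟩
    have h1 : ∀ x : E, ∃ i, act (g i)⁻¹ x ∈ A i := fun x => PAR.exists_index hgA x x.2
    have h2 : ∀ x : E, ∃ j, act (h j)⁻¹ x ∈ B j := fun x => PAR.exists_index hhB x x.2
    choose ia hia using h1
    choose ib hib using h2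
    let K : Finset SL := (Finset.univ.image fun i => (g i)⁻¹) ∪ (Finset.univ.image fun j => (h j)⁻¹)
    let f0 : V → V := fun x => if hx : x ∈ E then act (g (ia ⟨x, hx⟩))⁻¹ x else x
    let f1 : V → V := fun x => if hx : x ∈ E then act (h (ib ⟨x, hx⟩))⁻¹ x else x
    have e0 : ∀ x (hx : x ∈ E), f0 x = act (g (ia ⟨x, hx⟩))⁻¹ x := fun x hx => dif_pos hx
    have e1 : ∀ x (hx : x ∈ E), f1 x = act (h (ib ⟨x, hx⟩))⁻¹ x := fun x hx => dif_pos hx
    have m0 : ∀ x (hx : x ∈ E), f0 x ∈ A (ia ⟨x, hx⟩) := fun x hx => by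
      rw [e0 x hx]; exact hia ⟨x, hx⟩
    have m1 : ∀ x (hx : x ∈ E), f1 x ∈ B (ib ⟨x, hx⟩) := fun x hx => by
      rw [e1 x hx]; exact hib ⟨x, hx⟩
    have i0 : ∀ x ∈ E, ∀ y ∈ E, f0 x = f0 y → x = y := by
      intro x hx y hy hxy
      have ha := m0 x hx
      have hb := m0 y hy
      rw [← hxy] at hb
      have hii : ia ⟨x, hx⟩ = ia ⟨y, hy⟩ := by
        by_contra hne
        exact Set.disjoint_left.1 (hAA hne) ha hb
      rw [e0 x hx, e0 y hy, ← hii] at hxy
      exact act_inj _ hxy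
    have i1 : ∀ x ∈ E, ∀ y ∈ E, f1 x = f1 y → x = y := by
      intro x hx y hy hxy
      have ha := m1 x hx
      have hb := m1 y hy
      rw [← hxy] at hb
      have hii : ib ⟨x, hx⟩ = ib ⟨y, hy⟩ := by
        by_contra hne
        exact Set.disjoint_left.1 (hBB hne) ha hb
      rw [e1 x hx, e1 y hy, ← hii] at hxy
      exact act_inj _ hxy
    have i01 : ∀ x ∈ E, ∀ y ∈ E, f0 x ≠ f1 y := by
      intro x hx y hy hxy
      have ha := m0 x hx
      rw [hxy] at ha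
      exact Set.disjoint_left.1 (hAB _ _) ha (m1 y hy)
    refine ⟨K, ?_, ?_⟩
    · intro κ hκ
      rcases Finset.mem_union.1 hκ with hκ | hκ
      · obtain ⟨i, -, rfl⟩ := Finset.mem_image.1 hκ
        exact G.inv_mem (hg i)
      · obtain ⟨i, -, rfl⟩ := Finset.mem_image.1 hκ
        exact G.inv_mem (hh i)
    · refine ⟨![f0, f1], ?_, ?_⟩
      · intro i x hx
        fin_cases i
        · show f0 x ∈ E ∧ ∃ κ ∈ K, f0 x = act κ x
          exact ⟨hA _ (m0 x hx), _, Finset.mem_union_left _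
            (Finset.mem_image_of_mem _ (Finset.mem_univ _)), e0 x hx⟩
        · show f1 x ∈ E ∧ ∃ κ ∈ K, f1 x = act κ x
          exact ⟨hB _ (m1 x hx), _, Finset.mem_union_right _
            (Finset.mem_image_of_mem _ (Finset.mem_univ _)), e1 x hx⟩
      · intro i j x hx y hy hxy
        fin_cases i <;> fin_cases j
        · exact ⟨rfl, i0 x hx y hy hxy⟩
        · exact absurd hxy (i01 x hx y hy)
        · exact absurd hxy.symm (i01 y hy x hx)
        · exact ⟨rfl, i1 x hx y hy hxy⟩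
  · rintro ⟨K, hK, f, hf, hinj⟩
    obtain ⟨x0, hx0⟩ := hE
    have hKn : 0 < K.card := by
      obtain ⟨κ, hκ, -⟩ := (hf 0 x0 hx0).2
      exact Finset.card_pos.2 ⟨κ, hκ⟩
    obtain ⟨A, g, hg, hA, hAA, hgA⟩ := PAR.half G E K hK (f 0) (hf 0)
      (fun x hx y hy h => (hinj 0 0 x hx y hy h).2)
    obtain ⟨B, h, hh, hB, hBB, hhB⟩ := PAR.half G E K hK (f 1) (hf 1)
      (fun x hx y hy h => (hinj 1 1 x hx y hy h).2)
    refine ⟨K.card, K.card, A, B, g, h, hKn, hKn, hg, hh, ?_, ?_, hAA, hBB, ?_, hgA, hhB⟩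
    · intro i y hy
      obtain ⟨x, hx, rfl⟩ := hA i hy
      exact (hf 0 x hx).1
    · intro i y hy
      obtain ⟨x, hx, rfl⟩ := hB i hy
      exact (hf 1 x hx).1
    · intro i j
      rw [Set.disjoint_left]
      intro y hy hy'
      obtain ⟨x, hx, rfl⟩ := hA i hy
      obtain ⟨x', hx', h'⟩ := hB j hy'
      have := (hinj 1 0 x' hx' x hx h').1
      exact absurd this (by decide)

end SQD
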