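import Pool.Agent.SQD.StB

/-!
# SQD: ping pong and counting
-/

set_option autoImplicit false

namespace SQD

namespace PNG

/-- The norm on pairs of complex numbers attached to an absolute value. -/
noncomputable def nm (v : AbsoluteValue ℂ ℝ) (z : Fin 2 → ℂ) : ℝ := v (z 0) + v (z 1)

/-- A real vector as a complex vector. -/
noncomputable def cx (x : V) : Fin 2 → ℂ := fun k => (x k : ℂ)

/-- The moves. -/
noncomputable def mv {m : ℕ} (g : Fin m → SL) (n : ℕ) (p : Fin m × Bool) : SL :=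
  if p.2 then (g p.1) ^ n else ((g p.1) ^ n)⁻¹

lemma nm_nonneg (v : AbsoluteValue ℂ ℝ) (z : Fin 2 → ℂ) : 0 ≤ nm v z :=
  add_nonneg (v.nonneg _) (v.nonneg _)

lemma nm_pos (v : AbsoluteValue ℂ ℝ) {x : V} (hx : x ≠ 0) : 0 < nm v (cx x) := by
  by_contra h
  have h0 : nm v (cx x) = 0 := le_antisymm (not_lt.1 h) (nm_nonneg v _)
  unfold nm at h0
  have h1 := v.nonneg (cx x 0)
  have h2 := v.nonneg (cx x 1)
  have h3 : v (cx x 0) = 0 := by linarith
  have h4 : v (cx x 1) = 0 := by linarith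
  rw [v.eq_zero] at h3 h4
  apply hx
  funext k
  fin_cases k
  · simpa [cx] using h3
  · simpa [cx] using h4

lemma sub_le_add (v : AbsoluteValue ℂ ℝ) (a b : ℂ) : v (a - b) ≤ v a + v b := by
  have h := v.add_le a (-b)
  rwa [v.map_neg, ← sub_eq_add_neg] at h

lemma cdt_le (v : AbsoluteValue ℂ ℝ) (x y : Fin 2 → ℂ) : v (cdt x y) ≤ nm v x * nm v y := by
  have h := sub_le_add v (x 0 * y 1) (x 1 * y 0)
  unfold cdt nm
  rw [v.map_mul, v.map_mul] at h
  have h1 := mul_nonneg (v.nonneg (x 0)) (v.nonneg (y 0))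
  have h2 := mul_nonneg (v.nonneg (x 1)) (v.nonneg (y 1))
  nlinarith

lemma nm_le (v : AbsoluteValue ℂ ℝ) (e f z : Fin 2 → ℂ) (hef : cdt e f ≠ 0) :
    nm v z ≤ (nm v e + nm v f) / v (cdt e f) * (v (cdt z e) + v (cdt z f)) := by
  have hv : 0 < v (cdt e f) := v.pos hef
  have hk : ∀ k : Fin 2, v (cdt e f) * v (z k) ≤ v (cdt z f) * v (e k) + v (cdt z e) * v (f k) := by
    intro k
    have h1 : cdt e f * z k = cdt z f * e k - cdt z e * f k := by
      unfold cdt
      fin_cases k <;> simp <;> ring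
    have h2 := sub_le_add v (cdt z f * e k) (cdt z e * f k)
    rw [← h1, v.map_mul, v.map_mul, v.map_mul] at h2
    exact h2
  have h0 := hk 0
  have h1 := hk 1
  rw [div_mul_eq_mul_div, le_div_iff₀ hv]
  unfold nm
  have a1 := mul_nonneg (v.nonneg (cdt z e)) (v.nonneg (e 0))
  have a2 := mul_nonneg (v.nonneg (cdt z e)) (v.nonneg (e 1))
  have a3 := mul_nonneg (v.nonneg (cdt z f)) (v.nonneg (f 0))
  have a4 := mul_nonneg (v.nonneg (cdt z f)) (v.nonneg (f 1))
  nlinarith

lemma cm_mulVec_cx (h : SL) (x : V) : (cm h).mulVec (cx x) = cx (act h x) := by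
  funext k
  fin_cases k
  · simp [cm, cx, act_apply_zero, Matrix.mulVec, dotProduct, Fin.sum_univ_two]
  · simp [cm, cx, act_apply_one, Matrix.mulVec, dotProduct, Fin.sum_univ_two]

lemma cdt_mulVec (h : SL) (z w : Fin 2 → ℂ) :
    cdt ((cm h).mulVec z) ((cm h).mulVec w) = cdt z w := by
  have hd := det_eq h
  have hd' : ((h : M2) 0 0 : ℂ) * ((h : M2) 1 1 : ℂ) - ((h : M2) 0 1 : ℂ) * ((h : M2) 1 0 : ℂ) = 1 := by
    exact_mod_cast hd
  unfold cdt
  simp only [cm, Matrix.mulVec, dotProduct, Fin.sum_univ_two, Matrix.map_apply]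
  linear_combination (z 0 * w 1 - z 1 * w 0) * hd'

lemma cm_one : cm 1 = 1 := by
  ext i j
  fin_cases i <;> fin_cases j <;> simp [cm]

lemma eig_pow (h : SL) (e : Fin 2 → ℂ) (l : ℂ) (he : (cm h).mulVec e = l • e) (n : ℕ) :
    (cm (h ^ n)).mulVec e = l ^ n • e := by
  induction n with
  | zero => simp [cm_one]
  | succ n ih =>
    rw [pow_succ, cm_mul, ← Matrix.mulVec_mulVec, he, Matrix.mulVec_smul, ih, smul_smul, pow_succ,
      mul_comm]

lemma eig_inv (h : SL) (e : Fin 2 → ℂ) (l : ℂ) (hl : l ≠ 0) (he : (cm h).mulVec e = l • e) :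
    (cm h⁻¹).mulVec e = l⁻¹ • e := by
  have h1 : (cm h⁻¹).mulVec ((cm h).mulVec e) = e := by
    rw [Matrix.mulVec_mulVec, ← cm_mul, inv_mul_cancel, cm_one, Matrix.one_mulVec]
  rw [he, Matrix.mulVec_smul] at h1
  calc (cm h⁻¹).mulVec e = l⁻¹ • (l • (cm h⁻¹).mulVec e) := by
        rw [smul_smul, inv_mul_cancel₀ hl, one_smul]
    _ = l⁻¹ • e := by rw [h1]

lemma mv_eig {m : ℕ} (μ : ℂ) (hμ : μ ≠ 0) (e : Fin m → Bool → Fin 2 → ℂ) (g : Fin m → SL)
    (h1 : ∀ i, (cm (g i)).mulVec (e i true) = μ • e i true)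
    (h2 : ∀ i, (cm (g i)).mulVec (e i false) = μ⁻¹ • e i false) (n : ℕ) (p : Fin m × Bool) :
    (cm (mv g n p)).mulVec (e p.1 (!p.2)) = (μ⁻¹) ^ n • e p.1 (!p.2) := by
  obtain ⟨i, s⟩ := p
  cases s with
  | true => simpa [mv] using eig_pow _ _ _ (h2 i) n
  | false =>
    have h := eig_inv _ _ _ (pow_ne_zero n hμ) (eig_pow _ _ _ (h1 i) n)
    simpa [mv] using h

lemma small {m : ℕ} (v : AbsoluteValue ℂ ℝ) (μ : ℂ) (hμ : 1 < v μ)
    (e : Fin m → Bool → Fin 2 → ℂ) (g : Fin m → SL)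
    (h1 : ∀ i, (cm (g i)).mulVec (e i true) = μ • e i true)
    (h2 : ∀ i, (cm (g i)).mulVec (e i false) = μ⁻¹ • e i false) (n : ℕ) (p : Fin m × Bool)
    (x : V) (hx : nm v (cx (act (mv g n p) x)) ≤ nm v (cx x)) :
    (v μ) ^ n * v (cdt (cx x) (e p.1 (!p.2))) ≤ nm v (cx x) * nm v (e p.1 (!p.2)) := by
  have hμ0 : μ ≠ 0 := by
    intro h
    rw [h, v.map_zero] at hμ
    linarith
  have hv0 : 0 < v μ := by linarith
  have hq := mv_eig μ hμ0 e g h1 h2 n p
  have hc := cdt_mulVec (mv g n p) (cx x) (e p.1 (!p.2))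
  rw [hq, cm_mulVec_cx] at hc
  have hc2 : cdt (cx (act (mv g n p) x)) ((μ⁻¹) ^ n • e p.1 (!p.2)) =
      (μ⁻¹) ^ n * cdt (cx (act (mv g n p) x)) (e p.1 (!p.2)) := by
    unfold cdt
    simp only [Pi.smul_apply, smul_eq_mul]
    ring
  rw [hc2] at hc
  have hc3 : cdt (cx (act (mv g n p) x)) (e p.1 (!p.2)) = μ ^ n * cdt (cx x) (e p.1 (!p.2)) := by
    rw [← hc, ← mul_assoc, ← mul_pow, mul_inv_cancel₀ hμ0, one_pow, one_mul]
  have h5 := cdt_le v (cx (act (mv g n p) x)) (e p.1 (!p.2))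
  rw [hc3, v.map_mul, v.map_pow] at h5
  exact h5.trans (mul_le_mul_of_nonneg_right hx (nm_nonneg v _))

end PNG

open PNG in
theorem t_PNG : S_PNG := by
  intro v μ m e g hμ h1 h2 hind
  set E : Fin m × Bool → Fin 2 → ℂ := fun p => e p.1 p.2 with hE
  set B : ℝ := ∑ p : Fin m × Bool, nm v (E p) with hB
  set C : ℝ := ∑ p : Fin m × Bool, ∑ q : Fin m × Bool, (nm v (E p) + nm v (E q)) / v (cdt (E p) (E q))
    with hC
  have hB1 : ∀ p, nm v (E p) ≤ B := fun p =>
    Finset.single_le_sum (f := fun p => nm v (E p)) (fun q _ => nm_nonneg v _) (Finset.mem_univ p)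
  have hcn : ∀ p q : Fin m × Bool, 0 ≤ (nm v (E p) + nm v (E q)) / v (cdt (E p) (E q)) := fun p q =>
    div_nonneg (add_nonneg (nm_nonneg v _) (nm_nonneg v _)) (v.nonneg _)
  have hC1 : ∀ p q, (nm v (E p) + nm v (E q)) / v (cdt (E p) (E q)) ≤ C := fun p q =>
    (Finset.single_le_sum (f := fun q => (nm v (E p) + nm v (E q)) / v (cdt (E p) (E q)))
      (fun r _ => hcn p r) (Finset.mem_univ q)).trans
      (Finset.single_le_sum (f := fun p => ∑ q : Fin m × Bool,
        (nm v (E p) + nm v (E q)) / v (cdt (E p) (E q)))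
        (fun r _ => Finset.sum_nonneg fun s _ => hcn r s) (Finset.mem_univ p))
  have hC0 : 0 ≤ C := Finset.sum_nonneg fun p _ => Finset.sum_nonneg fun q _ => hcn p q
  obtain ⟨n₀, hn₀⟩ := pow_unbounded_of_one_lt (2 * B * C) hμ
  refine ⟨n₀, fun n hn X hX => ?_⟩
  classical
  have hbig : 2 * B * C < (v μ) ^ n := hn₀.trans_le (pow_le_pow_right₀ hμ.le hn)
  have hvn : 0 < (v μ) ^ n := pow_pos (by linarith) n
  -- at most one move does not increase the norm
  have huniq : ∀ x : V, x ≠ 0 → ∀ p q : Fin m × Bool,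
      nm v (cx (act (mv g n p) x)) ≤ nm v (cx x) →
      nm v (cx (act (mv g n q) x)) ≤ nm v (cx x) → p = q := by
    intro x hx p q hp hq
    by_contra hpq
    have hne : ((p.1, !p.2) : Fin m × Bool) ≠ (q.1, !q.2) := by
      intro h
      apply hpq
      rw [Prod.mk.injEq] at h
      exact Prod.ext h.1 (by simpa using h.2)
    have hd : cdt (E (p.1, !p.2)) (E (q.1, !q.2)) ≠ 0 := hind _ _ _ _ hne
    have s1 := small v μ hμ e g h1 h2 n p x hp
    have s2 := small v μ hμ e g h1 h2 n q x hq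
    have s3 := nm_le v (E (p.1, !p.2)) (E (q.1, !q.2)) (cx x) hd
    have hN := nm_pos v hx
    have b1 := hB1 (p.1, !p.2)
    have b2 := hB1 (q.1, !q.2)
    have c1 := hC1 (p.1, !p.2) (q.1, !q.2)
    simp only [hE] at s3 b1 b2 c1
    have t1 : (v μ) ^ n * (v (cdt (cx x) (e p.1 (!p.2))) + v (cdt (cx x) (e q.1 (!q.2)))) ≤
        nm v (cx x) * (2 * B) := by
      have u1 := mul_le_mul_of_nonneg_left b1 hN.le
      have u2 := mul_le_mul_of_nonneg_left b2 hN.le
      linarith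
    have t2 : nm v (cx x) ≤ C * (v (cdt (cx x) (e p.1 (!p.2))) + v (cdt (cx x) (e q.1 (!q.2)))) :=
      s3.trans (mul_le_mul_of_nonneg_right c1 (add_nonneg (v.nonneg _) (v.nonneg _)))
    have t3 : (v μ) ^ n * nm v (cx x) ≤ (2 * B * C) * nm v (cx x) := by
      calc (v μ) ^ n * nm v (cx x) ≤ (v μ) ^ n *
            (C * (v (cdt (cx x) (e p.1 (!p.2))) + v (cdt (cx x) (e q.1 (!q.2))))) :=
            mul_le_mul_of_nonneg_left t2 hvn.le
        _ = C * ((v μ) ^ n * (v (cdt (cx x) (e p.1 (!p.2))) + v (cdt (cx x) (e q.1 (!q.2))))) := by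
            ring
        _ ≤ C * (nm v (cx x) * (2 * B)) := mul_le_mul_of_nonneg_left t1 hC0
        _ = (2 * B * C) * nm v (cx x) := by ring
    have t4 := le_of_mul_le_mul_right t3 hN
    linarith
  -- the moves that increase the norm
  set S : V → Finset (Fin m × Bool) := fun x =>
    Finset.univ.filter fun p => nm v (cx x) < nm v (cx (act (mv g n p) x)) with hS
  have hScard : ∀ x ∈ X, 2 * m - 1 ≤ (S x).card := by
    intro x hx
    have hx0 : x ≠ 0 := fun h => hX (h ▸ hx)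
    have h3 := Finset.card_filter_add_card_filter_not (s := (Finset.univ : Finset (Fin m × Bool)))
      (fun p => nm v (cx x) < nm v (cx (act (mv g n p) x)))
    have h4 : (Finset.univ.filter fun p : Fin m × Bool =>
        ¬ nm v (cx x) < nm v (cx (act (mv g n p) x))).card ≤ 1 := by
      rw [Finset.card_le_one]
      intro p hp q hq
      rw [Finset.mem_filter] at hp hq
      exact huniq x hx0 p q (not_lt.1 hp.2) (not_lt.1 hq.2)
    have h5 : (Finset.univ : Finset (Fin m × Bool)).card = 2 * m := by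
      rw [Finset.card_univ, Fintype.card_prod, Fintype.card_fin, Fintype.card_bool, mul_comm]
    rw [h5] at h3
    have h6 : (S x).card = (Finset.univ.filter fun p : Fin m × Bool =>
      nm v (cx x) < nm v (cx (act (mv g n p) x))).card := rfl
    omega
  set P : Finset (Σ _ : V, Fin m × Bool) := X.sigma S with hP
  have hPcard : (2 * m - 1) * X.card ≤ P.card := by
    rw [hP, Finset.card_sigma, mul_comm, ← smul_eq_mul]
    exact Finset.card_nsmul_le_sum X (fun x => (S x).card) _ hScard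
  refine ⟨P.image fun z => act (mv g n z.2) z.1, ?_, ?_⟩
  · intro y hy
    rw [Finset.mem_image] at hy
    obtain ⟨⟨x, p⟩, hz, rfl⟩ := hy
    rw [hP, Finset.mem_sigma] at hz
    refine ⟨p.1, x, hz.1, ?_⟩
    obtain ⟨i, s⟩ := p
    cases s with
    | true => left; simp [mv]
    | false => right; simp [mv]
  · rw [Finset.card_image_of_injOn]
    · exact hPcard
    · rintro ⟨x, p⟩ hz ⟨y, q⟩ hw hxy
      rw [Finset.mem_coe, hP, Finset.mem_sigma] at hz hw
      have hxy' : act (mv g n p) x = act (mv g n q) y := hxy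
      have hx0 : x ≠ 0 := fun h => hX (h ▸ hz.1)
      have hz2 := (Finset.mem_filter.1 hz.2).2
      have hw2 := (Finset.mem_filter.1 hw.2).2
      have hinv : ∀ r : Fin m × Bool, mv g n (r.1, !r.2) = (mv g n r)⁻¹ := by
        rintro ⟨i, s⟩
        cases s with
        | true => simp [mv]
        | false => simp [mv]
      have e1 : act (mv g n (p.1, !p.2)) (act (mv g n p) x) = x := by
        rw [hinv, act_inv_act]
      have e2 : act (mv g n (q.1, !q.2)) (act (mv g n p) x) = y := by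
        rw [hinv, hxy', act_inv_act]
      have hpq := huniq (act (mv g n p) x) (act_ne_zero _ hx0) (p.1, !p.2) (q.1, !q.2)
        (by rw [e1]; exact hz2.le) (by rw [e2, hxy']; exact hw2.le)
      rw [Prod.mk.injEq] at hpq
      have hpq' : p = q := Prod.ext hpq.1 (by simpa using hpq.2)
      subst hpq'
      have hxy2 : x = y := act_inj _ hxy'
      subst hxy2
      rfl

end SQD
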