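import Pool.Agent.SQD.StB

/-!
# SQD, module QFT: the open unit square
-/

set_option autoImplicit false

open MeasureTheory

namespace SQD

namespace QFT

lemma q_eq_pi : Q = Set.pi Set.univ fun _ : Fin 2 => Set.Ioo (0 : ℝ) 1 := by
  ext v
  simp [Q, Set.mem_pi]

lemma q_sub : Q ⊆ Metric.closedBall (0 : V) 1 := by
  intro v hv
  rw [mem_closedBall_zero_iff, pi_norm_le_iff_of_nonneg zero_le_one]
  intro k
  obtain ⟨h1, h2⟩ := hv k
  rw [Real.norm_eq_abs, abs_of_pos h1]
  exact h2.le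

lemma fat : Fat2 Q := by
  refine ⟨Metric.isBounded_closedBall.subset q_sub, ?_, {x | ∀ k, 0 < x k}, ?_, ⟨fun _ => 1, fun _ => zero_lt_one⟩,
    ?_, 1, zero_lt_one, ?_⟩
  · intro h
    exact lt_irrefl _ (h 0).1
  · rw [Set.ofPred_forall]
    exact isOpen_iInter_of_finite fun k => isOpen_lt continuous_const (continuous_apply k)
  · intro x hx t ht k
    exact mul_pos ht (hx k)
  · intro x hx hn k
    refine ⟨hx k, ?_⟩
    have h := (norm_le_pi_norm x k).trans_lt hn
    rw [Real.norm_eq_abs, abs_of_pos (hx k)] at h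
    exact h

lemma vol : volume Q = 1 := by
  rw [q_eq_pi, Real.volume_pi_Ioo]
  simp

end QFT

theorem t_QFT : S_QFT := by
  refine ⟨QFT.fat, ?_, ?_, ?_⟩
  · rw [QFT.vol]
    exact one_ne_zero
  · rw [QFT.vol]
    exact ENNReal.one_ne_top
  · rw [QFT.q_eq_pi]
    exact MeasurableSet.pi Set.countable_univ fun _ _ => measurableSet_Ioo

end SQD
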