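import Pool.Agent.SQD.StB

/-!
# SQD, module RES: finite residue fields of two characteristics
-/

set_option autoImplicit false
set_option linter.style.haveILetI false

namespace SQD

theorem RES.jacobson_int : IsJacobsonRing ℤ := by
  rw [isJacobsonRing_iff_prime_eq]
  intro P hP
  by_cases h : P = ⊥
  · subst h
    rw [eq_bot_iff]
    intro x hx
    rw [Ideal.mem_jacobson_bot] at hx
    have h1 := hx x
    rw [Int.isUnit_iff] at h1
    have h2 : x = 0 := by
      rcases h1 with h1 | h1 <;> nlinarith [sq_nonneg x]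
    rw [h2]
    exact Submodule.zero_mem _
  · have hmax : P.IsMaximal := Ideal.IsPrime.isMaximal hP h
    exact Ideal.jacobson_eq_self_of_isMaximal

theorem RES.residue (A : Type) [CommRing A] [Algebra.FiniteType ℤ A] (m : Ideal A)
    (hm : m.IsMaximal) : ∃ p : ℕ, p.Prime ∧ (p : A) ∈ m ∧ Finite (A ⧸ m) := by
  haveI := hm
  letI : Field (A ⧸ m) := Ideal.Quotient.field m
  haveI : Algebra.FiniteType ℤ (A ⧸ m) :=
    Algebra.FiniteType.of_surjective (Ideal.Quotient.mkₐ ℤ m) (Ideal.Quotient.mkₐ_surjective ℤ m)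
  have := RES.jacobson_int
  haveI : Module.Finite ℤ (A ⧸ m) := finite_of_finite_type_of_isJacobsonRing ℤ (A ⧸ m)
  obtain ⟨p, hp⟩ := CharP.exists (A ⧸ m)
  have hp0 : p ≠ 0 := by
    rintro rfl
    haveI : CharZero (A ⧸ m) := CharP.charP_to_charZero (A ⧸ m)
    have hinj : Function.Injective (algebraMap ℤ (A ⧸ m)) := by
      intro a b hab
      simpa using hab
    have : IsField ℤ :=
      isField_of_isIntegral_of_isField hinj (Field.toIsField (A ⧸ m))
    exact Int.not_isField this
  have hprime : p.Prime := (CharP.char_is_prime_or_zero (A ⧸ m) p).resolve_right hp0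
  have hpz : (p : A ⧸ m) = 0 := CharP.cast_eq_zero (A ⧸ m) p
  refine ⟨p, hprime, ?_, ?_⟩
  · rw [← Ideal.Quotient.eq_zero_iff_mem]
    exact hpz
  · letI : Algebra (ZMod p) (A ⧸ m) := ZMod.algebra (A ⧸ m) p
    haveI : Module.Finite (ZMod p) (A ⧸ m) := by
      haveI : IsScalarTower ℤ (ZMod p) (A ⧸ m) := by
        refine IsScalarTower.of_algebraMap_eq fun x => ?_
        simp
      exact Module.Finite.of_restrictScalars_finite ℤ (ZMod p) (A ⧸ m)
    haveI : NeZero p := ⟨hp0⟩
    exact Module.finite_of_finite (ZMod p)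

theorem RES.tower (A B : Type) [CommRing A] [h : Algebra.FiniteType ℤ A] [CommRing B]
    [Algebra A B] [hB : Algebra.FiniteType A B] : Algebra.FiniteType ℤ B :=
  Algebra.FiniteType.trans h hB

theorem RES.away (A B : Type) [CommRing A] [Algebra.FiniteType ℤ A] [CommRing B] [Nontrivial B]
    [Algebra A B] [Algebra.FiniteType A B] : ∃ (n : Ideal B) (p : ℕ), n.IsMaximal ∧ p.Prime ∧
      (p : B) ∈ n ∧ Finite (B ⧸ n) := by
  haveI := RES.tower A B
  obtain ⟨n, hn⟩ := Ideal.exists_maximal B
  obtain ⟨p, h1, h2, h3⟩ := RES.residue B n hn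
  exact ⟨n, p, hn, h1, h2, h3⟩

theorem t_RES : S_RES := by
  intro A _ _ _ _
  obtain ⟨m1, hm1⟩ := Ideal.exists_maximal A
  obtain ⟨p1, hp1, hpm1, hf1⟩ := RES.residue A m1 hm1
  have hp1A : (p1 : A) ≠ 0 := by
    exact_mod_cast hp1.ne_zero
  haveI : Nontrivial (Localization.Away (p1 : A)) := by
    have hle : Submonoid.powers (p1 : A) ≤ nonZeroDivisors A := by
      rintro x ⟨n, rfl⟩
      exact mem_nonZeroDivisors_of_ne_zero (pow_ne_zero n hp1A)
    exact (IsLocalization.injective (Localization.Away (p1 : A)) hle).nontrivial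
  obtain ⟨n, p2, hn, hp2, hpn, hf2⟩ := RES.away A (Localization.Away (p1 : A))
  have hunit : IsUnit ((p1 : ℕ) : Localization.Away (p1 : A)) := by
    have := IsLocalization.Away.algebraMap_isUnit (S := Localization.Away (p1 : A)) (p1 : A)
    simpa using this
  have hne : p1 ≠ p2 := by
    rintro rfl
    exact hn.ne_top (Ideal.eq_top_of_isUnit_mem n hpn hunit)
  set f : A →+* Localization.Away (p1 : A) := algebraMap A (Localization.Away (p1 : A)) with hf
  have hinj : Function.Injective (Ideal.quotientMap n f (le_refl (n.comap f))) :=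
    Ideal.quotientMap_injective
  haveI hfin : Finite (A ⧸ n.comap f) := Finite.of_injective _ hinj
  haveI : n.IsPrime := hn.isPrime
  haveI : (n.comap f).IsPrime := Ideal.comap_isPrime f n
  haveI : IsDomain (A ⧸ n.comap f) := inferInstance
  have hmax : (n.comap f).IsMaximal := by
    apply Ideal.Quotient.maximal_of_isField
    exact Finite.isField_of_domain _
  refine ⟨m1, n.comap f, p1, p2, hm1, hmax, hp1, hp2, hne, hpm1, ?_, hf1, hfin⟩
  rw [Ideal.mem_comap]
  simpa [hf] using hpn

end SQD
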