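import Pool.Agent.SQD.StA

/-!
# SQD, module SOL: conjugation up to a scalar defines a homomorphism with commutative kernel
-/

set_option autoImplicit false

open MeasureTheory

namespace SQD

namespace SOL

/-- The product of a nonzero matrix with a matrix of determinant one is not zero. -/
lemma mul_ne_zero' {Y : M2} (hY : Y ≠ 0) (g : SL) : Y * (g : M2) ≠ 0 := by
  intro h
  apply hY
  have h1 : (g : M2) * ((g⁻¹ : SL) : M2) = 1 := by
    rw [← Matrix.SpecialLinearGroup.coe_mul, mul_inv_cancel, Matrix.SpecialLinearGroup.coe_one]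
  calc Y = Y * ((g : M2) * ((g⁻¹ : SL) : M2)) := by rw [h1, mul_one]
    _ = 0 := by rw [← mul_assoc, h, zero_mul]

/-- Uniqueness of the scalar. -/
lemma uniq {Y : M2} (hY : Y ≠ 0) (g : SL) {c d : ℝ}
    (h : c • (Y * (g : M2)) = d • (Y * (g : M2))) : c = d := by
  have h1 : (c - d) • (Y * (g : M2)) = 0 := by rw [sub_smul, h, sub_self]
  rcases smul_eq_zero.1 h1 with h2 | h2
  · linarith
  · exact absurd h2 (mul_ne_zero' hY g)

end SOL

open SOL in
theorem t_SOL : M_SOL := by
  intro hC G Y hY htr h
  choose c hc using h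
  let φ : G →* ℝ :=
    { toFun := fun g => c g.1 g.2
      map_one' := by
        apply uniq hY (1 : SL)
        have h1 := hc 1 (one_mem G)
        rw [← show c (1 : SL) (one_mem G) • (Y * ((1 : SL) : M2)) = c ((1 : G) : SL) (1 : G).2 •
          (Y * ((1 : SL) : M2)) from rfl, ← h1, Matrix.SpecialLinearGroup.coe_one]
        simp
      map_mul' := fun x y => by
        apply uniq hY ((x : SL) * (y : SL))
        have h1 := hc x.1 x.2
        have h2 := hc y.1 y.2
        have h3 := hc (x.1 * y.1) (mul_mem x.2 y.2)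
        change c (x.1 * y.1) (mul_mem x.2 y.2) • (Y * ((x.1 * y.1 : SL) : M2)) = _
        rw [← h3, Matrix.SpecialLinearGroup.coe_mul, mul_assoc, h2, mul_smul_comm, ← mul_assoc, h1,
          smul_mul_assoc, smul_smul, mul_comm (c y.1 y.2), mul_assoc Y] }
  refine ⟨φ.toHomUnits, ?_⟩
  intro x y hx hy
  have key : ∀ z : G, φ.toHomUnits z = 1 → ((z : SL) : M2) * Y = Y * ((z : SL) : M2) := by
    intro z hz
    have h1 : c z.1 z.2 = 1 := by
      have h2 : φ z = 1 := by
        rw [← MonoidHom.coe_toHomUnits, hz, Units.val_one]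
      exact h2
    have h3 := hc z.1 z.2
    rw [h1, one_smul] at h3
    exact h3
  have h4 := hC Y hY htr _ _ (key x hx) (key y hy)
  apply Subtype.ext
  apply Matrix.SpecialLinearGroup.ext
  intro i j
  have h5 : (((x : SL) * (y : SL) : SL) : M2) = (((y : SL) * (x : SL) : SL) : M2) := by
    rw [Matrix.SpecialLinearGroup.coe_mul, Matrix.SpecialLinearGroup.coe_mul]
    exact h4
  exact congrFun (congrFun h5 i) j

end SQD
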