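import Pool.Agent.SQD.StB

/-!
# SQD, module TIT: the lemma of Tits
-/

set_option autoImplicit false

open Polynomial

namespace SQD

namespace TIT

lemma av_of (hA : S_AUT) (R L : Type) [CommRing R] [IsDomain R] [Countable R] [NormedField L]
    [IsAlgClosed L] [CharZero L] (i : R →+* ℂ) (j : R →+* L) (hi : Function.Injective i)
    (hj : Function.Injective j) (hL : Cardinal.mk L = Cardinal.continuum) :
    ∃ v : AbsoluteValue ℂ ℝ, ∀ r, v (i r) = ‖j r‖ := by
  obtain ⟨σ, hσ⟩ := hA R L i j hi hj hL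
  refine ⟨(IsAbsoluteValue.toAbsoluteValue (norm : L → ℝ)).comp (f := σ.toRingHom) σ.injective,
    fun r => ?_⟩
  show ‖σ (i r)‖ = _
  rw [hσ]

instance countable_poly : Countable ℚ[X] := by
  have h := Polynomial.cardinalMk_le_max (R := ℚ)
  rw [← Cardinal.mk_le_aleph0_iff]
  simp at h ⊢

lemma transc (hA : S_AUT) (x : ℂ) (hx : Transcendental ℚ x) :
    ∃ v : AbsoluteValue ℂ ℝ, v x = ‖2 * x‖ := by
  have h2 : Transcendental ℚ (2 * x) := by
    intro h
    apply hx
    have h3 : IsAlgebraic ℚ ((2⁻¹ : ℂ) * (2 * x)) := by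
      refine IsAlgebraic.mul ?_ h
      have h4 : IsAlgebraic ℚ (algebraMap ℚ ℂ 2⁻¹) := isAlgebraic_algebraMap _
      simpa using h4
    rwa [← mul_assoc, inv_mul_cancel₀ (two_ne_zero), one_mul] at h3
  obtain ⟨v, hv⟩ := av_of hA ℚ[X] ℂ (aeval x).toRingHom (aeval (2 * x)).toRingHom
    (transcendental_iff_injective.1 hx) (transcendental_iff_injective.1 h2) Cardinal.mk_complex
  refine ⟨v, ?_⟩
  have := hv X
  simpa using this

lemma algeb (hA : S_AUT) (L : Type) [NormedField L]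
    [IsAlgClosed L] [CharZero L] (hL : Cardinal.mk L = Cardinal.continuum) (x : ℂ)
    (hx : IsAlgebraic ℚ x) (y : L) (hy : aeval y (minpoly ℚ x) = 0) :
    ∃ v : AbsoluteValue ℂ ℝ, v x = ‖y‖ := by
  have hirr : Irreducible (minpoly ℚ x) := minpoly.irreducible hx.isIntegral
  have : Fact (Irreducible (minpoly ℚ x)) := ⟨hirr⟩
  have : Countable (AdjoinRoot (minpoly ℚ x)) :=
    Function.Surjective.countable (f := AdjoinRoot.mk (minpoly ℚ x)) AdjoinRoot.mk_surjective
  have h1 : eval₂ (algebraMap ℚ ℂ) x (minpoly ℚ x) = 0 := minpoly.aeval ℚ x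
  have h2 : eval₂ (algebraMap ℚ L) y (minpoly ℚ x) = 0 := hy
  obtain ⟨v, hv⟩ := av_of hA (AdjoinRoot (minpoly ℚ x)) L
    (AdjoinRoot.lift (algebraMap ℚ ℂ) x h1) (AdjoinRoot.lift (algebraMap ℚ L) y h2)
    (RingHom.injective _) (RingHom.injective _) hL
  refine ⟨v, ?_⟩
  have := hv (AdjoinRoot.root _)
  rwa [AdjoinRoot.lift_root, AdjoinRoot.lift_root] at this

/-- An algebraic integer, not zero and not a root of unity, has a conjugate of absolute value
different from one. -/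
lemma kron (x : ℂ) (hx : IsIntegral ℤ x) (hr : ∀ n : ℕ, 0 < n → x ^ n ≠ 1) :
    ∃ y : ℂ, aeval y (minpoly ℚ x) = 0 ∧ ‖y‖ ≠ 1 := by
  by_contra hcon
  push Not at hcon
  have hxQ : IsIntegral ℚ x := hx.tower_top
  let K := IntermediateField.adjoin ℚ {x}
  have : FiniteDimensional ℚ K := IntermediateField.adjoin.finiteDimensional hxQ
  have : NumberField K := ⟨⟩
  let g : K := IntermediateField.AdjoinSimple.gen ℚ x
  have hg : algebraMap K ℂ g = x := IntermediateField.AdjoinSimple.algebraMap_gen ℚ x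
  have hgi : IsIntegral ℤ g := by
    rw [← isIntegral_algebraMap_iff (B := ℂ) (algebraMap K ℂ).injective, hg]
    exact hx
  obtain ⟨n, hn, h⟩ := NumberField.Embeddings.pow_eq_one_of_norm_eq_one K ℂ hgi (fun φ => by
    apply hcon
    have hm : minpoly ℚ x = minpoly ℚ g := by
      rw [← hg]
      exact minpoly.algebraMap_eq (algebraMap K ℂ).injective g
    rw [hm]
    have : aeval (φ.toRatAlgHom g) (minpoly ℚ g) = 0 := by
      rw [aeval_algHom_apply, minpoly.aeval, map_zero]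
    exact this)
  apply hr n hn
  rw [← hg, ← map_pow, h, map_one]

end TIT

theorem t_TIT : M_TIT := by
  intro hA hP hN x hx0 hr
  by_cases h1 : ‖x‖ = 1
  · by_cases halg : IsAlgebraic ℚ x
    · by_cases hint : IsIntegral ℤ x
      · obtain ⟨y, hy, hy1⟩ := TIT.kron x hint hr
        obtain ⟨v, hv⟩ := TIT.algeb hA ℂ Cardinal.mk_complex x halg y hy
        exact ⟨v, by rw [hv]; exact hy1⟩
      · obtain ⟨p, hp, y, hy, hy1⟩ := hN x halg hint
        obtain ⟨v, hv⟩ := TIT.algeb hA (PadicAlgCl p) (hP p) x halg y hy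
        exact ⟨v, by rw [hv]; exact ne_of_gt hy1⟩
    · obtain ⟨v, hv⟩ := TIT.transc hA x halg
      refine ⟨v, ?_⟩
      rw [hv, norm_mul, h1]
      norm_num
  · exact ⟨IsAbsoluteValue.toAbsoluteValue (norm : ℂ → ℝ), h1⟩

end SQD
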