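import Pool.Agent.SQD.StB

/-!
# SQD: module TOR, torsion in congruence subgroups
-/

set_option autoImplicit false

open MeasureTheory

namespace SQD

namespace TOR

/-- The first two terms of the binomial theorem. -/
lemma exists_pow {R : Type} [Ring R] (X : R) (n : ℕ) :
    ∃ Z : R, (1 + X) ^ n = 1 + (n : R) * X + X * X * Z := by
  induction n with
  | zero => exact ⟨0, by simp⟩
  | succ n ih =>
    obtain ⟨Z, hZ⟩ := ih
    refine ⟨(n : R) + Z * (1 + X), ?_⟩
    rw [pow_succ, hZ]
    have h1 : (n : R) * X = X * n := (Nat.cast_commute n X).eq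
    have h2 : (n : R) * X * X = X * X * n := by
      rw [h1, mul_assoc, h1, mul_assoc]
    push_cast
    rw [add_mul, add_mul, add_mul, one_mul, mul_add, mul_add, mul_add, mul_add, mul_one, mul_one,
      mul_one, h2, one_mul, mul_add]
    rw [mul_assoc (X * X) Z X]
    abel

/-- The product of two matrices with entries in ideals. -/
lemma mul_mem {A : Type} [CommRing A] {I J : Ideal A} {X Y : Matrix (Fin 2) (Fin 2) A}
    (hX : ∀ i j, X i j ∈ I) (hY : ∀ i j, Y i j ∈ J) (i j : Fin 2) : (X * Y) i j ∈ I * J := by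
  rw [Matrix.mul_apply]
  exact Ideal.sum_mem _ fun k _ => Ideal.mul_mem_mul (hX i k) (hY k j)

end TOR

theorem t_TOR : S_TOR := by
  intro A _ _ _ m p l hm hp hl hpl hpm g hg hgl
  obtain ⟨X, rfl⟩ : ∃ X, g = 1 + X := ⟨g - 1, by abel⟩
  have hX : ∀ i j, X i j ∈ m := by
    intro i j
    have h1 := hg i j
    rw [Matrix.add_apply, add_sub_cancel_left] at h1
    exact h1
  obtain ⟨Z, hZ⟩ := TOR.exists_pow X l
  rw [hgl] at hZ
  have hlX : ∀ i j, (l : A) * X i j = - (X * X * Z) i j := by
    intro i j
    have h1 : (l : Matrix (Fin 2) (Fin 2) A) * X = - (X * X * Z) := by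
      have h2 : (1 : Matrix (Fin 2) (Fin 2) A) + ((l : Matrix (Fin 2) (Fin 2) A) * X + X * X * Z) =
          1 + 0 := by
        rw [← add_assoc, ← hZ, add_zero]
      exact eq_neg_of_add_eq_zero_left (add_left_cancel h2)
    have h3 := congrFun (congrFun h1 i) j
    rw [Matrix.neg_apply] at h3
    rw [← h3, ← nsmul_eq_mul, ← nsmul_eq_mul, Matrix.smul_apply]
  have hco : IsCoprime (l : ℤ) (p : ℤ) :=
    Nat.isCoprime_iff_coprime.mpr ((Nat.coprime_primes hl hp).mpr (Ne.symm hpl))
  obtain ⟨u, v, huv⟩ := hco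
  have huv' : (u : A) * (l : A) + (v : A) * (p : A) = 1 := by
    have := congrArg (fun t : ℤ => (t : A)) huv
    push_cast at this
    exact this
  have key : ∀ n : ℕ, ∀ i j, X i j ∈ m ^ (n + 1) := by
    intro n
    induction n with
    | zero =>
      intro i j
      rw [zero_add, pow_one]
      exact hX i j
    | succ n ih =>
      intro i j
      have h1 : X i j = (u : A) * ((l : A) * X i j) + (v : A) * ((p : A) * X i j) := by
        calc X i j = ((u : A) * (l : A) + (v : A) * (p : A)) * X i j := by rw [huv', one_mul]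
          _ = _ := by ring
      rw [h1]
      apply Ideal.add_mem
      · apply Ideal.mul_mem_left
        rw [hlX]
        apply neg_mem
        have h2 : (X * X * Z) i j ∈ (m ^ (n + 1) * m ^ (n + 1)) * ⊤ :=
          TOR.mul_mem (TOR.mul_mem ih ih) (fun _ _ => Submodule.mem_top) i j
        have h3 : (m ^ (n + 1) * m ^ (n + 1)) * ⊤ ≤ m ^ (n + 1 + 1) := by
          refine Ideal.mul_le_left.trans ?_
          rw [← pow_add]
          exact Ideal.pow_le_pow_right (by omega)
        exact h3 h2
      · apply Ideal.mul_mem_left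
        rw [pow_succ, mul_comm (m ^ (n + 1)) m]
        exact Ideal.mul_mem_mul hpm (ih i j)
  have hX0 : X = 0 := by
    ext i j
    have h1 : X i j ∈ (⨅ n : ℕ, m ^ n : Ideal A) := by
      rw [Ideal.mem_iInf]
      intro n
      exact Ideal.pow_le_pow_right (Nat.le_succ n) (key n i j)
    rw [Ideal.iInf_pow_eq_bot_of_isDomain m hm] at h1
    exact h1
  rw [hX0, add_zero]

end SQD
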