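import Pool.Agent.SQD.StB

/-!
# SQD, module TWO: a dense subgroup contains a dense subgroup with two generators
-/

set_option autoImplicit false

namespace SQD

namespace TWO

/-- The four entries of the equation `g Y = c Y g`. -/
lemma entries {g Y : M2} {c : ℝ} (h : g * Y = c • (Y * g)) :
    g 0 0 * Y 0 0 + g 0 1 * Y 1 0 = c * (Y 0 0 * g 0 0 + Y 0 1 * g 1 0) ∧
    g 0 0 * Y 0 1 + g 0 1 * Y 1 1 = c * (Y 0 0 * g 0 1 + Y 0 1 * g 1 1) ∧
    g 1 0 * Y 0 0 + g 1 1 * Y 1 0 = c * (Y 1 0 * g 0 0 + Y 1 1 * g 1 0) ∧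
    g 1 0 * Y 0 1 + g 1 1 * Y 1 1 = c * (Y 1 0 * g 0 1 + Y 1 1 * g 1 1) := by
  have e : ∀ i j, (g * Y) i j = (c • (Y * g)) i j := fun i j => by rw [h]
  simp only [Matrix.mul_apply, Fin.sum_univ_two, Matrix.smul_apply, smul_eq_mul] at e
  exact ⟨e 0 0, e 0 1, e 1 0, e 1 1⟩

lemma eq_zero_of {Y : M2} (h0 : Y 0 0 = 0) (h1 : Y 0 1 = 0) (h2 : Y 1 0 = 0) (h3 : Y 1 1 = 0) :
    Y = 0 := by
  ext i j
  fin_cases i <;> fin_cases j <;> simp [h0, h1, h2, h3]

/-- A real eigenvalue of an elliptic matrix does not exist. -/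
lemma no_eig {p q r s u w l : ℝ} (hd : p * s - q * r = 1) (ht : |p + s| < 2) (hw : w ≠ 0)
    (h1 : p * u + q * w = l * u) (h2 : r * u + s * w = l * w) : False := by
  have hl : (l - p) * (l - s) * w = r * q * w := by
    have e1 : (l - s) * w = r * u := by linarith
    have e2 : (l - p) * u = q * w := by linarith
    calc (l - p) * (l - s) * w = (l - p) * ((l - s) * w) := by ring
      _ = (l - p) * (r * u) := by rw [e1]
      _ = r * ((l - p) * u) := by ring
      _ = r * q * w := by rw [e2]; ring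
  have hl' : (l - p) * (l - s) = r * q := mul_right_cancel₀ hw hl
  have hsq : (p + s) ^ 2 < 4 := by
    have := abs_lt.mp ht
    nlinarith [this.1, this.2]
  nlinarith [sq_nonneg (2 * l - (p + s))]

/-- The determinant of `Y` is not zero. -/
lemma det_ne {g : SL} {Y : M2} {c : ℝ} (ht : |(g : M2).trace| < 2) (hY : Y ≠ 0)
    (hY0 : Y.trace = 0) (h : (g : M2) * Y = c • (Y * (g : M2))) :
    Y 0 0 * Y 0 0 + Y 0 1 * Y 1 0 ≠ 0 := by
  intro hz
  obtain ⟨e1, -, e3, e4⟩ := entries h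
  have hd := det_eq g
  rw [Matrix.trace_fin_two] at ht hY0
  have h11 : Y 1 1 = - Y 0 0 := by linarith
  rw [h11] at e3 e4
  by_cases hw : Y 1 0 = 0
  · have hu : Y 0 0 = 0 := by
      rw [hw, mul_zero, add_zero] at hz
      exact mul_self_eq_zero.mp hz
    have hv : Y 0 1 ≠ 0 := fun hv => hY (eq_zero_of hu hv hw (by rw [h11, hu, neg_zero]))
    rw [hu, hw] at e4
    have hr : (g : M2) 1 0 = 0 := by
      have : (g : M2) 1 0 * Y 0 1 = 0 := by linarith
      exact (mul_eq_zero.mp this).resolve_right hv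
    refine no_eig (p := (g : M2) 0 0) (q := (g : M2) 0 1) (r := (g : M2) 1 0)
      (s := (g : M2) 1 1) (u := 1) (w := 0 + 1) (l := 0) ?_ ht ?_ ?_ ?_
    · linarith
    · norm_num
    all_goals exfalso
    all_goals
      rw [hr, mul_zero, sub_zero] at hd
      have hsq : ((g : M2) 0 0 + (g : M2) 1 1) ^ 2 < 4 := by
        have := abs_lt.mp ht
        nlinarith [this.1, this.2]
      nlinarith [sq_nonneg ((g : M2) 0 0 - (g : M2) 1 1)]
  · have hv : Y 0 1 = - (Y 0 0 * Y 0 0) / Y 1 0 := by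
      field_simp
      linarith
    refine no_eig (p := (g : M2) 0 0) (q := (g : M2) 0 1) (r := (g : M2) 1 0)
      (s := (g : M2) 1 1) (u := Y 0 0) (w := Y 1 0)
      (l := c * ((g : M2) 0 0 - (g : M2) 1 0 * Y 0 0 / Y 1 0)) (by linarith) ht hw ?_ ?_
    · rw [e1, hv]
      field_simp
      ring
    · rw [e3]
      field_simp
      ring

/-- `g Y = Y g`. -/
lemma comm_of {g : SL} {Y : M2} {c : ℝ} (ht : (g : M2).trace ≠ 0) (hY : Y ≠ 0)
    (hY0 : Y.trace = 0) (hD : Y 0 0 * Y 0 0 + Y 0 1 * Y 1 0 ≠ 0)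
    (h : (g : M2) * Y = c • (Y * (g : M2))) : (g : M2) * Y = Y * (g : M2) := by
  have hd := det_eq g
  have hdet : Y.det = c ^ 2 * Y.det := by
    have h1 : ((g : M2) * Y).det = (c • (Y * (g : M2))).det := by rw [h]
    rw [Matrix.det_mul, Matrix.det_smul, Matrix.det_mul, Fintype.card_fin] at h1
    have h2 : (g : M2).det = 1 := g.2
    rw [h2, one_mul, mul_one] at h1
    exact h1
  have hne : Y.det ≠ 0 := by
    rw [Matrix.trace_fin_two] at hY0
    have h11 : Y 1 1 = - Y 0 0 := by linarith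
    rw [Matrix.det_fin_two, h11]
    intro hz
    apply hD
    linarith
  have hc : c ^ 2 = 1 := by
    have : (c ^ 2 - 1) * Y.det = 0 := by linarith
    have := (mul_eq_zero.mp this).resolve_right hne
    linarith
  rcases (sq_eq_one_iff.mp hc) with hc | hc
  · rw [h, hc, one_smul]
  · exfalso
    obtain ⟨e1, e2, e3, e4⟩ := entries h
    rw [Matrix.trace_fin_two] at ht hY0
    have h11 : Y 1 1 = - Y 0 0 := by linarith
    rw [hc] at e1 e2 e3 e4
    rw [h11] at e2 e3 e4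
    apply hY
    have k1 : Y 0 1 * ((g : M2) 0 0 + (g : M2) 1 1) = 0 := by linarith
    have k2 : Y 1 0 * ((g : M2) 0 0 + (g : M2) 1 1) = 0 := by linarith
    have k3 : Y 0 0 * ((g : M2) 0 0 + (g : M2) 1 1) = 0 := by linarith
    have m1 := (mul_eq_zero.mp k1).resolve_right ht
    have m2 := (mul_eq_zero.mp k2).resolve_right ht
    have m3 := (mul_eq_zero.mp k3).resolve_right ht
    exact eq_zero_of m3 m1 m2 (by rw [h11, m3, neg_zero])

end TWO

theorem t_TWO : M_TWO := by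
  intro hJ hC hN G hG
  obtain ⟨a, ha, b, hb, ht, ha0, hb0, hab, hnd⟩ := hJ G hG
  refine ⟨a, ha, b, hb, ?_⟩
  by_contra hd
  obtain ⟨Y, hY, hY0, hYg⟩ := hC _ hd hnd
  obtain ⟨c, hc⟩ := hYg a (Subgroup.subset_closure (by simp))
  obtain ⟨c', hc'⟩ := hYg b (Subgroup.subset_closure (by simp))
  have hD := TWO.det_ne ht hY hY0 hc
  have h1 := TWO.comm_of ha0 hY hY0 hD hc
  have h2 := TWO.comm_of hb0 hY hY0 hD hc'
  have h3 := hN Y hY hY0 _ _ h1 h2
  apply hab
  apply Subtype.ext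
  rw [Matrix.SpecialLinearGroup.coe_mul, Matrix.SpecialLinearGroup.coe_mul]
  exact h3

end SQD
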