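import Pool.Agent.SQD.StA

/-!
# SQD, module VOL: the volume of a set of pairs with bounded time coordinate
-/

set_option autoImplicit false

open MeasureTheory

namespace SQD

namespace VOL

/-- The linear map with the matrix `(y 0, y 1; -y 1, y 0)`. -/
noncomputable def L (y : V) : V →ₗ[ℝ] V := Matrix.toLin' !![y 0, y 1; -y 1, y 0]

lemma L_zero (y z : V) : L y z 0 = y 0 * z 0 + y 1 * z 1 := by
  simp [L, Matrix.toLin'_apply, Matrix.mulVec, dotProduct, Fin.sum_univ_two]

lemma L_one (y z : V) : L y z 1 = - y 1 * z 0 + y 0 * z 1 := by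
  simp [L, Matrix.toLin'_apply, Matrix.mulVec, dotProduct, Fin.sum_univ_two]

lemma det_L (y : V) : LinearMap.det (L y) = nsq y := by
  unfold L nsq
  rw [LinearMap.det_toLin', Matrix.det_fin_two_of]
  ring

lemma nsq_pos {y : V} (hy : y ≠ 0) : 0 < nsq y := by
  unfold nsq
  by_contra h
  push Not at h
  have h0 : y 0 = 0 := by nlinarith [mul_self_nonneg (y 0), mul_self_nonneg (y 1)]
  have h1 : y 1 = 0 := by nlinarith [mul_self_nonneg (y 0), mul_self_nonneg (y 1)]
  apply hy
  funext i
  fin_cases i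
  · exact h0
  · exact h1

/-- The sides of the rectangle. -/
def sd (y : V) (s t : ℝ) : Fin 2 → Set ℝ := ![Set.Icc (s * nsq y) (t * nsq y), Set.Ioo 1 2]

lemma slice_eq {y : V} (hy : y ≠ 0) (s t : ℝ) :
    {z : V | (y, z) ∈ Yp ∧ s ≤ tm (y, z) ∧ tm (y, z) ≤ t} = L y ⁻¹' (Set.pi Set.univ (sd y s t)) := by
  have hn := nsq_pos hy
  ext z
  simp only [Set.mem_ofPred_eq, Set.mem_preimage, Set.mem_pi, Set.mem_univ, true_imp_iff,
    Fin.forall_fin_two]
  have e0 : sd y s t 0 = Set.Icc (s * nsq y) (t * nsq y) := rfl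
  have e1 : sd y s t 1 = Set.Ioo 1 2 := rfl
  rw [e0, e1, L_zero, L_one]
  simp only [Yp, dt, tm, Set.mem_ofPred_eq, Set.mem_Icc, Set.mem_Ioo]
  rw [le_div_iff₀ hn, div_le_iff₀ hn]
  have h1 : z 0 * y 0 + z 1 * y 1 = y 0 * z 0 + y 1 * z 1 := by ring
  have h2 : y 0 * z 1 - y 1 * z 0 = - y 1 * z 0 + y 0 * z 1 := by ring
  rw [h1, h2]
  tauto

lemma slice_vol {y : V} (hy : y ≠ 0) (s t : ℝ) (hst : s ≤ t) :
    volume {z : V | (y, z) ∈ Yp ∧ s ≤ tm (y, z) ∧ tm (y, z) ≤ t} = ENNReal.ofReal (t - s) := by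
  have hn := nsq_pos hy
  rw [slice_eq hy, Measure.addHaar_preimage_linearMap volume (by rw [det_L]; exact hn.ne'),
    volume_pi_pi, Fin.prod_univ_two, det_L]
  have e0 : sd y s t 0 = Set.Icc (s * nsq y) (t * nsq y) := rfl
  have e1 : sd y s t 1 = Set.Ioo 1 2 := rfl
  rw [e0, e1, Real.volume_Icc, Real.volume_Ioo, abs_of_pos (inv_pos.mpr hn),
    ← ENNReal.ofReal_mul (by nlinarith), ← ENNReal.ofReal_mul (inv_pos.mpr hn).le]
  congr 1
  field_simp
  ring

lemma measurable_tm : Measurable tm := by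
  unfold tm nsq
  fun_prop

lemma measurable_dt : Measurable dt := by
  unfold dt
  fun_prop

lemma meas_ET {E : Set V} (hE : MeasurableSet E) (s t : ℝ) : MeasurableSet (ET E s t) := by
  have h1 : MeasurableSet Yp :=
    (measurableSet_lt measurable_const measurable_dt).inter
      (measurableSet_lt measurable_dt measurable_const)
  have h2 : MeasurableSet {p : V × V | p.1 ∈ E} := measurable_fst hE
  have h3 : MeasurableSet {p : V × V | s ≤ tm p} := measurableSet_le measurable_const measurable_tm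
  have h4 : MeasurableSet {p : V × V | tm p ≤ t} := measurableSet_le measurable_tm measurable_const
  exact h1.inter (h2.inter (h3.inter h4))

lemma vol_ET {E : Set V} (hE : MeasurableSet E) (s t : ℝ) (hst : s ≤ t) :
    volume (ET E s t) = volume E * ENNReal.ofReal (t - s) := by
  rw [Measure.volume_eq_prod, Measure.prod_apply (meas_ET hE s t)]
  have key : ∀ᵐ y : V ∂volume, volume (Prod.mk y ⁻¹' ET E s t) =
      E.indicator (fun _ => ENNReal.ofReal (t - s)) y := by
    have h0 : ∀ᵐ y : V ∂volume, y ≠ 0 := by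
      have : volume ({0} : Set V) = 0 := measure_singleton 0
      exact compl_mem_ae_iff.mpr this
    filter_upwards [h0] with y hy
    by_cases hyE : y ∈ E
    · rw [Set.indicator_of_mem hyE, ← slice_vol hy s t hst]
      congr 1
      ext z
      simp only [ET, Set.mem_preimage, Set.mem_ofPred_eq]
      tauto
    · rw [Set.indicator_of_notMem hyE]
      have : Prod.mk y ⁻¹' ET E s t = ∅ := by
        ext z
        simp only [ET, Set.mem_preimage, Set.mem_ofPred_eq, Set.mem_empty_iff_false]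
        tauto
      rw [this, measure_empty]
  rw [lintegral_congr_ae key, lintegral_indicator hE, setLIntegral_const, mul_comm]

lemma ET_eq (E : Set V) (s t : ℝ) : ET E s t = (Prod.fst ⁻¹' E) ∩ ET Set.univ s t := by
  ext p
  simp only [ET, Set.mem_ofPred_eq, Set.mem_inter_iff, Set.mem_preimage, Set.mem_univ]
  tauto

end VOL

open VOL in
theorem t_VOL : S_VOL := by
  intro E s t hE hst
  obtain ⟨E', -, hE'm, hE'⟩ := hE.exists_measurable_superset_ae_eq
  have hq : Measure.QuasiMeasurePreserving (Prod.fst : V × V → V) (volume : Measure (V × V))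
      (volume : Measure V) := by
    rw [Measure.volume_eq_prod]
    exact Measure.quasiMeasurePreserving_fst
  have h1 : (Prod.fst ⁻¹' E' : Set (V × V)) =ᵐ[volume] (Prod.fst ⁻¹' E : Set (V × V)) :=
    hq.preimage_ae_eq hE'
  have h2 : ET E' s t =ᵐ[volume] ET E s t := by
    rw [ET_eq E', ET_eq E]
    exact h1.inter (ae_eq_refl _)
  refine ⟨(meas_ET hE'm s t).nullMeasurableSet.congr h2, ?_⟩
  rw [← measure_congr h2, vol_ET hE'm s t hst, measure_congr hE']

end SQD
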