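import Pool.Agent.SQD.Main2
import Pool.Agent.SQD.P_PAR
import Pool.Agent.SQD.P_EQD
import Pool.Agent.SQD.P_HAL
import Pool.Agent.SQD.P_FAB
import Pool.Agent.SQD.P_FEX
import Pool.Agent.SQD.P_FOL
import Pool.Agent.SQD.P_MPR
import Pool.Agent.SQD.P_AME
import Pool.Agent.SQD.P_CNT
import Pool.Agent.SQD.P_FD1
import Pool.Agent.SQD.P_FD2
import Pool.Agent.SQD.P_VOL
import Pool.Agent.SQD.P_DSP
import Pool.Agent.SQD.P_DIS
import Pool.Agent.SQD.P_OPN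
import Pool.Agent.SQD.P_OPS
import Pool.Agent.SQD.P_GEN
import Pool.Agent.SQD.P_LIN
import Pool.Agent.SQD.P_CLS
import Pool.Agent.SQD.P_CEN
import Pool.Agent.SQD.P_SOL
import Pool.Agent.SQD.P_NDN
import Pool.Agent.SQD.P_FND
import Pool.Agent.SQD.P_JOR
import Pool.Agent.SQD.P_TWO
import Pool.Agent.SQD.P_RES
import Pool.Agent.SQD.P_TOR
import Pool.Agent.SQD.P_ELZ
import Pool.Agent.SQD.P_ELL
import Pool.Agent.SQD.P_EIG
import Pool.Agent.SQD.P_REC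
import Pool.Agent.SQD.P_AUT
import Pool.Agent.SQD.P_PAD
import Pool.Agent.SQD.P_NAL
import Pool.Agent.SQD.P_TIT
import Pool.Agent.SQD.P_PNG
import Pool.Agent.SQD.P_ORB
import Pool.Agent.SQD.P_EXP
import Pool.Agent.SQD.P_COV
import Pool.Agent.SQD.P_NBH
import Pool.Agent.SQD.P_FAT
import Pool.Agent.SQD.P_QFT

/-!
# SQD: assembly
-/

set_option autoImplicit false

open MeasureTheory

namespace SQD

theorem a_CLS : S_CLS := t_CLS t_OPS (t_GEN t_OPN) t_LIN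

theorem a_FOL : S_FOL := t_FOL t_FAB t_FEX

theorem a_FD2 : S_FD2 := t_FD2 t_CNT (t_FD1 t_CNT) t_MPR

theorem a_NDN : S_NDN :=
  t_NDN t_PAR a_FOL (t_AME t_MPR) (t_DIS t_CNT a_FD2 t_VOL t_DSP) a_CLS (t_SOL t_CEN)

theorem a_ELL : S_ELL := t_ELL (t_TWO t_JOR a_CLS t_CEN) (t_ELZ t_OPN t_RES t_TOR)

theorem a_EXP : S_EXP := t_EXP a_ELL t_EIG t_REC (t_TIT t_AUT t_PAD t_NAL) t_PNG t_ORB

theorem a_FAT : S_FAT := t_FAT a_EXP t_COV t_NBH

theorem a_Thm : Thm := main t_PAR t_EQD t_HAL a_NDN a_FAT t_QFT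

theorem a_ThmF : ThmF := mainF a_NDN t_QFT t_FND

end SQD
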