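import Mathlib

/-!
# SQD: for which subgroups of `SL₂(ℝ)` is the open unit square paradoxical? (definitions)
-/

set_option autoImplicit false

open MeasureTheory

namespace SQD

/-- The plane. -/
abbrev V : Type := Fin 2 → ℝ

/-- The group `SL₂(ℝ)`. -/
abbrev SL : Type := Matrix.SpecialLinearGroup (Fin 2) ℝ

/-- The real two by two matrices. -/
abbrev M2 : Type := Matrix (Fin 2) (Fin 2) ℝ

/-- The linear action `v ↦ g v` of a matrix of determinant one on the plane. -/
def act (g : SL) (v : V) : V := Matrix.mulVec (g : M2) v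

/-- `E` is `G`-paradoxical: there are pairwise disjoint `A₁, …, Aₙ, B₁, …, Bₘ ⊆ E` (`n, m ≥ 1`) and
elements `gᵢ, hⱼ` of `G` with `E = ⋃ gᵢ Aᵢ = ⋃ hⱼ Bⱼ`. -/
def IsParadoxical (G : Subgroup SL) (E : Set V) : Prop :=
  ∃ (n m : ℕ) (A : Fin n → Set V) (B : Fin m → Set V) (g : Fin n → SL) (h : Fin m → SL),
    0 < n ∧ 0 < m ∧
    (∀ i, g i ∈ G) ∧ (∀ j, h j ∈ G) ∧
    (∀ i, A i ⊆ E) ∧ (∀ j, B j ⊆ E) ∧
    Pairwise (fun i i' => Disjoint (A i) (A i')) ∧
    Pairwise (fun j j' => Disjoint (B j) (B j')) ∧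
    (∀ i j, Disjoint (A i) (B j)) ∧
    (⋃ i, act (g i) '' A i) = E ∧ (⋃ j, act (h j) '' B j) = E

/-- `E` and `E'` are `G`-equidecomposable: `E` is the disjoint union of `A₁, …, Aₙ` and `E'` is the
disjoint union of `g₁ A₁, …, gₙ Aₙ`, with `gᵢ ∈ G`. -/
def Equidec (G : Subgroup SL) (E E' : Set V) : Prop :=
  ∃ (n : ℕ) (A : Fin n → Set V) (g : Fin n → SL), (∀ i, g i ∈ G) ∧
    Pairwise (fun i j => Disjoint (A i) (A j)) ∧ (⋃ i, A i) = E ∧
    Pairwise (fun i j => Disjoint (act (g i) '' A i) (act (g j) '' A j)) ∧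
    (⋃ i, act (g i) '' A i) = E'

/-- The open unit square. -/
def Q : Set V := {v | ∀ k, 0 < v k ∧ v k < 1}

/-- The matrix `a = (1 2; 0 1)`. -/
def a : SL := ⟨!![1, 2; 0, 1], by simp [Matrix.det_fin_two_of]⟩

/-- The matrix `b = (1 0; 2 1)`, the transpose of `a`. -/
def b : SL := ⟨!![1, 0; 2, 1], by simp [Matrix.det_fin_two_of]⟩

/-- The group `F` generated by `a` and `b`. -/
def F : Subgroup SL := Subgroup.closure {a, b}

/-- The bounded sets with interior points whose closure does not contain the origin. -/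
def Fat1 (E : Set V) : Prop :=
  Bornology.IsBounded E ∧ (interior E).Nonempty ∧ (0 : V) ∉ closure E

/-- The bounded sets which do not contain the origin, but contain the intersection of a nonempty open
cone with a ball around the origin (for instance the open unit square). -/
def Fat2 (E : Set V) : Prop :=
  Bornology.IsBounded E ∧ (0 : V) ∉ E ∧ ∃ C : Set V, IsOpen C ∧ C.Nonempty ∧
    (∀ x ∈ C, ∀ t : ℝ, 0 < t → t • x ∈ C) ∧ ∃ r : ℝ, 0 < r ∧ ∀ x ∈ C, ‖x‖ < r → x ∈ E

/-! ## Basic facts -/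

lemma act_mul (g h : SL) (v : V) : act (g * h) v = act g (act h v) := by
  unfold act
  rw [Matrix.SpecialLinearGroup.coe_mul, ← Matrix.mulVec_mulVec]

lemma act_one (v : V) : act 1 v = v := by simp [act]

lemma act_inv_act (g : SL) (v : V) : act g⁻¹ (act g v) = v := by
  rw [← act_mul, inv_mul_cancel, act_one]

lemma act_act_inv (g : SL) (v : V) : act g (act g⁻¹ v) = v := by
  rw [← act_mul, mul_inv_cancel, act_one]

lemma act_inj (g : SL) : Function.Injective (act g) := fun x y h => by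
  rw [← act_inv_act g x, h, act_inv_act]

lemma act_add (g : SL) (x y : V) : act g (x + y) = act g x + act g y := by
  simp [act, Matrix.mulVec_add]

lemma act_smul (g : SL) (t : ℝ) (x : V) : act g (t • x) = t • act g x := by
  simp [act, Matrix.mulVec_smul]

lemma act_zero (g : SL) : act g 0 = 0 := by simp [act]

lemma act_ne_zero (g : SL) {x : V} (hx : x ≠ 0) : act g x ≠ 0 := fun h =>
  hx (act_inj g (h.trans (act_zero g).symm))

lemma act_apply_zero (g : SL) (x : V) :
    act g x 0 = (g : M2) 0 0 * x 0 + (g : M2) 0 1 * x 1 := by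
  simp [act, Matrix.mulVec, dotProduct, Fin.sum_univ_two]

lemma act_apply_one (g : SL) (x : V) :
    act g x 1 = (g : M2) 1 0 * x 0 + (g : M2) 1 1 * x 1 := by
  simp [act, Matrix.mulVec, dotProduct, Fin.sum_univ_two]

lemma det_eq (g : SL) : (g : M2) 0 0 * (g : M2) 1 1 - (g : M2) 0 1 * (g : M2) 1 0 = 1 := by
  rw [← Matrix.det_fin_two]
  exact g.2

lemma continuous_act : Continuous fun p : SL × V => act p.1 p.2 := by
  unfold act
  exact Continuous.matrix_mulVec (Continuous.subtype_val continuous_fst) continuous_snd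

/-! ## Moving sets piecewise -/

/-- `E` can be mapped `c` times into `E'`, with disjoint images, moving points by elements of the
finite set `K`. -/
def Pw (K : Finset SL) (E E' : Set V) (c : ℕ) : Prop :=
  ∃ f : Fin c → V → V, (∀ i, ∀ x ∈ E, f i x ∈ E' ∧ ∃ κ ∈ K, f i x = act κ x) ∧
    ∀ i j, ∀ x ∈ E, ∀ y ∈ E, f i x = f j y → i = j ∧ x = y

/-- Finite subsets of `E` are expanded by the factor `c` under the moves in `K`, inside `E'`. -/
def Ex (K : Finset SL) (E E' : Set V) (c : ℕ) : Prop :=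
  ∀ X : Finset V, (X : Set V) ⊆ E → ∃ Y : Finset V, (Y : Set V) ⊆ E' ∧
    (∀ y ∈ Y, ∃ κ ∈ K, ∃ x ∈ X, y = act κ x) ∧ c * X.card ≤ Y.card

/-! ## The space of pairs of vectors with determinant between one and two -/

/-- The determinant of a pair of vectors. -/
def dt (p : V × V) : ℝ := p.1 0 * p.2 1 - p.1 1 * p.2 0

/-- The pairs with determinant between one and two. -/
def Yp : Set (V × V) := {p | 1 < dt p ∧ dt p < 2}

/-- The diagonal action on pairs. -/
def act2 (g : SL) (p : V × V) : V × V := (act g p.1, act g p.2)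

/-- The square of the Euclidean norm. -/
def nsq (y : V) : ℝ := y 0 * y 0 + y 1 * y 1

/-- The time coordinate: `p.2 = tm p • p.1 + (dt p / nsq p.1) • J p.1` with `J` the rotation by a
right angle. -/
noncomputable def tm (p : V × V) : ℝ := (p.2 0 * p.1 0 + p.2 1 * p.1 1) / nsq p.1

/-- The pairs in `Yp` with first vector in `E` and time coordinate between `s` and `t`. -/
def ET (E : Set V) (s t : ℝ) : Set (V × V) := {p | p ∈ Yp ∧ p.1 ∈ E ∧ s ≤ tm p ∧ tm p ≤ t}

/-- `G` is discrete. -/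
def Discr (G : Subgroup SL) : Prop := ∃ U : Set SL, IsOpen U ∧ (1 : SL) ∈ U ∧
  ∀ g ∈ G, g ∈ U → g = 1

/-- A weak form of the condition of Folner. -/
def Folner (G : Type) [Group G] : Prop := ∀ (K : Finset G) (m : ℕ), ∃ F H : Finset G, F.Nonempty ∧
  (∀ k ∈ K, ∀ f ∈ F, k * f ∈ H) ∧ m * H.card ≤ (m + 1) * F.card

/-! ## Complexification -/

/-- The real matrix `g` as a complex matrix. -/
def cm (g : SL) : Matrix (Fin 2) (Fin 2) ℂ := (g : M2).map fun t : ℝ => (t : ℂ)

/-- The determinant of a pair of complex vectors. -/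
def cdt (x y : Fin 2 → ℂ) : ℂ := x 0 * y 1 - x 1 * y 0

/-- The complex conjugate vector. -/
def cj (x : Fin 2 → ℂ) : Fin 2 → ℂ := fun i => (starRingEnd ℂ) (x i)

lemma cm_mul (g h : SL) : cm (g * h) = cm g * cm h := by
  ext i j
  simp [cm, Matrix.mul_apply]

end SQD
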