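import Pool.Agent.SQD.StB

/-!
# SQD: the theorem from the statements of the modules
-/

set_option autoImplicit false

open MeasureTheory

namespace SQD

/-- The theorem about all subgroups. -/
def Thm : Prop := ∀ G : Subgroup SL,
  (IsParadoxical G Q ↔ Dense (G : Set SL)) ∧
  (¬ Dense (G : Set SL) → ∀ E : Set V, NullMeasurableSet E volume → volume E ≠ 0 → volume E ≠ ⊤ →
    ¬ IsParadoxical G E) ∧
  (Dense (G : Set SL) → ∀ E : Set V, Fat1 E ∨ Fat2 E → IsParadoxical G E) ∧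
  (Dense (G : Set SL) → ∀ E E' : Set V, (Fat1 E ∧ Fat1 E') ∨ (Fat2 E ∧ Fat2 E') → Equidec G E E')

/-- The corollary for the group `F`. -/
def ThmF : Prop := ¬ Dense (F : Set SL) ∧ ∀ C : Set V, volume C = 0 → ¬ IsParadoxical F (Q \ C)

lemma fat_nonempty {E : Set V} (h : Fat1 E ∨ Fat2 E) : E.Nonempty := by
  rcases h with h | h
  · obtain ⟨x, hx⟩ := h.2.1
    exact ⟨x, interior_subset hx⟩
  · obtain ⟨-, -, C, -, ⟨x, hx⟩, hC, r, hr, h⟩ := h
    have hn : 0 < ‖x‖ + 1 := by positivity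
    refine ⟨(r / (‖x‖ + 1) / 2) • x, h _ (hC x hx _ (by positivity)) ?_⟩
    rw [norm_smul, Real.norm_of_nonneg (by positivity)]
    have h1 : r / (‖x‖ + 1) / 2 * ‖x‖ ≤ r / 2 := by
      rw [div_div, div_mul_eq_mul_div, div_le_div_iff₀ (by positivity) two_pos]
      nlinarith [norm_nonneg x]
    linarith

theorem main (hPAR : S_PAR) (hEQD : S_EQD) (hHAL : S_HAL) (hNDN : S_NDN) (hFAT : S_FAT)
    (hQFT : S_QFT) : Thm := by
  intro G
  have hpar : Dense (G : Set SL) → ∀ E : Set V, Fat1 E ∨ Fat2 E → IsParadoxical G E := by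
    intro hG E hE
    obtain ⟨K, hK, hX⟩ := hFAT G hG E E 2 (by
      rcases hE with h | h
      · exact Or.inl ⟨h, h⟩
      · exact Or.inr ⟨h, h⟩)
    exact (hPAR G E (fat_nonempty hE)).mpr ⟨K, hK, hHAL K E E 2 hX⟩
  refine ⟨⟨fun h => ?_, fun h => hpar h Q (Or.inr hQFT.1)⟩, hNDN G, hpar, ?_⟩
  · by_contra hG
    exact hNDN G hG Q hQFT.2.2.2.nullMeasurableSet hQFT.2.1 hQFT.2.2.1 h
  · intro hG E E' hE
    obtain ⟨K, hK, hX⟩ := hFAT G hG E E' 1 hE
    obtain ⟨K', hK', hX'⟩ := hFAT G hG E' E 1 (by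
      rcases hE with h | h
      · exact Or.inl ⟨h.2, h.1⟩
      · exact Or.inr ⟨h.2, h.1⟩)
    exact hEQD G E E' K K' hK hK' (hHAL K E E' 1 hX) (hHAL K' E' E 1 hX')

theorem mainF (hNDN : S_NDN) (hQFT : S_QFT) (hFND : S_FND) : ThmF := by
  refine ⟨hFND, fun C hC => ?_⟩
  have h : volume (Q \ C) = volume Q := measure_sdiff_null hC
  refine hNDN F hFND (Q \ C) ?_ ?_ ?_
  · exact hQFT.2.2.2.nullMeasurableSet.diff (NullMeasurableSet.of_null hC)
  · rw [h]
    exact hQFT.2.1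
  · rw [h]
    exact hQFT.2.2.1

end SQD
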