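import Pool.Agent.SQD.Main

/-!
# SQD: the final form of the theorem
-/

set_option autoImplicit false

open MeasureTheory

namespace SQD

/-- a ball away from the origin -/
def ball3 : Set V := Metric.ball (fun _ => 3) 1

lemma ball3_fat : Fat1 ball3 := by
  refine ⟨Metric.isBounded_ball, ?_, ?_⟩
  · rw [ball3, Metric.isOpen_ball.interior_eq]
    exact Metric.nonempty_ball.mpr one_pos
  · intro h
    have h1 := Metric.closure_ball_subset_closedBall h
    rw [Metric.mem_closedBall, dist_pi_le_iff zero_le_one] at h1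
    have h2 := h1 0
    rw [Real.dist_eq] at h2
    norm_num at h2

theorem final (hT : Thm) (hF : ThmF) (hQ : Fat2 Q) (hQ0 : volume Q ≠ 0) (hQ1 : volume Q ≠ ⊤)
    (hQm : MeasurableSet Q) :
    (∀ G : Subgroup SL, List.TFAE [
      Dense (G : Set SL),
      IsParadoxical G Q,
      ∃ E : Set V, NullMeasurableSet E volume ∧ volume E ≠ 0 ∧ volume E ≠ ⊤ ∧ IsParadoxical G E,
      ∀ E E' : Set V, Fat1 E → Fat1 E' → IsParadoxical G E ∧ Equidec G E E',
      ∀ E E' : Set V, Fat2 E → Fat2 E' → IsParadoxical G E ∧ Equidec G E E']) ∧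
    ¬ Dense (F : Set SL) ∧ ¬ IsParadoxical F Q := by
  refine ⟨fun G => ?_, hF.1, ?_⟩
  · obtain ⟨h1, h2, h3, h4⟩ := hT G
    tfae_have 1 ↔ 2 := h1.symm
    tfae_have 2 → 3 := fun h => ⟨Q, hQm.nullMeasurableSet, hQ0, hQ1, h⟩
    tfae_have 3 → 1 := by
      rintro ⟨E, hE, hE0, hE1, h⟩
      by_contra hG
      exact h2 hG E hE hE0 hE1 h
    tfae_have 1 → 4 := fun h E E' hE hE' => ⟨h3 h E (Or.inl hE), h4 h E E' (Or.inl ⟨hE, hE'⟩)⟩
    tfae_have 1 → 5 := fun h E E' hE hE' => ⟨h3 h E (Or.inr hE), h4 h E E' (Or.inr ⟨hE, hE'⟩)⟩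
    tfae_have 4 → 3 := by
      intro h
      refine ⟨ball3, ?_, ?_, ?_, (h ball3 ball3 ball3_fat ball3_fat).1⟩
      · exact Metric.isOpen_ball.measurableSet.nullMeasurableSet
      · exact (Metric.measure_ball_pos volume _ one_pos).ne'
      · exact measure_ball_lt_top.ne
    tfae_have 5 → 2 := fun h => (h Q Q hQ hQ).1
    tfae_finish
  · have := hF.2 ∅ measure_empty
    rwa [Set.sdiff_empty] at this

end SQD
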