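import Pool.Agent.SQD.StA

set_option autoImplicit false

open Filter Topology

namespace SQD

namespace OPN

/-- The upper unipotent matrix. -/
def u (t : ℝ) : SL := ⟨!![1, t; 0, 1], by simp [Matrix.det_fin_two_of]⟩

/-- The lower unipotent matrix. -/
def l (t : ℝ) : SL := ⟨!![1, 0; t, 1], by simp [Matrix.det_fin_two_of]⟩

lemma continuous_u : Continuous u := by
  refine Continuous.subtype_mk ?_ _
  refine continuous_matrix fun i j => ?_
  fin_cases i <;> fin_cases j <;> simp <;> fun_prop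

lemma continuous_l : Continuous l := by
  refine Continuous.subtype_mk ?_ _
  refine continuous_matrix fun i j => ?_
  fin_cases i <;> fin_cases j <;> simp <;> fun_prop

lemma u_zero : u 0 = 1 := by
  ext i j
  fin_cases i <;> fin_cases j <;> simp [u]

lemma l_zero : l 0 = 1 := by
  ext i j
  fin_cases i <;> fin_cases j <;> simp [l]

lemma u_add (s t : ℝ) : u (s + t) = u s * u t := by
  ext i j
  fin_cases i <;> fin_cases j <;> simp [u, Matrix.mul_apply, Fin.sum_univ_two, add_comm]

lemma l_add (s t : ℝ) : l (s + t) = l s * l t := by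
  ext i j
  fin_cases i <;> fin_cases j <;> simp [l, Matrix.mul_apply, Fin.sum_univ_two, add_comm]

/-- A continuous one parameter group which meets every neighbourhood of one in `H` is in `H`. -/
lemma mem_of_hom (H : Subgroup SL) (U : Set SL) (hU : IsOpen U) (h1 : (1 : SL) ∈ U) (hUH : U ⊆ H)
    (v : ℝ → SL) (hv : Continuous v) (hv0 : v 0 = 1) (hva : ∀ s t, v (s + t) = v s * v t)
    (t : ℝ) : v t ∈ H := by
  have hpow : ∀ (n : ℕ) (s : ℝ), v (n * s) = v s ^ n := by
    intro n s
    induction n with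
    | zero => simp [hv0]
    | succ k ih => rw [pow_succ, ← ih, ← hva]; congr 1; push_cast; ring
  have hlim : Tendsto (fun n : ℕ => t / ((n : ℝ) + 1)) atTop (𝓝 0) := by
    have h2 := (tendsto_one_div_add_atTop_nhds_zero_nat (𝕜 := ℝ)).const_mul t
    rw [mul_zero] at h2
    refine h2.congr (fun n => ?_)
    rw [mul_one_div]
  have hlim2 : Tendsto (fun n : ℕ => v (t / ((n : ℝ) + 1))) atTop (𝓝 1) := by
    have h3 := (hv.tendsto 0).comp hlim
    rwa [hv0] at h3
  obtain ⟨n, hn⟩ := (hlim2.eventually (hU.mem_nhds h1)).exists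
  have h4 : v t = v (t / ((n : ℝ) + 1)) ^ (n + 1) := by
    rw [← hpow]
    congr 1
    push_cast
    field_simp
  rw [h4]
  exact H.pow_mem (hUH hn) _

lemma factor (g : SL) (hc : (g : M2) 1 0 ≠ 0) :
    g = u (((g : M2) 0 0 - 1) / (g : M2) 1 0) * l ((g : M2) 1 0)
      * u (((g : M2) 1 1 - 1) / (g : M2) 1 0) := by
  have hd := det_eq g
  have e00 : (g : M2) 0 0 = 1 + ((g : M2) 0 0 - 1) / (g : M2) 1 0 * (g : M2) 1 0 := by
    field_simp
    ring
  have e01 : (g : M2) 0 1 = (1 + ((g : M2) 0 0 - 1) / (g : M2) 1 0 * (g : M2) 1 0)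
      * (((g : M2) 1 1 - 1) / (g : M2) 1 0) + ((g : M2) 0 0 - 1) / (g : M2) 1 0 := by
    field_simp
    linear_combination -hd
  have e11 : (g : M2) 1 1 = (g : M2) 1 0 * (((g : M2) 1 1 - 1) / (g : M2) 1 0) + 1 := by
    field_simp
    ring
  ext i j
  fin_cases i <;> fin_cases j
  · simpa [u, l, Matrix.mul_apply, Fin.sum_univ_two] using e00
  · simpa [u, l, Matrix.mul_apply, Fin.sum_univ_two] using e01
  · simp [u, l, Matrix.mul_apply, Fin.sum_univ_two]
  · simpa [u, l, Matrix.mul_apply, Fin.sum_univ_two] using e11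

end OPN

open OPN in
theorem t_OPN : S_OPN := by
  intro H hH
  obtain ⟨U, hU, h1, hUH⟩ := hH
  have hu : ∀ t, u t ∈ H :=
    mem_of_hom H U hU h1 hUH u continuous_u u_zero u_add
  have hl : ∀ t, l t ∈ H :=
    mem_of_hom H U hU h1 hUH l continuous_l l_zero l_add
  have hmain : ∀ g : SL, (g : M2) 1 0 ≠ 0 → g ∈ H := by
    intro g hg
    rw [factor g hg]
    exact H.mul_mem (H.mul_mem (hu _) (hl _)) (hu _)
  rw [Subgroup.eq_top_iff']
  intro g
  by_cases hc : (g : M2) 1 0 = 0
  · have hd := det_eq g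
    have h11 : (g : M2) 1 1 ≠ 0 := by
      intro h
      rw [hc, h] at hd
      norm_num at hd
    have h2 : (g * l 1) ∈ H := by
      refine hmain _ ?_
      simpa [l, Matrix.mul_apply, Fin.sum_univ_two, hc] using h11
    have h3 := H.mul_mem h2 (H.inv_mem (hl 1))
    rwa [mul_assoc, mul_inv_cancel, mul_one] at h3
  · exact hmain g hc

end SQD
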