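import Pool.Agent.SQD.StB

/-!
# SQD, REC: recurrence of elliptic elements
-/

set_option autoImplicit false

open Filter Topology

namespace SQD

namespace REC

/-- Every power of `w` is `x + y w` with `x² + (tr w) x y + y² = 1`. -/
lemma pow_form (w : SL) (n : ℕ) : ∃ x y : ℝ, x ^ 2 + (w : M2).trace * x * y + y ^ 2 = 1 ∧
    ((w ^ n : SL) : M2) = x • (1 : M2) + y • (w : M2) := by
  induction n with
  | zero => exact ⟨1, 0, by ring, by simp⟩
  | succ n ih =>
    obtain ⟨x, y, h, e⟩ := ih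
    have hd := det_eq w
    have hsq : (w : M2) * (w : M2) = (w : M2).trace • (w : M2) - (1 : M2) := by
      ext i j
      rw [Matrix.trace_fin_two]
      fin_cases i <;> fin_cases j <;>
        simp [Matrix.mul_apply, Fin.sum_univ_two] <;> linarith
    refine ⟨-y, x + (w : M2).trace * y, ?_, ?_⟩
    · linear_combination h
    · rw [pow_succ, Matrix.SpecialLinearGroup.coe_mul, e, add_mul, Matrix.smul_mul,
        Matrix.smul_mul, one_mul, hsq, smul_sub, smul_smul]
      module

end REC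

theorem t_REC : S_REC := by
  intro w hw U hU h1 n₀
  choose x y hq hxy using REC.pow_form w
  set t : ℝ := (w : M2).trace with ht
  have hbd : ∀ n, |x n| ≤ 2 / (2 - |t|) ∧ |y n| ≤ 2 / (2 - |t|) := by
    intro n
    have h2 : 0 < 2 - |t| := by linarith
    have h0 := hq n
    have h3 : -(|t| * (|x n| * |y n|)) ≤ t * x n * y n := by
      have := neg_abs_le (t * x n * y n)
      rwa [abs_mul, abs_mul, mul_assoc] at this
    have h4 : 2 * (|x n| * |y n|) ≤ x n ^ 2 + y n ^ 2 := by
      have := two_mul_le_add_sq |x n| |y n|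
      rw [sq_abs, sq_abs] at this
      linarith
    have h5 : (2 - |t|) * (x n ^ 2 + y n ^ 2) ≤ 2 := by
      have h6 : |t| * (2 * (|x n| * |y n|)) ≤ |t| * (x n ^ 2 + y n ^ 2) :=
        mul_le_mul_of_nonneg_left h4 (abs_nonneg t)
      nlinarith
    have h7 : x n ^ 2 + y n ^ 2 ≤ 2 / (2 - |t|) := by
      rw [le_div_iff₀ h2]; linarith
    have h8 : 1 ≤ 2 / (2 - |t|) := by
      rw [le_div_iff₀ h2]; linarith [abs_nonneg t]
    have h9 : ∀ z : ℝ, z ^ 2 ≤ 2 / (2 - |t|) → |z| ≤ 2 / (2 - |t|) := by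
      intro z hz
      apply abs_le_of_sq_le_sq _ (by linarith)
      nlinarith
    exact ⟨h9 _ (by nlinarith [sq_nonneg (y n)]), h9 _ (by nlinarith [sq_nonneg (x n)])⟩
  set R : ℝ := 2 / (2 - |t|) with hR
  have hmem : ∀ n, ((x n, y n) : ℝ × ℝ) ∈ Set.Icc (-R) R ×ˢ Set.Icc (-R) R := fun n =>
    ⟨abs_le.mp (hbd n).1, abs_le.mp (hbd n).2⟩
  obtain ⟨⟨p, q⟩, -, φ, hφ, hlim⟩ :=
    (isCompact_Icc.prod isCompact_Icc).tendsto_subseq hmem
  have hx : Tendsto (fun n => x (φ n)) atTop (𝓝 p) :=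
    (continuous_fst.tendsto (p, q)).comp hlim
  have hy : Tendsto (fun n => y (φ n)) atTop (𝓝 q) :=
    (continuous_snd.tendsto (p, q)).comp hlim
  have hM : Tendsto (fun n => ((w ^ φ n : SL) : M2)) atTop (𝓝 (p • (1 : M2) + q • (w : M2))) := by
    have h := (hx.smul_const (1 : M2)).add (hy.smul_const (w : M2))
    refine h.congr fun n => ?_
    rw [hxy (φ n)]
  have hdet : (p • (1 : M2) + q • (w : M2)).det = 1 := by
    have h := ((Continuous.matrix_det continuous_id).tendsto _).comp hM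
    have h' : Tendsto (fun n => ((w ^ φ n : SL) : M2).det) atTop (𝓝 1) := by
      simp only [Matrix.SpecialLinearGroup.det_coe]
      exact tendsto_const_nhds
    exact tendsto_nhds_unique h h'
  let L : SL := ⟨p • (1 : M2) + q • (w : M2), hdet⟩
  have hL : Tendsto (fun n => w ^ φ n) atTop (𝓝 L) := tendsto_subtype_rng.mpr hM
  have hcont : Tendsto (fun a : SL × SL => a.1 * a.2⁻¹) (𝓝 (L, L)) (𝓝 1) := by
    have h : Continuous fun a : SL × SL => a.1 * a.2⁻¹ :=
      continuous_fst.mul continuous_snd.inv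
    have h' := h.tendsto (L, L)
    simpa using h'
  have hUn : U ∈ 𝓝 (1 : SL) := hU.mem_nhds h1
  have hev := hcont.eventually hUn
  rw [nhds_prod_eq] at hev
  obtain ⟨A, hA, B, hB, hAB⟩ := Filter.eventually_prod_iff.mp hev
  have hAB' := (hL.eventually (hA.and hB)).exists_forall_of_atTop
  obtain ⟨J, hJ⟩ := hAB'
  set k := J + n₀ + 1 with hk
  have hlt : φ J + (n₀ + 1) ≤ φ k := by
    have : ∀ m, φ J + m ≤ φ (J + m) := by
      intro m
      induction m with
      | zero => simp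
      | succ m ih =>
        have := hφ (show J + m < J + (m + 1) by omega)
        omega
    have := this (n₀ + 1)
    rwa [← add_assoc] at this
  have e : w ^ (φ k - φ J) = w ^ φ k * (w ^ φ J)⁻¹ := by
    rw [eq_mul_inv_iff_mul_eq, ← pow_add]
    congr 1
    omega
  have e' : (w ^ (φ k - φ J))⁻¹ = w ^ φ J * (w ^ φ k)⁻¹ := by
    rw [e, mul_inv_rev, inv_inv]
  refine ⟨φ k - φ J, by omega, by omega, ?_, ?_⟩
  · rw [e]
    exact hAB (hJ k (by omega)).1 (hJ J le_rfl).2
  · rw [e']
    exact hAB (hJ J le_rfl).1 (hJ k (by omega)).2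

end SQD
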