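import Pool.Agent.SQD.Defs

/-!
# SQD, part A: piecewise maps; subgroups which are not dense (statements)

THEOREM of the project (MP_104382_al): for every subgroup `G` of `SL₂(ℝ)` the open unit square is `G`-paradoxical if and only if `G` is dense in `SL₂(ℝ)`; if `G` is not dense, no set of positive
finite Lebesgue measure is `G`-paradoxical; if `G` is dense, any two sets with `Fat1` are `G`-equidecomposable and `G`-paradoxical, and the same for `Fat2`.

Module `X` proves `theorem t_X : M_X` (or `t_X : S_X` if there is no `M_X`) in the namespace `SQD`, in the file `Pool/Agent/SQD/P_X.lean`, importing this file. The hypotheses of `M_X` are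
statements of other modules. All definitions are in `Pool/Agent/SQD/Defs.lean`.
-/

set_option autoImplicit false

open MeasureTheory

namespace SQD

/-! ## 0. Piecewise maps -/

/-- PAR. (1) Let `E = ⋃ gᵢ Aᵢ = ⋃ hⱼ Bⱼ`. `K` = all `gᵢ⁻¹, hⱼ⁻¹`. For `x ∈ E` choose `i` with `x ∈ gᵢ Aᵢ` and let `f 0 x = gᵢ⁻¹ x ∈ Aᵢ ⊆ E`; in the same way `f 1 x = hⱼ⁻¹ x ∈ Bⱼ`. If `f 0 x = f 0 y`
is in `Aᵢ` and in `Aᵢ'` then `i = i'`, hence `x = y`; `f 0 x = f 1 y` is impossible because `Aᵢ` and `Bⱼ` are disjoint. (2) Conversely enumerate `K` (nonempty, because `E` is) as `κ₁, …, κₙ`, choose for every `x ∈ E` an index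
`i(x)` with `f 0 x = κ_i(x) x`, let `Aᵢ = {f 0 x : x ∈ E, i(x) = i}` and `gᵢ = κᵢ⁻¹`, and in the same way `Bⱼ`, `hⱼ` for `f 1`. -/
def S_PAR : Prop := ∀ (G : Subgroup SL) (E : Set V), E.Nonempty →
  (IsParadoxical G E ↔ ∃ K : Finset SL, (∀ κ ∈ K, κ ∈ G) ∧ Pw K E E 2)

/-- EQD. Cantor, Schroeder, Bernstein with pieces: `f : E → E'` and `g : E' → E` injective, `f x ∈ K x`, `g y ∈ K' y`. `Function.Embedding.schroeder_bernstein_of_rel` (file `Mathlib/SetTheory/Cardinal/SchroederBernstein.lean`) with the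
relation `R x y := ∃ κ ∈ K ∪ K'⁻¹, y = κ x` gives a bijection `h : E → E'` with `h x ∈ (K ∪ K'⁻¹) x`. Enumerate `K ∪ K'⁻¹ = {κ₁, …, κₙ}`, choose an index for every `x`, `Aᵢ` = the set of all `x ∈ E` with index `i`, `gᵢ = κᵢ`. (If `n = 0` then `E` and `E'` are empty.) -/
def S_EQD : Prop := ∀ (G : Subgroup SL) (E E' : Set V) (K K' : Finset SL), (∀ κ ∈ K, κ ∈ G) →
  (∀ κ ∈ K', κ ∈ G) → Pw K E E' 1 → Pw K' E' E 1 → Equidec G E E'

/-- HAL. Hall's theorem for infinite families of finite sets (`Finset.all_card_le_biUnion_card_iff_exists_injective`): index type `ι = E × Fin c`, `t (x, i) = {κ x : κ ∈ K} ∩ E'`. For a finite set `s` of indices let `X` be the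
set of first components: `s.card ≤ c * X.card ≤ Y.card` and the `Y` of `Ex` is contained in the union of the `t (x, i)`. -/
def S_HAL : Prop := ∀ (K : Finset SL) (E E' : Set V) (c : ℕ), Ex K E E' c → Pw K E E' c

/-! ## 1. Groups with the condition of Folner -/

/-- FAB. Commutative groups. Let `S = K ∪ {1}` and `m ≥ 1`. The number of elements of `S ^ n` (pointwise power of finsets) is at most `(n + 1) ^ card S`. If for all `n` `m * card (S ^ (n + 1)) > (m + 1) * card (S ^ n)` then
`card (S ^ n) ≥ ((m + 1) / m) ^ n` for all `n`, a contradiction. For an `n` with `m * card (S ^ (n + 1)) ≤ (m + 1) * card (S ^ n)` take `F = S ^ n`, `H = S ^ (n + 1)`. -/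
def S_FAB : Prop := ∀ (G : Type) [CommGroup G], Folner G

/-- FEX. Extensions. `ψ : G → A` surjective, `A` and `ker ψ` with the condition. Given `K`, `m`; let `m' = 2 m + 1`. `F_A, H_A` for `ψ(K)` and `m'`; `s : A → G` a section of `ψ`. For `k ∈ K`, `f ∈ F_A` let
`n(k, f) = s(ψ(k) f)⁻¹ k s(f) ∈ ker ψ`. `F_N, H_N` for the finite set of all `n(k, f)` and `m'`. `F = {s(f) n : f ∈ F_A, n ∈ F_N}` (with `card F = card F_A * card F_N`), `H = {s(h) n : h ∈ H_A, n ∈ H_N}`:
`k s(f) n = s(ψ(k) f) n(k, f) n ∈ H`, and `m (m' + 1)^2 ≤ (m + 1) m'^2`. -/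
def S_FEX : Prop := ∀ (G A : Type) [Group G] [Group A] (ψ : G →* A), Function.Surjective ψ →
  Folner A → Folner ψ.ker → Folner G

/-- FOL. If `ψ : G → A` is a homomorphism to a commutative group with commutative kernel then `G` has the condition: S_FEX for `G → ψ.range`, S_FAB for `ψ.range` and for the kernel (make the kernel a `CommGroup`; note `ψ.rangeRestrict.ker = ψ.ker`). -/
def S_FOL : Prop := ∀ (G A : Type) [Group G] [CommGroup A] (ψ : G →* A),
  (∀ x y : G, ψ x = 1 → ψ y = 1 → x * y = y * x) → Folner G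

def M_FOL : Prop := S_FAB → S_FEX → S_FOL

/-- MPR. The linear action preserves Lebesgue measure (`Real.map_matrix_volume_pi_eq_smul_volume_pi`, determinant one), and so does the diagonal action (product of measure preserving maps). -/
def S_MPR : Prop := (∀ g : SL, MeasurePreserving (act g) volume volume) ∧
  ∀ g : SL, MeasurePreserving (act2 g) volume volume

/-- AME. Groups with the condition. Suppose `Pw K E E 2`, with maps `f i`, and choose `κ i x ∈ K` with `f i x = κ i x • x` for `x ∈ E` (a function of `i` and `x`). Take `F, H` for `K` (as finite set of elements of `G`) and `m = 2`: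
`2 * card H ≤ 3 * card F`. For `y ∈ V` the map `(f, i) ↦ κ i (f y) f` from `{f ∈ F : f y ∈ E} × Fin 2` to `{h ∈ H : h y ∈ E}` is injective (if `κ f = κ' f'` then `f i (f y) = f i' (f' y)`, hence `i = i'` and `f y = f' y`, hence `κ = κ'` and
`f = f'`). So `2 * ∑_(f ∈ F) 1_E(f y) ≤ ∑_(h ∈ H) 1_E(h y)` for all `y`; integrate over `y` (S_MPR): `2 * card F * vol E ≤ card H * vol E`, a contradiction. -/
def S_AME : Prop := ∀ G : Subgroup SL, Folner G → ∀ E : Set V, NullMeasurableSet E volume →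
  volume E ≠ 0 → volume E ≠ ⊤ → ∀ K : Finset SL, (∀ κ ∈ K, κ ∈ G) → ¬ Pw K E E 2

def M_AME : Prop := S_MPR → S_AME

/-! ## 2. Discrete groups -/

/-- CNT. A discrete subgroup is countable: `SL` is second countable and `G` is a discrete subspace (for `g ∈ G` the open set `g U` meets `G` in `g` only). -/
def S_CNT : Prop := ∀ G : Subgroup SL, Discr G → Countable G

/-- FD1. A Borel fundamental domain for the action of a discrete group on `Yp`. Every `p ∈ Yp` has an open neighbourhood `W` such that `g ∈ G` and `W ∩ g⁻¹ W ≠ ∅` imply `g = 1`: let `mat p` be the matrix with columns `p.1, p.2`, of determinant `dt p ≠ 0`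
near `p`; if `q' = g q` then `g = mat q' * (mat q)⁻¹`, which is near `1` if `q, q'` are near `p`, so `g ∈ U`. Countably many such sets `W i` cover `Yp` (second countable: `TopologicalSpace.countable_cover_nhds` or `isOpen_iUnion_countable`). `D` = the union over `i` of
`(W i ∩ Yp) ∖ ⋃_(j < i) ⋃_(g ∈ G) g⁻¹ W j` (measurable, by S_CNT; `Yp` is stable under `act2 g`). For `p ∈ Yp` let `i` be minimal such that some `g p` is in `W i`; then `g p ∈ D`, and `g` is unique. -/
def S_FD1 : Prop := ∀ G : Subgroup SL, Discr G → ∃ D : Set (V × V), MeasurableSet D ∧ D ⊆ Yp ∧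
  ∀ p ∈ Yp, ∃! g : G, act2 g p ∈ D

def M_FD1 : Prop := S_CNT → S_FD1

/-- FD2. Unfolding: `S` is the disjoint union over `g ∈ G` of `S ∩ g⁻¹ D`, of the same volume as `g S ∩ D`; so `vol S = ∑_g vol (g S ∩ D) = ∑_g ∫_D 1_S(g⁻¹ p) = ∫_D ∑_g 1_S(g p)` (`lintegral_tsum`; replace `g` by `g⁻¹` in the sum). -/
def S_FD2 : Prop := ∀ G : Subgroup SL, Discr G → ∃ D : Set (V × V), MeasurableSet D ∧
  ∀ S : Set (V × V), NullMeasurableSet S volume → S ⊆ Yp →
    volume S = ∫⁻ p in D, ∑' g : G, S.indicator (fun _ => (1 : ENNReal)) (act2 g p)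

def M_FD2 : Prop := S_CNT → S_FD1 → S_MPR → S_FD2

/-- VOL. For `y ≠ 0` the set of all `z` with `1 < y 0 * z 1 - y 1 * z 0 < 2` and `s * nsq y ≤ z 0 * y 0 + z 1 * y 1 ≤ t * nsq y` is the preimage of a rectangle with sides `(t - s) * nsq y` and `1` under the linear map with matrix `(y 0, y 1; -y 1, y 0)` of
determinant `nsq y`; its area is `t - s` (`Measure.addHaar_preimage_linearMap` or `Real.map_matrix_volume_pi_eq_smul_volume_pi`; identify the rectangle in `Fin 2 → ℝ` with a `Set.pi`). Fubini (`Measure.prod_apply`) for measurable `E`; a null measurable `E` differs from a measurable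
one by a null set, and the preimage of a null set under the first projection is null (`Measure.quasiMeasurePreserving_fst`). -/
def S_VOL : Prop := ∀ (E : Set V) (s t : ℝ), NullMeasurableSet E volume → s ≤ t →
  NullMeasurableSet (ET E s t) volume ∧ volume (ET E s t) = volume E * ENNReal.ofReal (t - s)

/-- DSP. The displacement of the time. For `p = (y, z) ∈ Yp` (so `y ≠ 0`), `d = dt p`: `z = tm p • y + (d / nsq y) • J y` with `J y = (- y 1, y 0)`, hence `tm (g p) = tm p + (d / nsq y) * ⟨g J y, g y⟩ / nsq (g y)`. With `c` = the sum of the absolute values of the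
entries of `g`: `nsq (g y) ≤ c^2 nsq y`, `nsq (g J y) ≤ c^2 nsq y`, and `nsq y ≤ c^2 nsq (g y)` (`g⁻¹` has the entries of `g` up to sign and order). So `|⟨g J y, g y⟩| / nsq (g y) ≤ sqrt (nsq (g J y) / nsq (g y)) ≤ c^2` and the claim holds with `C = 2 c^2`. -/
def S_DSP : Prop := ∀ g : SL, ∃ C : ℝ, 0 ≤ C ∧ ∀ p ∈ Yp,
  act2 g p ∈ Yp ∧ |tm (act2 g p) - tm p| * nsq p.1 ≤ C

/-- DIS. Discrete groups. Suppose `Pw K E E 2`, choose `κ i x ∈ K` as in S_AME, and `D` as in S_FD2. `C` = the maximum of the constants of S_DSP for `κ ∈ K`. For `r > 0` let `E_r` be the set of all `y ∈ E` with `nsq y < r ^ 2`; choose `r` with `card K * vol E_r ≤ vol E / 2` (the intersection of the `E_r`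
is contained in `{0}`, and `vol E` is finite). `R = C / r ^ 2`, `T = 4 R + 1`. CLAIM: for every `p` `2 * c_(ET E 0 T)(p) ≤ c_(ET E (-R) (T + R))(p) + card K * c_(ET E_r 0 T)(p)`, where `c_S(p) = ∑'_(g : G) 1_S(g p)`, the number of `g ∈ G` with `g p ∈ S`: the map
`(g, i) ↦ κ g` with `κ = κ i (g p.1)`, if `κ g p ∈ ET E (-R) (T + R)`, and `(g, i) ↦ (κ, g)` otherwise, is an injection from `{g : g p ∈ ET E 0 T} × Fin 2` to the disjoint union of `{g : g p ∈ ET E (-R) (T + R)}` and `K × {g : g p ∈ ET E_r 0 T}`: always `κ g p.1 = f i (g p.1) ∈ E`, and if `g p.1` is not in `E_r`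
then `|tm (κ g p) - tm (g p)| ≤ C / nsq (g p.1) ≤ R`. (Injective: `κ g = κ' g'` implies `f i (g p.1) = f i' (g' p.1)`, hence `i = i'`, `g p.1 = g' p.1`, `κ = κ'`, `g = g'`; and `(κ, g) = (κ', g')` implies `f i (g p.1) = f i' (g p.1)`.) Integrate over `D` (S_FD2, S_VOL): `2 vol(E) T ≤ vol(E) (T + 2 R) + vol(E) T / 2`, a contradiction.
(Express `c_S(p)` as an `ENat.card`/`tsum` of ones, or use `ENNReal.tsum_le_tsum_comp_of_injective`-like lemmas: a sum of indicators over `G × Fin 2` compared through an injective map.) -/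
def S_DIS : Prop := ∀ G : Subgroup SL, Discr G → ∀ E : Set V, NullMeasurableSet E volume →
  volume E ≠ 0 → volume E ≠ ⊤ → ∀ K : Finset SL, (∀ κ ∈ K, κ ∈ G) → ¬ Pw K E E 2

def M_DIS : Prop := S_CNT → S_FD2 → S_VOL → S_DSP → S_DIS

/-! ## 3. Subgroups which are neither dense nor discrete -/

/-- OPN. A subgroup which contains a neighbourhood of one is everything: it contains `u(t) = (1 t; 0 1)` and `l(t) = (1 0; t 1)` for small `t`, hence (powers) for all `t`; and these generate `SL`: if `c = g 1 0 ≠ 0` then `g = u((g 0 0 - 1) / c) l(c) u((g 1 1 - 1) / c)`; if `c = 0` then `g l(1)` has lower left entry `g 1 1 ≠ 0`. -/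
def S_OPN : Prop := ∀ H : Subgroup SL, (∃ U : Set SL, IsOpen U ∧ (1 : SL) ∈ U ∧ U ⊆ H) → H = ⊤

/-- OPS. A closed subgroup which is not discrete contains a one parameter group. Choose `h_k ∈ H`, `h_k ≠ 1`, `h_k → 1`; `ε_k = ‖h_k - 1‖` (some norm with `‖AB‖ ≤ ‖A‖‖B‖`, for instance the local instances `Matrix.linftyOpNormedRing`, `Matrix.linftyOpNormedAlgebra`), `X_k = (h_k - 1) / ε_k`, by compactness of the sphere a subsequence converges to `X`,
`‖X‖ = 1`. Trace: `1 = det (1 + ε X_k) = 1 + ε tr X_k + ε^2 det X_k`, so `tr X_k = - ε_k det X_k → 0`. For `t ≥ 0` let `n_k = ⌊t / ε_k⌋₊`: `n_k ε_k → t`, and `h_k ^ n_k = (1 + ε_k X_k) ^ n_k → exp (t X)`, because `‖A ^ n - B ^ n‖ ≤ n ‖A - B‖ max(‖A‖, ‖B‖) ^ (n - 1)` for `A = 1 + ε_k X_k`, `B = exp (ε_k X_k)`, `‖A - B‖ ≤ ε_k ^ 2`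
for small `ε_k` (`NormedSpace.exp` of a Banach algebra; `exp (n Y) = (exp Y) ^ n`). The limit has determinant one and is in the closed set `H`. For `t < 0` take inverses. -/
def S_OPS : Prop := ∀ H : Subgroup SL, IsClosed (H : Set SL) → ¬ Discr H →
  ∃ X : M2, X ≠ 0 ∧ X.trace = 0 ∧ ∀ t : ℝ, ∃ h ∈ H, (h : M2) = NormedSpace.exp (t • X)

/-- GEN. Three independent one parameter groups generate. `f (t₀, t₁, t₂, t₃) = exp (t₀ 1) exp (t₁ X₁) exp (t₂ X₂) exp (t₃ X₃)` has the strict derivative `t₀ 1 + ∑ tᵢ Xᵢ` at zero (`hasStrictFDerivAt_exp_zero` and the product rule), bijective onto `M2` because `1, X₁, X₂, X₃` is a basis (traces!, dimension four), so the image of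
a neighbourhood of zero contains a neighbourhood of `1` in `M2` (`HasStrictFDerivAt.map_nhds_eq_of_equiv` or `..._of_surj`). For `g ∈ SL` near `1`: `g = f t`, `1 = det g = exp (2 t₀)` (the other factors are in `H`, of determinant one), so `t₀ = 0` and `g ∈ H`. S_OPN. -/
def S_GEN : Prop := ∀ (H : Subgroup SL) (X : Fin 3 → M2), LinearIndependent ℝ X →
  (∀ i, (X i).trace = 0) → (∀ i, ∀ t : ℝ, ∃ h ∈ H, (h : M2) = NormedSpace.exp (t • X i)) → H = ⊤

def M_GEN : Prop := S_OPN → S_GEN

/-- LIN. Let `W` be the span of all `g X g⁻¹`, `g ∈ G`, in the three dimensional space of matrices of trace zero. If `W` is everything there are three independent elements among the generators. Otherwise there is a matrix `Y ≠ 0` of trace zero with `tr (Y w) = 0` for all `w ∈ W` (the form `tr (A B)` is nondegenerate on the matrices of trace zero). If `dim W = 2`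
such a `Y` is unique up to a scalar, and `g Y g⁻¹` has the same property (`W` is stable under conjugation by `G`), so `g Y g⁻¹ = c Y`. If `dim W = 1` take `Y = X`. -/
def S_LIN : Prop := ∀ (G : Subgroup SL) (X : M2), X ≠ 0 → X.trace = 0 →
  (∃ g : Fin 3 → SL, (∀ i, g i ∈ G) ∧
    LinearIndependent ℝ fun i => (g i : M2) * X * ((g i)⁻¹ : SL)) ∨
  ∃ Y : M2, Y ≠ 0 ∧ Y.trace = 0 ∧ ∀ g ∈ G, ∃ c : ℝ, (g : M2) * Y = c • (Y * (g : M2))

/-- CLS. The closed subgroups. Let `G` be neither dense nor discrete and `H` its closure (`Subgroup.topologicalClosure`; `SL` is a topological group), closed and not discrete. S_OPS gives `X`; in the first case of S_LIN (for `G`) `exp (t g X g⁻¹) = g exp (t X) g⁻¹ ∈ H`, so `H = ⊤` by S_GEN and `G` is dense. -/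
def S_CLS : Prop := ∀ G : Subgroup SL, ¬ Dense (G : Set SL) → ¬ Discr G →
  ∃ Y : M2, Y ≠ 0 ∧ Y.trace = 0 ∧ ∀ g ∈ G, ∃ c : ℝ, (g : M2) * Y = c • (Y * (g : M2))

def M_CLS : Prop := S_OPS → S_GEN → S_LIN → S_CLS

/-- CEN. The centralizer of a nonzero matrix of trace zero is commutative (it consists of the matrices `x 1 + y Y`). -/
def S_CEN : Prop := ∀ Y : M2, Y ≠ 0 → Y.trace = 0 → ∀ g h : M2, g * Y = Y * g → h * Y = Y * h →
  g * h = h * g

/-- SOL. `g Y = c(g) Y g` defines a homomorphism `c : G → ℝˣ` (`c(g)` is unique because `Y g ≠ 0`, and not zero because `g Y ≠ 0`), its kernel is commutative (S_CEN). -/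
def S_SOL : Prop := ∀ (G : Subgroup SL) (Y : M2), Y ≠ 0 → Y.trace = 0 →
  (∀ g ∈ G, ∃ c : ℝ, (g : M2) * Y = c • (Y * (g : M2))) →
  ∃ ψ : G →* ℝˣ, ∀ x y : G, ψ x = 1 → ψ y = 1 → x * y = y * x

def M_SOL : Prop := S_CEN → S_SOL

/-- NDN. The first half of the theorem. Discrete: S_DIS. Otherwise S_CLS, S_SOL, S_FOL, S_AME. (`IsParadoxical` gives `Pw K E E 2` by S_PAR; `E` is not empty.) -/
def S_NDN : Prop := ∀ G : Subgroup SL, ¬ Dense (G : Set SL) → ∀ E : Set V,
  NullMeasurableSet E volume → volume E ≠ 0 → volume E ≠ ⊤ → ¬ IsParadoxical G E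

def M_NDN : Prop := S_PAR → S_FOL → S_AME → S_DIS → S_CLS → S_SOL → S_NDN

/-- FND. The group `F` is not dense: its elements are integer matrices which are the identity modulo two (see `exists_cong` in `Pool/Agent/Results/MP_104382_al/SquareNotFParadoxical.lean`; copy what is needed). -/
def S_FND : Prop := ¬ Dense (F : Set SL)

end SQD
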