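import Pool.Agent.SQD.StA

/-!
# SQD, part B: dense subgroups (statements)

Conventions as in `Pool/Agent/SQD/StA.lean`. Module `X` proves `theorem t_X : M_X` (or `t_X : S_X` if there is no `M_X`) in the namespace `SQD`, in the file `Pool/Agent/SQD/P_X.lean`, importing this file.
-/

set_option autoImplicit false

open MeasureTheory

namespace SQD

/-! ## 4. Elliptic elements of infinite order in dense subgroups -/

/-- JOR. Let `G` be dense. Use a norm with `‖AB‖ ≤ ‖A‖‖B‖` on `M2` (for instance the local instance `Matrix.linftyOpNormedRing`). The set of all `g ∈ SL` with `|tr g| < 2`, `tr g ≠ 0`, `‖g - 1‖ < 1/16` is open and not empty (a small rotation), so it contains some `a ∈ G`. The set of all `g ∈ SL` with `‖g - 1‖ < 1/16`,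
`tr g ≠ 0`, `g a ≠ a g` is open and not empty (a small `u(t) = (1 t; 0 1)`, because `a 1 0 ≠ 0`), so it contains some `b ∈ G`. The group `Γ` generated by `a, b` is not discrete: `b₀ = b`, `b_(n+1) = b_n a b_n⁻¹ a⁻¹`. (1) `‖b_(n+1) - 1‖ = ‖((b_n - 1)(a - 1) - (a - 1)(b_n - 1)) b_n⁻¹ a⁻¹‖ ≤ ‖b_n - 1‖ / 2` (the
norms of the inverses are at most `2`: `g⁻¹` is the adjugate), so `b_n → 1`. (2) `b_n` does not commute with `a` (so `b_n ≠ 1`): suppose `b_(n+1) = c a⁻¹`, `c = b_n a b_n⁻¹`, commutes with `a`. Then `c` commutes with `a`, `c = x 1 + y a`, with the trace and determinant of `a`, hence `c = a` or `c = a⁻¹` (`a` is not a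
scalar, `a² = (tr a) a - 1`). If `c = a` then `b_n` commutes with `a`, contradiction (induction). `c = a⁻¹` is impossible: let `a₀ = a - (tr a / 2) 1`, of determinant `1 - (tr a)^2 / 4 > 0` and trace zero, `c - (tr a / 2) 1 = - a₀`, so `b_n a₀ b_n⁻¹ = - a₀`; the quadratic form `q(x) = det (x, a₀ x)` is definite (its
discriminant is `-4 det a₀`) and `q_(b a₀ b⁻¹)(x) = q_(a₀)(b⁻¹ x)` (`det b = 1`) has the same sign as `q`, but it is `- q`. (Or compare the signs of the lower left entries: `(b a₀ b⁻¹) 1 0 = - q_(a₀)(first column of b⁻¹)` up to sign.) -/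
def S_JOR : Prop := ∀ G : Subgroup SL, Dense (G : Set SL) → ∃ a ∈ G, ∃ b ∈ G,
  |(a : M2).trace| < 2 ∧ (a : M2).trace ≠ 0 ∧ (b : M2).trace ≠ 0 ∧ a * b ≠ b * a ∧
    ¬ Discr (Subgroup.closure {a, b})

/-- TWO. A dense subgroup contains a dense subgroup with two generators: `a, b` from S_JOR. If `Γ = ⟨a, b⟩` is not dense, S_CLS gives `Y`. If `det Y = 0` then the kernel of `Y` is a line (`Y ≠ 0`), stable under `a` (from `a Y = c Y a` with `c ≠ 0`), so `a` has a real eigenvalue, impossible because of `|tr a| < 2`. So `det Y ≠ 0`, `c(a)^2 = 1`, and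
`c(a) = -1` would give `Y a Y⁻¹ = - a`, `tr a = 0`. So `a Y = Y a`, in the same way `b Y = Y b`, and `a b = b a` by S_CEN, a contradiction. -/
def S_TWO : Prop := ∀ G : Subgroup SL, Dense (G : Set SL) → ∃ a ∈ G, ∃ b ∈ G,
  Dense ((Subgroup.closure {a, b} : Subgroup SL) : Set SL)

def M_TWO : Prop := S_JOR → S_CLS → S_CEN → S_TWO

/-- RES. A domain of finite type over `ℤ` and of characteristic zero has maximal ideals with finite residue fields of two different characteristics. (i) Every maximal ideal `m` of a ring `A` of finite type over `ℤ` has a finite residue field of prime characteristic: `A / m` is a finite `ℤ`-module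
(`finite_of_finite_type_of_isJacobsonRing`; `ℤ` is a Jacobson ring: instance or `isJacobsonRing_iff...` for a PID with infinitely many primes), if its characteristic is zero then `ℤ` is a field (`isField_of_isIntegral_of_isField`), a contradiction; a finite module over `ZMod p` is finite. (ii) Take `m1`, `p1`; then `B = Localization.Away (p1 : A)`, of finite type, nontrivial
(`A` is a domain, `p1 ≠ 0` in `A`), a maximal ideal `n` of `B` with characteristic `p2`; `p1` is a unit in `B`, so `p2 ≠ p1`; `m2` = preimage of `n`: `A / m2` embeds in the finite field `B / n`, so it is a finite domain, a field. -/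
def S_RES : Prop := ∀ (A : Type) [CommRing A] [IsDomain A] [CharZero A] [Algebra.FiniteType ℤ A],
  ∃ (m1 m2 : Ideal A) (p1 p2 : ℕ), m1.IsMaximal ∧ m2.IsMaximal ∧ p1.Prime ∧ p2.Prime ∧ p1 ≠ p2 ∧
    (p1 : A) ∈ m1 ∧ (p2 : A) ∈ m2 ∧ Finite (A ⧸ m1) ∧ Finite (A ⧸ m2)

/-- TOR. Torsion in congruence subgroups. `X = g - 1` has its entries in `m`. Suppose `X ≠ 0`. By Krull's theorem (`Ideal.iInf_pow_eq_bot_of_isDomain`) there is a largest `j ≥ 1` such that all entries of `X` are in `m ^ j`. `1 = (1 + X) ^ l = 1 + l X + X² Z`, so the entries of `l X` are in `m ^ (2 j) ⊆ m ^ (j + 1)`. As `u l + v p = 1` for integers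
`u, v` and `p ∈ m`, `X = u l X + v p X` has its entries in `m ^ (j + 1)`, a contradiction. -/
def S_TOR : Prop := ∀ (A : Type) [CommRing A] [IsDomain A] [IsNoetherianRing A] (m : Ideal A)
  (p l : ℕ), m ≠ ⊤ → p.Prime → l.Prime → p ≠ l → (p : A) ∈ m →
  ∀ g : Matrix (Fin 2) (Fin 2) A, (∀ i j, g i j - (1 : Matrix (Fin 2) (Fin 2) A) i j ∈ m) →
    g ^ l = 1 → g = 1

/-- ELZ. Let `Γ = ⟨a, b⟩` be dense. `A` = the subring of `ℝ` generated by the entries of `a` and `b` (`Algebra.adjoin ℤ` of a finite set: of finite type, Noetherian); the elements of `Γ` have their entries in `A` (`a⁻¹` is the adjugate). With S_RES the homomorphism from `Γ` to the finite group `SL₂(A / m1) × SL₂(A / m2)` has a kernel `Γ₁` of finite index.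
`Γ₁` is torsion free: if `w ≠ 1` in `Γ₁` has finite order, a power `w'` of `w` has prime order `l`; `l ≠ p1` or `l ≠ p2`, so `w' = 1` by S_TOR. `Γ₁` is dense: its closure `H₁` is a closed subgroup, and finitely many cosets of `H₁` cover the closure of `Γ`, which is everything; so `H₁` has finite index in `SL`, it is open (the complement is a finite union of closed cosets;
`Subgroup.isOpen_of_isClosed_of_finiteIndex`), and `H₁ = ⊤` by S_OPN. The open set `|tr| < 2` is not empty (rotation by a right angle), so it contains some `w ∈ Γ₁`; `w ≠ 1`. -/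
def S_ELZ : Prop := ∀ a b : SL, Dense ((Subgroup.closure {a, b} : Subgroup SL) : Set SL) →
  ∃ w ∈ Subgroup.closure {a, b}, |(w : M2).trace| < 2 ∧ ∀ n : ℕ, 0 < n → w ^ n ≠ 1

def M_ELZ : Prop := S_OPN → S_RES → S_TOR → S_ELZ

/-- ELL. S_TWO and S_ELZ. -/
def S_ELL : Prop := ∀ G : Subgroup SL, Dense (G : Set SL) →
  ∃ w ∈ G, |(w : M2).trace| < 2 ∧ ∀ n : ℕ, 0 < n → w ^ n ≠ 1

def M_ELL : Prop := S_TWO → S_ELZ → S_ELL

/-- EIG. Eigenvectors of an elliptic matrix: `μ = (tr w + i sqrt (4 - (tr w)^2)) / 2`, `e = (w 0 1, μ - w 0 0)`; `w 0 1 ≠ 0` (otherwise the eigenvalues are real); `μ ≠ 0`, `μ⁻¹` is the conjugate. If `μ ^ n = 1` then `w ^ n` fixes `e` and its conjugate, which are a basis, so `w ^ n = 1`. -/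
def S_EIG : Prop := ∀ w : SL, |(w : M2).trace| < 2 → ∃ (μ : ℂ) (e : Fin 2 → ℂ), μ ≠ 0 ∧
  (cm w).mulVec e = μ • e ∧ (cm w).mulVec (cj e) = μ⁻¹ • cj e ∧
  (e 0 * (starRingEnd ℂ) (e 1)).im ≠ 0 ∧ ∀ n : ℕ, μ ^ n = 1 → w ^ n = 1

/-- REC. Recurrence. `w` is elliptic, so all its powers are bounded (over `ℂ` it is diagonal with eigenvalues of absolute value one in a suitable basis; or `w` preserves a definite quadratic form). For `N = max n₀ 1` the sequence `w ^ (N j)` is bounded in `M2`, so for every `ε` there are `j < k` with `‖w ^ (N k) - w ^ (N j)‖ < ε`; then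
`‖w ^ (N (k - j)) - 1‖` and `‖w ^ (- N (k - j)) - 1‖` are at most `C ε`. (Or with the eigenvalue `μ` on the unit circle and S_EIG-like formulas.) -/
def S_REC : Prop := ∀ w : SL, |(w : M2).trace| < 2 → ∀ U : Set SL, IsOpen U → (1 : SL) ∈ U →
  ∀ n₀ : ℕ, ∃ n ≥ n₀, 0 < n ∧ w ^ n ∈ U ∧ (w ^ n)⁻¹ ∈ U

/-! ## 5. Absolute values -/

/-- AUT. `ℂ` and `L` are `R`-algebras through `i` and `j` (`RingHom.toAlgebra`), with injective structure maps; `R` is countable, so transcendence bases of `ℂ` and of `L` over `R` have the cardinality of the continuum (`IsAlgClosed.cardinal_eq_cardinal_transcendence_basis_of_aleph0_lt`, `exists_isTranscendenceBasis'`), and `IsAlgClosed.equivOfTranscendenceBasis` gives an isomorphism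
of `R`-algebras. (File `Mathlib/FieldTheory/IsAlgClosed/Classification.lean`.) -/
def S_AUT : Prop := ∀ (R L : Type) [CommRing R] [IsDomain R] [Countable R] [Field L] [IsAlgClosed L]
  [CharZero L] (i : R →+* ℂ) (j : R →+* L), Function.Injective i → Function.Injective j →
  Cardinal.mk L = Cardinal.continuum → ∃ σ : ℂ ≃+* L, ∀ r, σ (i r) = j r

/-- PAD. The algebraic closure of `ℚ_p` (`PadicAlgCl p`, `Mathlib/NumberTheory/Padics/Complex.lean`) has the cardinality of the continuum: at least, because `ℚ_p` has (`continuum_le_cardinal_of_nontriviallyNormedField`); at most, because an algebraic closure of an infinite field has the same cardinality (`Algebra.IsAlgebraic.cardinalMk_le_max` or similar) and `ℚ_p` is a quotient of the set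
of Cauchy sequences of rational numbers (at most `ℵ₀ ^ ℵ₀ = 𝔠`). -/
def S_PAD : Prop := ∀ (p : ℕ) [Fact p.Prime], Cardinal.mk (PadicAlgCl p) = Cardinal.continuum

/-- NAL. A root outside the unit disc. `f` is the minimal polynomial of `x` over `ℚ`. It is not in `ℤ[X]` (otherwise `x` is integral over `ℤ`), so some prime `p` divides the denominator of some coefficient, of `p`-adic absolute value `> 1`. `f` splits over `PadicAlgCl p`; if all its roots had norm at most one, the coefficients of the monic `f` would have norm at most one (the norm is non-archimedean;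
elementary symmetric functions, or induction on the number of linear factors). -/
def S_NAL : Prop := ∀ x : ℂ, IsAlgebraic ℚ x → ¬ IsIntegral ℤ x → ∃ (p : ℕ) (_ : Fact p.Prime)
  (y : PadicAlgCl p), Polynomial.aeval y (minpoly ℚ x) = 0 ∧ 1 < ‖y‖

/-- TIT. The lemma of Tits. `x` is not zero and not a root of unity. In each case we find an algebraically closed field `L` of characteristic zero and cardinality `𝔠` with an absolute value (a norm), a countable domain `R` and injections `i : R → ℂ`, `j : R → L` with `i r = x`, `‖j r‖ ≠ 1` for some `r`; S_AUT gives `σ`, and `v z = ‖σ z‖`. (1) `x` transcendental over `ℚ`: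
`L = ℂ`, `R = ℚ[X]`, `i` evaluation at `x`; `j` evaluation at `x` (if `‖x‖ ≠ 1`; then simply `v = ‖ ‖`) or at `2 x` (also transcendental). (2) `x` integral over `ℤ`: `R = ℚ(x)` (`IntermediateField.adjoin`, a number field), `L = ℂ`; some embedding `j : ℚ(x) → ℂ` has `‖j x‖ ≠ 1` (`NumberField.Embeddings.pow_eq_one_of_norm_eq_one` or `..._le_one`). (3) `x` algebraic, not integral:
`p`, `y` from S_NAL, `L = PadicAlgCl p` (S_PAD), `R = ℚ(x)`, `j` the homomorphism with `j x = y`. -/
def S_TIT : Prop := ∀ x : ℂ, x ≠ 0 → (∀ n : ℕ, 0 < n → x ^ n ≠ 1) →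
  ∃ v : AbsoluteValue ℂ ℝ, v x ≠ 1

def M_TIT : Prop := S_AUT → S_PAD → S_NAL → S_TIT

/-- PNG. Ping pong and counting. `N x = v (x 0) + v (x 1)` on `ℂ²`: a norm for `v`; `v (cdt x y) ≤ N x * N y`. For `x` in `ℂ²` and independent `e, e'`: `cdt e e' • x = cdt x e' • e + cdt e x • e'`, so `N x ≤ C (v (cdt x e') + v (cdt x e))`. Apply this to all pairs of the `2 m` vectors `e i s`: one constant `C`. If `x ≠ 0` and the move `h = (g i) ^ n` does not increase `N`, `N (h x) ≤ N x`, then, from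
`h x = α μ ^ n e i true + β μ ^ (-n) e i false` with `α = cdt x (e i false) / cdt (e i true) (e i false)` etc., `v (cdt x (e i false)) ≤ C' (v μ) ^ (-n) N x`; and if `(g i) ^ (-n)` does not increase `N` then `v (cdt x (e i true)) ≤ C' (v μ) ^ (-n) N x`. Hence, for `n ≥ n₀` (with `2 C C' (v μ) ^ (-n) < 1`) and every `x ≠ 0`, at most one of the `2 m` moves `(i, s)` does not increase `N`.
COUNTING, for a finite set `X` of nonzero vectors: `P` = the set of all `(x, i, s)`, `x ∈ X`, such that the move `(i, s)` increases `N` of `x`; `card P ≥ (2 m - 1) card X`. The map `(x, i, s) ↦ y =` the move of `x` is injective on `P`: the inverse move `(i, not s)` of `y` gives `x`, so it does not increase `N` of `y`; only one move of `y` has this property. `Y` = the image. (For `m = 0` the claim is trivial.) -/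
def S_PNG : Prop := ∀ (v : AbsoluteValue ℂ ℝ) (μ : ℂ) (m : ℕ) (e : Fin m → Bool → Fin 2 → ℂ)
  (g : Fin m → SL), 1 < v μ →
  (∀ i, (cm (g i)).mulVec (e i true) = μ • e i true) →
  (∀ i, (cm (g i)).mulVec (e i false) = μ⁻¹ • e i false) →
  (∀ i s j t, (i, s) ≠ (j, t) → cdt (e i s) (e j t) ≠ 0) →
  ∃ n₀ : ℕ, ∀ n ≥ n₀, ∀ X : Finset V, (0 : V) ∉ X → ∃ Y : Finset V,
    (∀ y ∈ Y, ∃ i, ∃ x ∈ X, y = act ((g i) ^ n) x ∨ y = act ((g i) ^ n)⁻¹ x) ∧
    (2 * m - 1) * X.card ≤ Y.card

/-- ORB. Choose the `c i` one after the other: given finitely many nonzero vectors `f` of `ℂ²` the set of all `c ∈ SL` with `cdt (c e) f ≠ 0` for all these `f` is open and dense, so it meets `G`. (For one `f`: open; dense: let `c₀ ∈ SL` with `cdt (c₀ e) f = 0`, so `c₀⁻¹ f = ν e`, `ν ≠ 0`; for `u = (1 t; 0 1)`, `t ≠ 0` small, `cdt (c₀ u e) f = cdt (u e) (ν e) = ν t (e 1)^2 ≠ 0`. Finite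
intersections of open dense sets are dense.) For `c i` take as `f` all `c j e` and `c j (cj e)`, `j < i`. Note `cm c` is real, so `(cm c).mulVec (cj e) = cj ((cm c).mulVec e)`, `cdt (cj x) (cj y)` is the conjugate of `cdt x y`, and `cdt (c e) (c (cj e)) = cdt e (cj e) ≠ 0` (`e 0 conj(e 1)` is not real). -/
def S_ORB : Prop := ∀ G : Subgroup SL, Dense (G : Set SL) → ∀ e : Fin 2 → ℂ,
  (e 0 * (starRingEnd ℂ) (e 1)).im ≠ 0 → ∀ m : ℕ, ∃ c : Fin m → SL, (∀ i, c i ∈ G) ∧
  ∀ i s j t, (i, s) ≠ (j, t) → cdt ((cm (c i)).mulVec (bif s then e else cj e))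
    ((cm (c j)).mulVec (bif t then e else cj e)) ≠ 0

/-- EXP. Expansion by elements near one. `w` from S_ELL, `μ, e` from S_EIG, `μ` is not a root of unity, `v` from S_TIT for `μ`. If `v μ < 1` replace `μ, e` by `μ⁻¹, cj e` (note `cj (cj e) = e`). `m = k + 1`, `c i` from S_ORB, `g i = c i * w * (c i)⁻¹`, `e i true = c i e`, `e i false = c i (cj e)`. `n₀` from S_PNG; S_REC for the open set of all `h` with `c i * h * (c i)⁻¹ ∈ U` for all `i` gives `n`.
`M` = all `(g i) ^ n` and their inverses. `k ≤ 2 m - 1`. -/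
def S_EXP : Prop := ∀ G : Subgroup SL, Dense (G : Set SL) → ∀ U : Set SL, IsOpen U → (1 : SL) ∈ U →
  ∀ k : ℕ, ∃ M : Finset SL, (∀ g ∈ M, g ∈ G ∧ g ∈ U) ∧ ∀ X : Finset V, (0 : V) ∉ X →
    ∃ Y : Finset V, (∀ y ∈ Y, ∃ g ∈ M, ∃ x ∈ X, y = act g x) ∧ k * X.card ≤ Y.card

def M_EXP : Prop := S_ELL → S_EIG → S_REC → S_TIT → S_PNG → S_ORB → S_EXP

/-! ## 6. Covering, and the theorem -/

/-- COV. For `x ≠ 0` and `y ≠ 0` there is a matrix of determinant one with `g x = y`. (1) `D` is open, not empty, it contains some `y ≠ 0`. For `x ∈ C` the open set of all `g` with `g x ∈ D` is not empty, so it contains some `g_x ∈ G`; the open sets `g_x⁻¹ D` cover the compact set `C`. (2) `S` = the unit sphere of the norm of `V`, compact. For `x ∈ S` there is `g_x ∈ G` with `g_x x ∈ C` and `‖g_x x‖ < r / (R + 1)`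
(a point of `C` multiplied by a small positive number is in `C`). Finitely many of the open sets `{y : g y ∈ C, ‖g y‖ < r / (R + 1)}` cover `S`; scale. -/
def S_COV : Prop := ∀ G : Subgroup SL, Dense (G : Set SL) →
  (∀ C D : Set V, IsCompact C → (0 : V) ∉ C → IsOpen D → D.Nonempty → ∃ T : Finset SL,
    (∀ g ∈ T, g ∈ G) ∧ ∀ x ∈ C, ∃ g ∈ T, act g x ∈ D) ∧
  ∀ (C : Set V) (R r : ℝ), IsOpen C → C.Nonempty → (∀ x ∈ C, ∀ t : ℝ, 0 < t → t • x ∈ C) →
    0 < R → 0 < r → ∃ T : Finset SL, (∀ g ∈ T, g ∈ G) ∧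
    ∀ x : V, x ≠ 0 → ‖x‖ ≤ R → ∃ g ∈ T, act g x ∈ C ∧ ‖act g x‖ < r

/-- NBH. Room for small moves. (1) `x₀ ≠ 0` an interior point of `E` (there is one: the interior is open and not empty), `D` a small open ball around `x₀`, `0 ∉ D`; `(g, x) ↦ g x` is continuous and the closure of `D` is compact and in the interior of `E`. (2) `x₀ ∈ C`; we may take `x₀ ≠ 0`. `D'` a ball around `x₀` whose closure is contained in `C` and does not contain `0`; `C'` = all positive multiples
of elements of `D'`, an open cone, `0 ∉ C'`. For `g` near `1`: `g x ∈ C` for all `x` in the closure of `D'`, hence for all `x ∈ C'`, and `‖g x‖ ≤ 2 ‖x‖` for all `x`. -/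
def S_NBH : Prop := (∀ E : Set V, (interior E).Nonempty → ∃ (D : Set V) (U : Set SL), IsOpen D ∧
    D.Nonempty ∧ (0 : V) ∉ D ∧ IsOpen U ∧ (1 : SL) ∈ U ∧ ∀ g ∈ U, ∀ x ∈ D, act g x ∈ E) ∧
  ∀ C : Set V, IsOpen C → C.Nonempty → (∀ x ∈ C, ∀ t : ℝ, 0 < t → t • x ∈ C) →
    ∃ (C' : Set V) (U : Set SL), IsOpen C' ∧ C'.Nonempty ∧ (0 : V) ∉ C' ∧
    (∀ x ∈ C', ∀ t : ℝ, 0 < t → t • x ∈ C') ∧ IsOpen U ∧ (1 : SL) ∈ U ∧
    ∀ g ∈ U, (∀ x ∈ C', act g x ∈ C) ∧ ∀ x : V, ‖act g x‖ ≤ 2 * ‖x‖

/-- FAT. (Main step.) Let `D ⊆ V`, `0 ∉ D`, `U` a neighbourhood of `1` with `U D ⊆ E'`, `T ⊆ G` finite such that every `x ∈ E` has some `g ∈ T` with `g x ∈ D`. `M` from S_EXP for `U` and `k = c * card T`; `K = M T`. For finite `X ⊆ E` there is `g ∈ T` such that `X' = {x ∈ X : g x ∈ D}` has at least `card X / card T` elements (pigeonhole); expand `g X' ⊆ D`: `Y ⊆ M g X' ⊆ U D ⊆ E'`,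
`card Y ≥ c * card T * card X' ≥ c * card X`. So `Ex K E E' c`. (If `E` is empty this is trivial.) For `Fat1 E`, `Fat1 E'`: `D`, `U` from S_NBH (1) for `E'`, `T` from S_COV (1) for `C = closure E` (compact: closed and bounded). For `Fat2 E`, `Fat2 E'`: `C, r` from `Fat2 E'`, `C'`, `U` from S_NBH (2), `D` = all `x ∈ C'` with `‖x‖ < r / 2`, `T` from S_COV (2) for `C'`, a bound `R` of `E`, and `r / 2`. -/
def S_FAT : Prop := ∀ G : Subgroup SL, Dense (G : Set SL) → ∀ (E E' : Set V) (c : ℕ),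
  (Fat1 E ∧ Fat1 E') ∨ (Fat2 E ∧ Fat2 E') → ∃ K : Finset SL, (∀ κ ∈ K, κ ∈ G) ∧ Ex K E E' c

def M_FAT : Prop := S_EXP → S_COV → S_NBH → S_FAT

/-- QFT. The square contains the intersection of the open positive quadrant with the unit ball (sup norm). -/
def S_QFT : Prop := Fat2 Q ∧ volume Q ≠ 0 ∧ volume Q ≠ ⊤ ∧ MeasurableSet Q

end SQD
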